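import Mathlib
import Pool.Agent.Helper80.TP.Build
import Pool.Agent.Helper80.TP.Leaf

/-!
# Facts which are trilinear polynomials in three parameters

A fact is one natural number in base `YY = 2^2560`: the coefficient of the monomial with the number
`m < 8` (bit `i` of `m`: the parameter `i` occurs) is in the blocks `14 m .. 14 m + 13` (seven blocks
for `C` and its right side, seven for `M`), the block `112` is the weight.
-/

set_option autoImplicit false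

namespace Pool.Agent.Helper80.KD

open Finset
open Pool.Agent.Helper80.TP

/-- the trilinear polynomial with the coefficients `c` -/
def ev {R : Type} [CommRing R] (c : ℕ → R) (x₁ x₂ x₃ : R) : R :=
  ((c 0 + x₃ * c 4) + x₂ * (c 2 + x₃ * c 6)) + x₁ * ((c 1 + x₃ * c 5) + x₂ * (c 3 + x₃ * c 7))

theorem ev_comb {R : Type} [CommRing R] (c d : ℕ → R) (w x₁ x₂ x₃ : R) :
    ev (fun m => c m + w * d m) x₁ x₂ x₃ = ev c x₁ x₂ x₃ + w * ev d x₁ x₂ x₃ := by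
  unfold ev; ring

theorem ev_add {R : Type} [CommRing R] (c d : ℕ → R) (x₁ x₂ x₃ : R) :
    ev (fun m => c m + d m) x₁ x₂ x₃ = ev c x₁ x₂ x₃ + ev d x₁ x₂ x₃ := by
  unfold ev; ring

theorem ev_zero {R : Type} [CommRing R] (x₁ x₂ x₃ : R) : ev (fun _ => (0 : R)) x₁ x₂ x₃ = 0 := by
  unfold ev; ring

theorem ev_cast (c : ℕ → ℤ) (x₁ x₂ x₃ : ℤ) :
    ((ev c x₁ x₂ x₃ : ℤ) : ℝ) = ev (fun m => (c m : ℝ)) (x₁ : ℝ) x₂ x₃ := by
  unfold ev; push_cast; ring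

/-- the value of a matrix polynomial -/
def evI (C : ℕ → IM) (x₁ x₂ x₃ : ℤ) : IM := fun i j => ev (fun m => C m i j) x₁ x₂ x₃

theorem pr_evI (G : Matrix (Fin 3) (Fin 3) ℝ) (C : ℕ → IM) (x₁ x₂ x₃ : ℤ) :
    pr G (evI C x₁ x₂ x₃) = ev (fun m => pr G (C m)) (x₁ : ℝ) x₂ x₃ := by
  unfold pr evI
  simp only [ev_cast, Fin.sum_univ_three]
  unfold ev
  ring

theorem pr_add (G : Matrix (Fin 3) (Fin 3) ℝ) (A B : IM) :
    pr G (fun i j => A i j + B i j) = pr G A + pr G B := by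
  simp only [pr, Fin.sum_univ_three]
  push_cast
  ring

theorem pr_comb (G : Matrix (Fin 3) (Fin 3) ℝ) (A B : IM) (w : ℕ) :
    pr G (fun i j => A i j + w * B i j) = pr G A + w * pr G B := by
  simp only [pr, Fin.sum_univ_three]
  push_cast
  ring

/-- `acc` represents the data, the sizes are bounded by the weight `W` -/
structure RP (acc W : ℕ) (C : ℕ → IM) (k : ℕ → ℤ) (M : ℕ → IM) (u : ℕ → ℤ) : Prop where
  rep : ∃ e : ℕ → ℕ, acc = ∑ i ∈ range 113, e i * YY ^ i ∧ (∀ i < 112, e i ≤ W * RB) ∧ e 112 = W ∧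
    ∀ m < 8, Seven e (14 * m) (C m) (k m) ∧ Seven e (14 * m + 7) (M m) (u m)
  bC : ∀ x₁ x₂ x₃ : ℕ, x₁ ≤ 256 → x₂ ≤ 256 → x₃ ≤ 256 → ∀ i j, |evI C x₁ x₂ x₃ i j| ≤ W * 2 ^ 36
  bM : ∀ x₁ x₂ x₃ : ℕ, x₁ ≤ 256 → x₂ ≤ 256 → x₃ ≤ 256 → ∀ i j, |evI M x₁ x₂ x₃ i j| ≤ W * 2 ^ 30
  bk : ∀ x₁ x₂ x₃ : ℕ, x₁ ≤ 256 → x₂ ≤ 256 → x₃ ≤ 256 → |ev k x₁ x₂ x₃| ≤ W * 2 ^ 38
  bu : ∀ x₁ x₂ x₃ : ℕ, x₁ ≤ 256 → x₂ ≤ 256 → x₃ ≤ 256 → |ev u x₁ x₂ x₃| ≤ W * 2 ^ 36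

/-- `acc` is a combination of facts with total weight `W` -/
structure SD (E : RD) (acc W : ℕ) (C : ℕ → IM) (k : ℕ → ℤ) (M : ℕ → IM) (u : ℕ → ℤ) : Prop where
  r : RP acc W C k M u
  hC : ev (fun m => (k m : ℝ)) (256 * E.c 0) (256 * E.c 1) (256 * E.c 2) ≤
    ev (fun m => pr E.F (C m)) (256 * E.c 0) (256 * E.c 1) (256 * E.c 2)
  hM : E.om * ev (fun m => (u m : ℝ)) (256 * E.c 0) (256 * E.c 1) (256 * E.c 2) ≤
    ev (fun m => pr E.G (M m)) (256 * E.c 0) (256 * E.c 1) (256 * E.c 2)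

/-- a fact -/
def IsD (E : RD) (N : ℕ) : Prop := ∃ C k M u, SD E N 1 C k M u

theorem RP.comb {acc W N V : ℕ} {C D : ℕ → IM} {k l : ℕ → ℤ} {M L : ℕ → IM} {u v : ℕ → ℤ}
    (w : ℕ) (h : RP acc W C k M u) (h' : RP N V D l L v) :
    RP (acc + w * N) (W + w * V) (fun m i j => C m i j + w * D m i j) (fun m => k m + w * l m)
      (fun m i j => M m i j + w * L m i j) (fun m => u m + w * v m) := by
  have babs : ∀ (a b : ℤ) (t : ℕ), |a| ≤ W * 2 ^ t → |b| ≤ V * 2 ^ t →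
      |a + w * b| ≤ ((W + w * V : ℕ) : ℤ) * 2 ^ t := by
    intro a b t ha hb
    have h0 : (0 : ℤ) ≤ w := Nat.cast_nonneg _
    calc |a + w * b| ≤ |a| + |w * b| := abs_add_le _ _
      _ = |a| + w * |b| := by rw [abs_mul, abs_of_nonneg h0]
      _ ≤ W * 2 ^ t + w * (V * 2 ^ t) := add_le_add ha (mul_le_mul_of_nonneg_left hb h0)
      _ = ((W + w * V : ℕ) : ℤ) * 2 ^ t := by push_cast; ring
  constructor
  · obtain ⟨e, h1, h2, h3, h5⟩ := h.rep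
    obtain ⟨f, g1, g2, g3, g5⟩ := h'.rep
    refine ⟨fun i => e i + w * f i, ?_, ?_, ?_, fun m hm => ⟨(h5 m hm).1.comb w (g5 m hm).1,
      (h5 m hm).2.comb w (g5 m hm).2⟩⟩
    · rw [h1, g1, Finset.mul_sum, ← Finset.sum_add_distrib]
      exact Finset.sum_congr rfl fun i _ => by ring
    · intro i hi
      have a1 := h2 i hi
      have a2 := Nat.mul_le_mul_left w (g2 i hi)
      calc e i + w * f i ≤ W * RB + w * (V * RB) := add_le_add a1 a2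
        _ = (W + w * V) * RB := by ring
    · show e 112 + w * f 112 = W + w * V
      rw [h3, g3]
  · intro x₁ x₂ x₃ h1 h2 h3 i j
    have e1 : evI (fun m i j => C m i j + w * D m i j) x₁ x₂ x₃ i j =
        evI C x₁ x₂ x₃ i j + w * evI D x₁ x₂ x₃ i j := by
      unfold evI
      exact ev_comb _ _ _ _ _ _
    rw [e1]
    exact babs _ _ _ (h.bC _ _ _ h1 h2 h3 i j) (h'.bC _ _ _ h1 h2 h3 i j)
  · intro x₁ x₂ x₃ h1 h2 h3 i j
    have e1 : evI (fun m i j => M m i j + w * L m i j) x₁ x₂ x₃ i j =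
        evI M x₁ x₂ x₃ i j + w * evI L x₁ x₂ x₃ i j := by
      unfold evI
      exact ev_comb _ _ _ _ _ _
    rw [e1]
    exact babs _ _ _ (h.bM _ _ _ h1 h2 h3 i j) (h'.bM _ _ _ h1 h2 h3 i j)
  · intro x₁ x₂ x₃ h1 h2 h3
    rw [ev_comb]
    exact babs _ _ _ (h.bk _ _ _ h1 h2 h3) (h'.bk _ _ _ h1 h2 h3)
  · intro x₁ x₂ x₃ h1 h2 h3
    rw [ev_comb]
    exact babs _ _ _ (h.bu _ _ _ h1 h2 h3) (h'.bu _ _ _ h1 h2 h3)

theorem SD.comb {E : RD} {acc W N V : ℕ} {C D : ℕ → IM} {k l : ℕ → ℤ} {M L : ℕ → IM} {u v : ℕ → ℤ}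
    (w : ℕ) (h : SD E acc W C k M u) (h' : SD E N V D l L v) :
    SD E (acc + w * N) (W + w * V) (fun m i j => C m i j + w * D m i j) (fun m => k m + w * l m)
      (fun m i j => M m i j + w * L m i j) (fun m => u m + w * v m) := by
  have hw : (0 : ℝ) ≤ w := Nat.cast_nonneg _
  refine ⟨h.r.comb w h'.r, ?_, ?_⟩
  · have h1 := h.hC
    have h2 := mul_le_mul_of_nonneg_left h'.hC hw
    simp only [pr_comb]
    rw [ev_comb]
    push_cast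
    rw [ev_comb]
    linarith
  · have h1 := h.hM
    have h2 := mul_le_mul_of_nonneg_left h'.hM hw
    simp only [pr_comb]
    rw [ev_comb]
    push_cast
    rw [ev_comb]
    nlinarith

theorem sd_zero (E : RD) : SD E 0 0 (fun _ _ _ => 0) (fun _ => 0) (fun _ _ _ => 0) (fun _ => 0) := by
  have h7 : ∀ o, Seven (fun _ => 0) o (fun _ _ => 0) 0 := by
    intro o
    constructor <;> simp [rowX, rowY]
  have hp : ∀ G : Matrix (Fin 3) (Fin 3) ℝ, pr G (fun _ _ => 0) = 0 := fun G => by simp [pr]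
  refine ⟨⟨⟨fun _ => 0, by simp, by simp, rfl, fun m _ => ⟨h7 _, h7 _⟩⟩, ?_, ?_, ?_, ?_⟩, ?_, ?_⟩
  · intro x₁ x₂ x₃ _ _ _ i j
    simp [evI, ev_zero]
  · intro x₁ x₂ x₃ _ _ _ i j
    simp [evI, ev_zero]
  · intro x₁ x₂ x₃ _ _ _
    simp [ev_zero]
  · intro x₁ x₂ x₃ _ _ _
    simp [ev_zero]
  · simp [hp, ev_zero]
  · simp [hp, ev_zero]

/-! ### blocks -/

/-- the blocks of a number -/
structure BR (N n : ℕ) (e : ℕ → ℕ) (b : ℕ) : Prop where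
  eq : N = ∑ i ∈ range n, e i * YY ^ i
  le : ∀ i < n, e i ≤ b

theorem sum_lt (m : ℕ) (e : ℕ → ℕ) (h : ∀ i < m, e i < YY) : ∑ i ∈ range m, e i * YY ^ i < YY ^ m := by
  induction m with
  | zero => simp
  | succ m ih =>
    rw [Finset.sum_range_succ, pow_succ]
    have h1 := ih fun i hi => h i (by omega)
    have h2 : (e m + 1) * YY ^ m ≤ YY * YY ^ m := Nat.mul_le_mul_right _ (h m (by omega))
    calc ∑ i ∈ range m, e i * YY ^ i + e m * YY ^ m < YY ^ m + e m * YY ^ m := by omega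
      _ = (e m + 1) * YY ^ m := by ring
      _ ≤ YY * YY ^ m := h2
      _ = YY ^ m * YY := mul_comm _ _

theorem BR.split {N m r : ℕ} {e : ℕ → ℕ} {b : ℕ} (h : BR N (m + r) e b) (hb : b < YY) :
    BR (N % YY ^ m) m e b ∧ BR (N / YY ^ m) r (fun i => e (m + i)) b := by
  have h1 : N = ∑ i ∈ range m, e i * YY ^ i + YY ^ m * ∑ i ∈ range r, e (m + i) * YY ^ i := by
    rw [h.eq, Finset.sum_range_add, Finset.mul_sum]
    congr 1
    exact Finset.sum_congr rfl fun i _ => by rw [pow_add]; ring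
  have h2 := sum_lt m e fun i hi => lt_of_le_of_lt (h.le i (by omega)) hb
  constructor
  · refine ⟨?_, fun i hi => h.le i (by omega)⟩
    rw [h1, Nat.add_mul_mod_self_left, Nat.mod_eq_of_lt h2]
  · refine ⟨?_, fun i hi => h.le _ (by omega)⟩
    rw [h1, Nat.add_mul_div_left _ _ (pow_pos YY_pos m), Nat.div_eq_of_lt h2, zero_add]

theorem BR.comb {N N' n : ℕ} {e e' : ℕ → ℕ} {b b' : ℕ} (h : BR N n e b) (x : ℕ) (h' : BR N' n e' b') :
    BR (N + x * N') n (fun i => e i + x * e' i) (b + x * b') := by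
  refine ⟨?_, fun i hi => add_le_add (h.le i hi) (Nat.mul_le_mul_left _ (h'.le i hi))⟩
  rw [h.eq, h'.eq, Finset.mul_sum, ← Finset.sum_add_distrib]
  exact Finset.sum_congr rfl fun i _ => by ring

/-- the last value of the blocks -/
theorem BR.bl_eq {N n : ℕ} {e : ℕ → ℕ} {b : ℕ} (h : BR N n e b) (hb : b < YY) (j : ℕ) (hj : j < n) :
    bl N (2560 * j) = e j % R9 := by
  rw [Pool.Agent.Helper80.TP.bl_eq]
  have e1 := digits_nat YY n e (fun i hi => lt_of_le_of_lt (h.le i hi) hb) N 0 (by rw [h.eq]; simp) j hj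
  rw [← Nat.mod_mod_of_dvd _ (⟨2 ^ 256, YY_mul⟩ : R9 ∣ YY), e1]

/-! ### the corners -/

attribute [local irreducible] p2

/-- the parts without and with the third parameter -/
def lo3 (acc : Nat) : Nat := Nat.land acc (Nat.sub (p2 143360) 1)
def hi3 (acc : Nat) : Nat := Nat.land (Nat.shiftRight acc 143360) (Nat.sub (p2 143360) 1)

/-- the same for the second parameter -/
def lo2 (a : Nat) : Nat := Nat.land a (Nat.sub (p2 71680) 1)
def hi2 (a : Nat) : Nat := Nat.shiftRight a 71680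

/-- the same for the first parameter -/
def lo1 (a : Nat) : Nat := Nat.land a (Nat.sub (p2 35840) 1)
def hi1 (a : Nat) : Nat := Nat.shiftRight a 35840

theorem land_p2 (a n : ℕ) : Nat.land a (Nat.sub (p2 (2560 * n)) 1) = a % YY ^ n := by
  have h : Nat.sub (p2 (2560 * n)) 1 = 2 ^ (2560 * n) - 1 := by
    rw [p2_eq]; rfl
  rw [h, land_mod, YY_pow]

theorem lo3_eq (a : ℕ) : lo3 a = a % YY ^ 56 := land_p2 a 56
theorem lo2_eq (a : ℕ) : lo2 a = a % YY ^ 28 := land_p2 a 28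
theorem lo1_eq (a : ℕ) : lo1 a = a % YY ^ 14 := land_p2 a 14
theorem hi2_eq (a : ℕ) : hi2 a = a / YY ^ 28 := shift_eq a 28
theorem hi1_eq (a : ℕ) : hi1 a = a / YY ^ 14 := shift_eq a 14
theorem hi3_eq (a : ℕ) : hi3 a = a / YY ^ 56 % YY ^ 56 := by
  have h : hi3 a = Nat.land (Nat.shiftRight a (2560 * 56)) (Nat.sub (p2 (2560 * 56)) 1) := rfl
  rw [h, land_p2, shift_eq]

/-- the total weight is small -/
def okD (acc : Nat) : Bool := Nat.ble (Nat.shiftRight acc 286720) 65535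

theorem okD_eq (acc : ℕ) (h : okD acc = true) : acc / YY ^ 112 < 2 ^ 16 := by
  have h1 : okD acc = Nat.ble (Nat.shiftRight acc (2560 * 112)) 65535 := rfl
  rw [h1, shift_eq] at h
  have h2 : acc / YY ^ 112 ≤ 65535 := Nat.le_of_ble_eq_true h
  omega

/-- the number at a corner -/
def atC (acc x₁ x₂ x₃ : ℕ) : ℕ :=
  lo1 (lo2 (lo3 acc + x₃ * hi3 acc) + x₂ * hi2 (lo3 acc + x₃ * hi3 acc)) +
    x₁ * hi1 (lo2 (lo3 acc + x₃ * hi3 acc) + x₂ * hi2 (lo3 acc + x₃ * hi3 acc))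

theorem seven_sh {e : ℕ → ℕ} {a o : ℕ} {C : IM} {k : ℤ} (h : Seven e (a + o) C k) :
    Seven (fun i => e (a + i)) o C k := by
  constructor
  · intro i
    have := h.x i
    simp only [Nat.add_assoc] at this ⊢
    exact this
  · intro i
    have := h.y i
    simp only [Nat.add_assoc] at this ⊢
    exact this
  · have := h.k
    simp only [Nat.add_assoc] at this ⊢
    exact this

section

variable {acc W : ℕ} {C : ℕ → IM} {k : ℕ → ℤ} {M : ℕ → IM} {u : ℕ → ℤ}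

theorem RP.W_lt (h : RP acc W C k M u) (hW : acc / YY ^ 112 < 2 ^ 16) : W < 2 ^ 16 := by
  obtain ⟨e, h1, -, h4, -⟩ := h.rep
  refine lt_of_le_of_lt ?_ hW
  rw [Nat.le_div_iff_mul_le (pow_pos YY_pos 112), h1, ← h4]
  exact Finset.single_le_sum (f := fun i => e i * YY ^ i) (fun i _ => Nat.zero_le _)
    (Finset.mem_range.mpr (by norm_num : 112 < 113))

/-- **the blocks at a corner** -/
theorem RP.corner (h : RP acc W C k M u) (hW : okD acc = true) {x₁ x₂ x₃ : ℕ} (h₁ : x₁ ≤ 256)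
    (h₂ : x₂ ≤ 256) (h₃ : x₃ ≤ 256) :
    Seven (fun i => bl (atC acc x₁ x₂ x₃) (2560 * i)) 0 (evI C x₁ x₂ x₃) (ev k x₁ x₂ x₃) ∧
      Seven (fun i => bl (atC acc x₁ x₂ x₃) (2560 * (i + 7))) 0 (evI M x₁ x₂ x₃) (ev u x₁ x₂ x₃) := by
  have hW' := h.W_lt (okD_eq acc hW)
  obtain ⟨e, h1, h2, h4, h5⟩ := h.rep
  obtain ⟨b, hb⟩ : ∃ b, b = 2 ^ 16 * RB := ⟨_, rfl⟩
  have hbW : W * RB ≤ b := by rw [hb]; exact Nat.mul_le_mul_right _ hW'.le
  have hbY : ((b + 256 * b) + 256 * (b + 256 * b)) + 256 * ((b + 256 * b) + 256 * (b + 256 * b)) < YY := by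
    rw [hb, YY_mul]
    unfold RB
    have : ((2 ^ 16 * (2 ^ 60 * R9) + 256 * (2 ^ 16 * (2 ^ 60 * R9))) +
        256 * (2 ^ 16 * (2 ^ 60 * R9) + 256 * (2 ^ 16 * (2 ^ 60 * R9)))) +
        256 * ((2 ^ 16 * (2 ^ 60 * R9) + 256 * (2 ^ 16 * (2 ^ 60 * R9))) +
        256 * (2 ^ 16 * (2 ^ 60 * R9) + 256 * (2 ^ 16 * (2 ^ 60 * R9)))) =
        R9 * (257 ^ 3 * 2 ^ 76) := by ring
    rw [this]
    exact Nat.mul_lt_mul_of_pos_left (by norm_num) R9_pos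
  have hb1 : 1 ≤ b := by
    rw [hb]
    exact Nat.mul_pos (by norm_num) (Nat.mul_pos (by norm_num) R9_pos)
  have h0 : BR acc (112 + 1) e (b + 1) := by
    refine ⟨h1, fun i hi => ?_⟩
    rcases Nat.lt_or_ge i 112 with h6 | h6
    · exact ((h2 i h6).trans hbW).trans (Nat.le_succ _)
    · have h7 : i = 112 := by omega
      rw [h7, h4]
      have : (2 : ℕ) ^ 16 ≤ b := by
        rw [hb]
        exact Nat.le_mul_of_pos_right _ (Nat.mul_pos (by norm_num) R9_pos)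
      omega
  -- without the weight
  have g0 : BR (acc % YY ^ 112) (56 + 56) e b := by
    have := (h0.split (m := 112) (r := 1) (by omega)).1
    exact ⟨this.eq, fun i hi => (h2 i hi).trans hbW⟩
  have e3 : lo3 acc = acc % YY ^ 112 % YY ^ 56 := by
    rw [lo3_eq, Nat.mod_mod_of_dvd _ (pow_dvd_pow _ (by norm_num))]
  have e3' : hi3 acc = acc % YY ^ 112 / YY ^ 56 := by
    rw [hi3_eq, show (112 : ℕ) = 56 + 56 by norm_num, pow_add, Nat.mod_mul_right_div_self]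
  obtain ⟨g1, g1'⟩ := g0.split (by omega)
  rw [← e3] at g1
  rw [← e3'] at g1'
  have g2 := g1.comb x₃ g1'
  obtain ⟨a3, ha3⟩ : ∃ a3, a3 = lo3 acc + x₃ * hi3 acc := ⟨_, rfl⟩
  have mb : ∀ {b x : ℕ}, x ≤ 256 → b + x * b ≤ b + 256 * b := fun hx =>
    Nat.add_le_add_left (Nat.mul_le_mul_right _ hx) _
  have g3 : BR a3 (28 + 28) (fun i => e i + x₃ * e (56 + i)) (b + 256 * b) := by
    rw [ha3]
    exact ⟨g2.eq, fun i hi => (g2.le i hi).trans (mb h₃)⟩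
  obtain ⟨g4, g4'⟩ := g3.split (by omega)
  rw [← lo2_eq] at g4
  rw [← hi2_eq] at g4'
  have g5 := g4.comb x₂ g4'
  obtain ⟨a2, ha2⟩ : ∃ a2, a2 = lo2 a3 + x₂ * hi2 a3 := ⟨_, rfl⟩
  have g6 : BR a2 (14 + 14) (fun i => (e i + x₃ * e (56 + i)) + x₂ * (e (28 + i) + x₃ * e (56 + (28 + i))))
      ((b + 256 * b) + 256 * (b + 256 * b)) := by
    rw [ha2]
    exact ⟨g5.eq, fun i hi => (g5.le i hi).trans (mb h₂)⟩
  obtain ⟨g7, g7'⟩ := g6.split (by omega)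
  rw [← lo1_eq] at g7
  rw [← hi1_eq] at g7'
  have g8 := g7.comb x₁ g7'
  have ea : atC acc x₁ x₂ x₃ = lo1 a2 + x₁ * hi1 a2 := by
    rw [ha2, ha3]; rfl
  obtain ⟨f, hf⟩ : ∃ f : ℕ → ℕ, f = fun i =>
      ((e i + x₃ * e (56 + i)) + x₂ * (e (28 + i) + x₃ * e (56 + (28 + i)))) +
      x₁ * ((e (14 + i) + x₃ * e (56 + (14 + i))) + x₂ * (e (28 + (14 + i)) + x₃ * e (56 + (28 + (14 + i))))) :=
    ⟨_, rfl⟩
  have g9 : BR (atC acc x₁ x₂ x₃) 14 f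
      (((b + 256 * b) + 256 * (b + 256 * b)) + 256 * ((b + 256 * b) + 256 * (b + 256 * b))) := by
    rw [ea, hf]
    exact ⟨g8.eq, fun i hi => (g8.le i hi).trans (mb h₁)⟩
  have key : ∀ j < 14, bl (atC acc x₁ x₂ x₃) (2560 * j) = f j % R9 := fun j hj => g9.bl_eq hbY j hj
  -- the residues
  have sh : ∀ (o : ℕ) (X : ℕ → IM) (v : ℕ → ℤ), (∀ m < 8, Seven e (14 * m + o) (X m) (v m)) →
      Seven f o (evI X x₁ x₂ x₃) (ev v x₁ x₂ x₃) := by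
    intro o X v hs
    have s : ∀ m < 8, Seven (fun i => e (14 * m + i)) o (X m) (v m) := fun m hm => seven_sh (hs m hm)
    have s0 : Seven (fun i => e i) o (X 0) (v 0) := by simpa using s 0 (by norm_num)
    have c1 := (s0.comb x₃ (s 4 (by norm_num))).comb x₂ ((s 2 (by norm_num)).comb x₃ (s 6 (by norm_num)))
    have c2 := ((s 1 (by norm_num)).comb x₃ (s 5 (by norm_num))).comb x₂
      ((s 3 (by norm_num)).comb x₃ (s 7 (by norm_num)))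
    have c3 := c1.comb x₁ c2
    have ef : f = fun i => (e i + x₃ * e (14 * 4 + i) + x₂ * (e (14 * 2 + i) + x₃ * e (14 * 6 + i))) +
        x₁ * (e (14 * 1 + i) + x₃ * e (14 * 5 + i) + x₂ * (e (14 * 3 + i) + x₃ * e (14 * 7 + i))) := by
      rw [hf]
      funext i
      have q1 : 56 + (28 + i) = 14 * 6 + i := by ring
      have q2 : 56 + (14 + i) = 14 * 5 + i := by ring
      have q3 : 28 + (14 + i) = 14 * 3 + i := by ring
      have q4 : 56 + (14 * 3 + i) = 14 * 7 + i := by ring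
      rw [q1, q2, q3, q4]
    rw [ef]
    exact c3
  have fin : ∀ (o : ℕ) (X : IM) (v : ℤ), o + 7 ≤ 14 → Seven f o X v →
      Seven (fun i => bl (atC acc x₁ x₂ x₃) (2560 * (i + o))) 0 X v := by
    intro o D l ho hs
    refine ⟨fun i => ?_, fun i => ?_, ?_⟩
    · show ((bl _ (2560 * (0 + (i : ℕ) + o)) : ℕ) : ℤ) ≡ _ [ZMOD R9]
      rw [key _ (by omega), show 0 + (i : ℕ) + o = o + i by omega]
      exact mod_cong _ _ (hs.x i)
    · show ((bl _ (2560 * (0 + 3 + (i : ℕ) + o)) : ℕ) : ℤ) ≡ _ [ZMOD R9]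
      rw [key _ (by omega), show 0 + 3 + (i : ℕ) + o = o + 3 + i by omega]
      exact mod_cong _ _ (hs.y i)
    · show ((bl _ (2560 * (0 + 6 + o)) : ℕ) : ℤ) ≡ _ [ZMOD R9]
      rw [key _ (by omega), show 0 + 6 + o = o + 6 by omega]
      exact mod_cong _ _ hs.k
  exact ⟨fin 0 _ _ (by norm_num) (sh 0 C k fun m hm => (h5 m hm).1),
    fin 7 _ _ (by norm_num) (sh 7 M u fun m hm => (h5 m hm).2)⟩

/-- the sizes at a corner -/
theorem RP.small (h : RP acc W C k M u) (hW : okD acc = true) {x₁ x₂ x₃ : ℕ} (h₁ : x₁ ≤ 256)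
    (h₂ : x₂ ≤ 256) (h₃ : x₃ ≤ 256) :
    Small (evI C x₁ x₂ x₃) (ev k x₁ x₂ x₃) (evI M x₁ x₂ x₃) (ev u x₁ x₂ x₃) := by
  have hW' : (W : ℤ) ≤ 2 ^ 16 := by exact_mod_cast (h.W_lt (okD_eq acc hW)).le
  refine ⟨fun i j => ?_, ?_, fun i j => ?_, ?_⟩
  · exact (h.bC _ _ _ h₁ h₂ h₃ i j).trans ((mul_le_mul_of_nonneg_right hW' (by positivity)).trans (by norm_num))
  · exact (h.bk _ _ _ h₁ h₂ h₃).trans ((mul_le_mul_of_nonneg_right hW' (by positivity)).trans (by norm_num))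
  · exact (h.bM _ _ _ h₁ h₂ h₃ i j).trans ((mul_le_mul_of_nonneg_right hW' (by positivity)).trans (by norm_num))
  · exact (h.bu _ _ _ h₁ h₂ h₃).trans ((mul_le_mul_of_nonneg_right hW' (by positivity)).trans (by norm_num))

end

/-- an affine function which is negative at both ends -/
theorem aff_neg {α β l r t : ℝ} (h1 : l ≤ t) (h2 : t ≤ r) (hl : α + l * β < 0) (hr : α + r * β < 0) :
    α + t * β < 0 := by
  rcases le_total 0 β with h | h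
  · have := mul_le_mul_of_nonneg_right h2 h
    linarith
  · have := mul_le_mul_of_nonpos_right h1 h
    linarith

/-- a trilinear function which is negative at the corners -/
theorem ev_neg {c : ℕ → ℝ} {l₁ r₁ t₁ l₂ r₂ t₂ l₃ r₃ t₃ : ℝ} (a₁ : l₁ ≤ t₁) (b₁ : t₁ ≤ r₁) (a₂ : l₂ ≤ t₂)
    (b₂ : t₂ ≤ r₂) (a₃ : l₃ ≤ t₃) (b₃ : t₃ ≤ r₃)
    (h : ∀ x₁ x₂ x₃, (x₁ = l₁ ∨ x₁ = r₁) → (x₂ = l₂ ∨ x₂ = r₂) → (x₃ = l₃ ∨ x₃ = r₃) →
      ev c x₁ x₂ x₃ < 0) : ev c t₁ t₂ t₃ < 0 := by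
  have s1 : ∀ x₂ x₃, (x₂ = l₂ ∨ x₂ = r₂) → (x₃ = l₃ ∨ x₃ = r₃) → ev c t₁ x₂ x₃ < 0 := fun x₂ x₃ h2 h3 => by
    unfold ev
    exact aff_neg a₁ b₁ (h l₁ x₂ x₃ (Or.inl rfl) h2 h3) (h r₁ x₂ x₃ (Or.inr rfl) h2 h3)
  have s2 : ∀ x₃, (x₃ = l₃ ∨ x₃ = r₃) → ev c t₁ t₂ x₃ < 0 := fun x₃ h3 => by
    have e : ∀ x, ev c t₁ x x₃ = (c 0 + x₃ * c 4 + t₁ * (c 1 + x₃ * c 5)) +
        x * ((c 2 + x₃ * c 6) + t₁ * (c 3 + x₃ * c 7)) := fun x => by unfold ev; ring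
    have h1 := s1 l₂ x₃ (Or.inl rfl) h3
    have h2 := s1 r₂ x₃ (Or.inr rfl) h3
    rw [e] at h1 h2 ⊢
    exact aff_neg a₂ b₂ h1 h2
  have e : ∀ x, ev c t₁ t₂ x = (c 0 + t₂ * c 2 + t₁ * (c 1 + t₂ * c 3)) +
      x * ((c 4 + t₂ * c 6) + t₁ * (c 5 + t₂ * c 7)) := fun x => by unfold ev; ring
  have h1 := s2 l₃ (Or.inl rfl)
  have h2 := s2 r₃ (Or.inr rfl)
  rw [e] at h1 h2 ⊢
  exact aff_neg a₃ b₃ h1 h2

/-- **the tests at the corners contradict the facts** -/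
theorem SD.not_hit {E : RD} {acc W : ℕ} {C : ℕ → IM} {k : ℕ → ℤ} {M : ℕ → IM} {u : ℕ → ℤ}
    (h : SD E acc W C k M u) {σ : ℝ} (hσ : 0 < σ) {l₁ r₁ l₂ r₂ l₃ r₃ : ℕ}
    (a₁ : (l₁ : ℝ) ≤ 256 * E.c 0) (b₁ : 256 * E.c 0 ≤ r₁) (a₂ : (l₂ : ℝ) ≤ 256 * E.c 1)
    (b₂ : 256 * E.c 1 ≤ r₂) (a₃ : (l₃ : ℝ) ≤ 256 * E.c 2) (b₃ : 256 * E.c 2 ≤ r₃)
    (hh : ∀ x₁ x₂ x₃ : ℕ, (x₁ = l₁ ∨ x₁ = r₁) → (x₂ = l₂ ∨ x₂ = r₂) → (x₃ = l₃ ∨ x₃ = r₃) →
      Hit E σ (evI C x₁ x₂ x₃) (ev k x₁ x₂ x₃) (evI M x₁ x₂ x₃) (ev u x₁ x₂ x₃)) : False := by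
  obtain ⟨c, hc⟩ : ∃ c : ℕ → ℝ, c = fun m => (pr E.F (C m) + σ * pr E.G (M m)) -
      ((k m : ℝ) + σ * (E.om * u m)) := ⟨_, rfl⟩
  have e : ∀ x₁ x₂ x₃ : ℝ, ev c x₁ x₂ x₃ = (ev (fun m => pr E.F (C m)) x₁ x₂ x₃ +
      σ * ev (fun m => pr E.G (M m)) x₁ x₂ x₃) - (ev (fun m => (k m : ℝ)) x₁ x₂ x₃ +
      σ * (E.om * ev (fun m => (u m : ℝ)) x₁ x₂ x₃)) := by
    intro x₁ x₂ x₃
    rw [hc]
    unfold ev
    ring
  have hneg : ev c (256 * E.c 0) (256 * E.c 1) (256 * E.c 2) < 0 := by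
    refine ev_neg a₁ b₁ a₂ b₂ a₃ b₃ ?_
    have hx : ∀ x₁ x₂ x₃ : ℕ, (x₁ = l₁ ∨ x₁ = r₁) → (x₂ = l₂ ∨ x₂ = r₂) → (x₃ = l₃ ∨ x₃ = r₃) →
        ev c (x₁ : ℝ) x₂ x₃ < 0 := by
      intro x₁ x₂ x₃ h1 h2 h3
      have h4 := hh x₁ x₂ x₃ h1 h2 h3
      unfold Hit at h4
      rw [pr_evI, pr_evI, ev_cast, ev_cast] at h4
      rw [e]
      push_cast at h4
      linarith
    rintro x₁ x₂ x₃ (rfl | rfl) (rfl | rfl) (rfl | rfl)
    · exact hx _ _ _ (Or.inl rfl) (Or.inl rfl) (Or.inl rfl)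
    · exact hx _ _ _ (Or.inl rfl) (Or.inl rfl) (Or.inr rfl)
    · exact hx _ _ _ (Or.inl rfl) (Or.inr rfl) (Or.inl rfl)
    · exact hx _ _ _ (Or.inl rfl) (Or.inr rfl) (Or.inr rfl)
    · exact hx _ _ _ (Or.inr rfl) (Or.inl rfl) (Or.inl rfl)
    · exact hx _ _ _ (Or.inr rfl) (Or.inl rfl) (Or.inr rfl)
    · exact hx _ _ _ (Or.inr rfl) (Or.inr rfl) (Or.inl rfl)
    · exact hx _ _ _ (Or.inr rfl) (Or.inr rfl) (Or.inr rfl)
  rw [e] at hneg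
  have h1 := h.hC
  have h2 := mul_le_mul_of_nonneg_left h.hM hσ.le
  linarith

end Pool.Agent.Helper80.KD
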