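import Mathlib
import Pool.Agent.Helper80.TK.Build
import Pool.Agent.Helper80.KD.Fact

/-!
# Building trilinear facts

`tri P Q A₁ B₁ A₂ B₂ A₃ B₃` is the packed piece `P` times `(A₁ - B₁ t₁) (A₂ - B₂ t₂) (A₃ - B₃ t₃)`; `Q`
is the piece `- P`.
-/

set_option autoImplicit false

namespace Pool.Agent.Helper80.KD

open Finset
open Pool.Agent.Helper80.TP (BB R9 YY M9 RB IM rowX rowY Seven RD pr YY_pos YY_mul R9_pos R9_le_RB
  YY_pow Vc VR vc vI vr_vc p2 p2_YY shl seven_shift)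
open Pool.Agent.Helper80.TK (pm toM kC kM Pk seven_add seven_zero mI pk_pm pk_pmM pk_kC pk_kM)

/-- the place of a monomial -/
def sh (n m : Nat) : Nat := Nat.shiftLeft n (Nat.mul 35840 m)

theorem sh_eq (n m : ℕ) : sh n m = YY ^ (14 * m) * n := by
  unfold sh
  have : Nat.mul 35840 m = 2560 * (14 * m) := by
    show 35840 * m = _
    ring
  rw [this, shl, YY_pow, mul_comm]

/-- a product of three factors -/
def tri (P Q A₁ B₁ A₂ B₂ A₃ B₃ : Nat) : Nat :=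
  Nat.add
    (Nat.add
      (Nat.add (Nat.mul (Nat.mul A₁ (Nat.mul A₂ A₃)) P) (sh (Nat.mul (Nat.mul B₁ (Nat.mul A₂ A₃)) Q) 1))
      (Nat.add (sh (Nat.mul (Nat.mul A₁ (Nat.mul B₂ A₃)) Q) 2) (sh (Nat.mul (Nat.mul B₁ (Nat.mul B₂ A₃)) P) 3)))
    (Nat.add
      (Nat.add (sh (Nat.mul (Nat.mul A₁ (Nat.mul A₂ B₃)) Q) 4) (sh (Nat.mul (Nat.mul B₁ (Nat.mul A₂ B₃)) P) 5))
      (Nat.add (sh (Nat.mul (Nat.mul A₁ (Nat.mul B₂ B₃)) P) 6) (sh (Nat.mul (Nat.mul B₁ (Nat.mul B₂ B₃)) Q) 7)))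

/-- its coefficients -/
def tc (A₁ B₁ A₂ B₂ A₃ B₃ : ℕ) : ℕ → ℤ
  | 0 => A₁ * (A₂ * A₃)
  | 1 => -(B₁ * (A₂ * A₃))
  | 2 => -(A₁ * (B₂ * A₃))
  | 3 => B₁ * (B₂ * A₃)
  | 4 => -(A₁ * (A₂ * B₃))
  | 5 => B₁ * (A₂ * B₃)
  | 6 => A₁ * (B₂ * B₃)
  | 7 => -(B₁ * (B₂ * B₃))
  | _ => 0

theorem ev_tcR (A₁ B₁ A₂ B₂ A₃ B₃ : ℕ) (x₁ x₂ x₃ : ℝ) :
    ev (fun m => (tc A₁ B₁ A₂ B₂ A₃ B₃ m : ℝ)) x₁ x₂ x₃ =
    (A₁ - B₁ * x₁) * ((A₂ - B₂ * x₂) * (A₃ - B₃ * x₃)) := by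
  unfold ev tc; push_cast; ring

theorem ev_tc (A₁ B₁ A₂ B₂ A₃ B₃ : ℕ) (x₁ x₂ x₃ : ℤ) : ev (tc A₁ B₁ A₂ B₂ A₃ B₃) x₁ x₂ x₃ =
    (A₁ - B₁ * x₁) * ((A₂ - B₂ * x₂) * (A₃ - B₃ * x₃)) := by
  have h := ev_tcR A₁ B₁ A₂ B₂ A₃ B₃ (x₁ : ℝ) x₂ x₃
  rw [← ev_cast] at h
  exact_mod_cast h

/-- eight parts -/
def PD (N : ℕ) (C : ℕ → IM) (k : ℕ → ℤ) (M : ℕ → IM) (u : ℕ → ℤ) (p : ℕ) : Prop :=
  ∃ P : ℕ → ℕ, N = ∑ m ∈ range 8, YY ^ (14 * m) * P m ∧ ∀ m < 8, Pk (P m) (C m) (k m) (M m) (u m) p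

theorem pk_smul {N : ℕ} {C M : IM} {k u : ℤ} {p : ℕ} (w : ℕ) (h : Pk N C k M u p) :
    Pk (w * N) (fun i j => w * C i j) (w * k) (fun i j => w * M i j) (w * u) (w * p) := by
  obtain ⟨e, h1, h2, h3, h4⟩ := h
  refine ⟨fun i => w * e i, ?_, ?_, h3.smul w, ?_⟩
  · rw [h1, Finset.mul_sum]
    exact Finset.sum_congr rfl fun j _ => by ring
  · intro j hj
    calc w * e j ≤ w * (p * R9) := Nat.mul_le_mul_left w (h2 j hj)
      _ = w * p * R9 := by ring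
  · have h0 : Seven (fun _ => 0) 7 (fun _ _ => 0) 0 := seven_zero _ _ fun _ _ => rfl
    have := h0.comb w h4
    simpa using this

theorem pk_mono {N : ℕ} {C M : IM} {k u : ℤ} {p q : ℕ} (hpq : p ≤ q) (h : Pk N C k M u p) :
    Pk N C k M u q := by
  obtain ⟨e, h1, h2, h3, h4⟩ := h
  exact ⟨e, h1, fun i hi => (h2 i hi).trans (Nat.mul_le_mul_right _ hpq), h3, h4⟩

theorem pk_zero (p : ℕ) : Pk 0 (fun _ _ => 0) 0 (fun _ _ => 0) 0 p :=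
  ⟨fun _ => 0, by simp, by simp, seven_zero _ _ fun _ _ => rfl, seven_zero _ _ fun _ _ => rfl⟩

theorem PD.add {N N' : ℕ} {C C' : ℕ → IM} {k k' : ℕ → ℤ} {M M' : ℕ → IM} {u u' : ℕ → ℤ} {p p' : ℕ}
    (h : PD N C k M u p) (h' : PD N' C' k' M' u' p') :
    PD (N + N') (fun m i j => C m i j + C' m i j) (fun m => k m + k' m)
      (fun m i j => M m i j + M' m i j) (fun m => u m + u' m) (p + p') := by
  obtain ⟨P, h1, h2⟩ := h
  obtain ⟨Q, g1, g2⟩ := h'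
  refine ⟨fun m => P m + Q m, ?_, fun m hm => (h2 m hm).add (g2 m hm)⟩
  rw [h1, g1, ← Finset.sum_add_distrib]
  exact Finset.sum_congr rfl fun j _ => by ring

/-- a piece with the values `w`, `w'` of its two inequalities -/
structure Pv (E : RD) (N : ℕ) (w w' : ℝ → ℝ → ℝ → ℝ) (p a b : ℕ) : Prop where
  ex : ∃ (C : ℕ → IM) (k : ℕ → ℤ) (M : ℕ → IM) (u : ℕ → ℤ), PD N C k M u p ∧
    (∀ x₁ x₂ x₃ : ℕ, x₁ ≤ 256 → x₂ ≤ 256 → x₃ ≤ 256 →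
      (∀ i j, |evI C x₁ x₂ x₃ i j| ≤ a) ∧ |ev k x₁ x₂ x₃| ≤ a ∧
      (∀ i j, |evI M x₁ x₂ x₃ i j| ≤ b) ∧ |ev u x₁ x₂ x₃| ≤ b) ∧
    (∀ x₁ x₂ x₃ : ℝ, ev (fun m => pr E.F (C m)) x₁ x₂ x₃ - ev (fun m => (k m : ℝ)) x₁ x₂ x₃ =
      w x₁ x₂ x₃) ∧
    (∀ x₁ x₂ x₃ : ℝ, ev (fun m => pr E.G (M m)) x₁ x₂ x₃ -
      E.om * ev (fun m => (u m : ℝ)) x₁ x₂ x₃ = w' x₁ x₂ x₃)

theorem Pv.add {E : RD} {N N' : ℕ} {w w' z z' : ℝ → ℝ → ℝ → ℝ} {p p' a a' b b' : ℕ}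
    (h : Pv E N w z p a b) (h' : Pv E N' w' z' p' a' b') :
    Pv E (N + N') (fun x y t => w x y t + w' x y t) (fun x y t => z x y t + z' x y t) (p + p') (a + a')
      (b + b') := by
  obtain ⟨C, k, M, u, h1, h2, h3, h4⟩ := h.ex
  obtain ⟨C', k', M', u', g1, g2, g3, g4⟩ := h'.ex
  refine ⟨_, _, _, _, h1.add g1, ?_, ?_, ?_⟩
  · intro x₁ x₂ x₃ hx hy ht
    obtain ⟨a1, a2, a3, a4⟩ := h2 x₁ x₂ x₃ hx hy ht
    obtain ⟨b1, b2, b3, b4⟩ := g2 x₁ x₂ x₃ hx hy ht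
    refine ⟨fun i j => ?_, ?_, fun i j => ?_, ?_⟩
    · have e1 : evI (fun m i j => C m i j + C' m i j) x₁ x₂ x₃ i j =
          evI C x₁ x₂ x₃ i j + evI C' x₁ x₂ x₃ i j := ev_add _ _ _ _ _
      rw [e1]
      push_cast
      exact (abs_add_le _ _).trans (add_le_add (a1 i j) (b1 i j))
    · rw [ev_add]
      push_cast
      exact (abs_add_le _ _).trans (add_le_add a2 b2)
    · have e1 : evI (fun m i j => M m i j + M' m i j) x₁ x₂ x₃ i j =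
          evI M x₁ x₂ x₃ i j + evI M' x₁ x₂ x₃ i j := ev_add _ _ _ _ _
      rw [e1]
      push_cast
      exact (abs_add_le _ _).trans (add_le_add (a3 i j) (b3 i j))
    · rw [ev_add]
      push_cast
      exact (abs_add_le _ _).trans (add_le_add a4 b4)
  · intro x₁ x₂ x₃
    rw [← h3, ← g3]
    simp only [pr_add]
    rw [ev_add]
    push_cast
    rw [ev_add]
    ring
  · intro x₁ x₂ x₃
    rw [← h4, ← g4]
    simp only [pr_add]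
    rw [ev_add]
    push_cast
    rw [ev_add]
    ring

theorem pr_mul (G : Matrix (Fin 3) (Fin 3) ℝ) (c : ℤ) (X : IM) :
    pr G (fun i j => c * X i j) = c * pr G X := by
  unfold pr
  rw [Finset.mul_sum]
  refine Finset.sum_congr rfl fun i _ => ?_
  rw [Finset.mul_sum]
  refine Finset.sum_congr rfl fun j _ => ?_
  push_cast
  ring

theorem ev_mul {R : Type} [CommRing R] (c : ℕ → R) (a : R) (x₁ x₂ x₃ : R) :
    ev (fun m => c m * a) x₁ x₂ x₃ = ev c x₁ x₂ x₃ * a := by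
  unfold ev; ring

/-- a polynomial times a piece -/
theorem pv_poly (E : RD) {N : ℕ} {X Y : IM} {κ υ : ℤ} {p a b β : ℕ} (c : ℕ → ℤ) (P : ℕ → ℕ)
    (hN : N = ∑ m ∈ range 8, YY ^ (14 * m) * P m)
    (hP : ∀ m < 8, Pk (P m) (fun i j => c m * X i j) (c m * κ) (fun i j => c m * Y i j) (c m * υ) p)
    (hX : ∀ i j, |X i j| ≤ a) (hκ : |κ| ≤ a) (hY : ∀ i j, |Y i j| ≤ b) (hυ : |υ| ≤ b)
    (hβ : ∀ x₁ x₂ x₃ : ℕ, x₁ ≤ 256 → x₂ ≤ 256 → x₃ ≤ 256 → |ev c x₁ x₂ x₃| ≤ β) :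
    Pv E N (fun x y t => ev (fun m => (c m : ℝ)) x y t * (pr E.F X - κ))
      (fun x y t => ev (fun m => (c m : ℝ)) x y t * (pr E.G Y - E.om * υ)) p (β * a) (β * b) := by
  refine ⟨_, _, _, _, ⟨P, hN, hP⟩, ?_, ?_, ?_⟩
  · intro x₁ x₂ x₃ hx hy ht
    have h0 := hβ x₁ x₂ x₃ hx hy ht
    have key : ∀ (v : ℤ) (d : ℕ), |v| ≤ d → |ev (fun m => c m * v) (x₁ : ℤ) x₂ x₃| ≤ ((β * d : ℕ) : ℤ) := by
      intro v d hv
      rw [ev_mul, abs_mul]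
      push_cast
      exact mul_le_mul h0 hv (abs_nonneg _) (by positivity)
    exact ⟨fun i j => key _ _ (hX i j), key _ _ hκ, fun i j => key _ _ (hY i j), key _ _ hυ⟩
  · intro x₁ x₂ x₃
    simp only [pr_mul]
    push_cast
    rw [ev_mul, ev_mul]
    ring
  · intro x₁ x₂ x₃
    simp only [pr_mul]
    push_cast
    rw [ev_mul, ev_mul]
    ring

/-- one monomial -/
def mo (m j : ℕ) : ℤ := if j = m then 1 else 0

theorem pv_mono (E : RD) {P : ℕ} {X Y : IM} {κ υ : ℤ} {p a b : ℕ} (hP : Pk P X κ Y υ p) (m : ℕ) (hm : m < 8)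
    (hX : ∀ i j, |X i j| ≤ a) (hκ : |κ| ≤ a) (hY : ∀ i j, |Y i j| ≤ b) (hυ : |υ| ≤ b) (β : ℕ)
    (hβ : ∀ x₁ x₂ x₃ : ℕ, x₁ ≤ 256 → x₂ ≤ 256 → x₃ ≤ 256 → |ev (mo m) x₁ x₂ x₃| ≤ β) :
    Pv E (sh P m) (fun x y t => ev (fun j => (mo m j : ℝ)) x y t * (pr E.F X - κ))
      (fun x y t => ev (fun j => (mo m j : ℝ)) x y t * (pr E.G Y - E.om * υ)) p (β * a) (β * b) := by
  refine pv_poly E (mo m) (fun j => if j = m then P else 0) ?_ ?_ hX hκ hY hυ hβ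
  · rw [sh_eq, Finset.sum_eq_single_of_mem m (Finset.mem_range.2 hm)]
    · simp
    · intro j _ hj
      simp [hj]
  · intro j hj
    by_cases h : j = m
    · subst h
      simpa [mo] using hP
    · simp only [h, if_false, mo, zero_mul]
      exact pk_zero p

/-- size of a factor -/
theorem fac_bd {A B β x : ℕ} (hx : x ≤ 256) (h1 : A ≤ β) (h2 : 256 * B ≤ A + β) :
    |((A : ℤ) - B * x)| ≤ β := by
  have h3 : B * x ≤ B * 256 := Nat.mul_le_mul_left _ hx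
  have h4 : (B : ℤ) * x ≤ B * 256 := by exact_mod_cast h3
  have h5 : (0 : ℤ) ≤ (B : ℤ) * x := by positivity
  rw [abs_le]
  constructor <;> omega

/-- **a product of three factors times a piece** -/
theorem pv_tri (E : RD) {P Q : ℕ} {X Y : IM} {κ υ : ℤ} {p a b : ℕ} (hP : Pk P X κ Y υ p)
    (hQ : Pk Q (fun i j => - X i j) (-κ) (fun i j => - Y i j) (-υ) p)
    (hX : ∀ i j, |X i j| ≤ a) (hκ : |κ| ≤ a) (hY : ∀ i j, |Y i j| ≤ b) (hυ : |υ| ≤ b)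
    (A₁ B₁ A₂ B₂ A₃ B₃ β₁ β₂ β₃ q : ℕ) (h1 : A₁ ≤ β₁ ∧ 256 * B₁ ≤ A₁ + β₁) (h2 : A₂ ≤ β₂ ∧ 256 * B₂ ≤ A₂ + β₂)
    (h3 : A₃ ≤ β₃ ∧ 256 * B₃ ≤ A₃ + β₃) (hq : (A₁ + B₁) * ((A₂ + B₂) * (A₃ + B₃)) ≤ q) :
    Pv E (tri P Q A₁ B₁ A₂ B₂ A₃ B₃)
      (fun x y t => ((A₁ - B₁ * x) * ((A₂ - B₂ * y) * (A₃ - B₃ * t))) * (pr E.F X - κ))
      (fun x y t => ((A₁ - B₁ * x) * ((A₂ - B₂ * y) * (A₃ - B₃ * t))) * (pr E.G Y - E.om * υ))
      (q * p) (β₁ * (β₂ * β₃) * a) (β₁ * (β₂ * β₃) * b) := by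
  have e0 : (fun x y t : ℝ => ((A₁ - B₁ * x) * ((A₂ - B₂ * y) * (A₃ - B₃ * t))) * (pr E.F X - κ)) =
      fun x y t => ev (fun m => (tc A₁ B₁ A₂ B₂ A₃ B₃ m : ℝ)) x y t * (pr E.F X - κ) := by
    funext x y t
    rw [ev_tcR]
  have e1 : (fun x y t : ℝ => ((A₁ - B₁ * x) * ((A₂ - B₂ * y) * (A₃ - B₃ * t))) * (pr E.G Y - E.om * υ)) =
      fun x y t => ev (fun m => (tc A₁ B₁ A₂ B₂ A₃ B₃ m : ℝ)) x y t * (pr E.G Y - E.om * υ) := by
    funext x y t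
    rw [ev_tcR]
  rw [e0, e1]
  obtain ⟨w, hw⟩ : ∃ w : ℕ → ℕ, w = fun m => match m with
    | 0 => A₁ * (A₂ * A₃)
    | 1 => B₁ * (A₂ * A₃)
    | 2 => A₁ * (B₂ * A₃)
    | 3 => B₁ * (B₂ * A₃)
    | 4 => A₁ * (A₂ * B₃)
    | 5 => B₁ * (A₂ * B₃)
    | 6 => A₁ * (B₂ * B₃)
    | 7 => B₁ * (B₂ * B₃)
    | _ => 0 := ⟨_, rfl⟩
  have hwq : ∀ m, w m ≤ q := by
    intro m
    refine le_trans ?_ hq
    rw [hw]
    rcases m with _ | _ | _ | _ | _ | _ | _ | _ | m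
    · exact Nat.mul_le_mul (by omega) (Nat.mul_le_mul (by omega) (by omega))
    · exact Nat.mul_le_mul (by omega) (Nat.mul_le_mul (by omega) (by omega))
    · exact Nat.mul_le_mul (by omega) (Nat.mul_le_mul (by omega) (by omega))
    · exact Nat.mul_le_mul (by omega) (Nat.mul_le_mul (by omega) (by omega))
    · exact Nat.mul_le_mul (by omega) (Nat.mul_le_mul (by omega) (by omega))
    · exact Nat.mul_le_mul (by omega) (Nat.mul_le_mul (by omega) (by omega))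
    · exact Nat.mul_le_mul (by omega) (Nat.mul_le_mul (by omega) (by omega))
    · exact Nat.mul_le_mul (by omega) (Nat.mul_le_mul (by omega) (by omega))
    · exact Nat.zero_le _
  have pos : ∀ (v : ℕ) (c : ℤ), c = v → v ≤ q →
      Pk (v * P) (fun i j => c * X i j) (c * κ) (fun i j => c * Y i j) (c * υ) (q * p) := by
    intro v c hc hv
    rw [hc]
    exact pk_mono (Nat.mul_le_mul_right _ hv) (pk_smul v hP)
  have neg : ∀ (v : ℕ) (c : ℤ), c = -(v : ℤ) → v ≤ q →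
      Pk (v * Q) (fun i j => c * X i j) (c * κ) (fun i j => c * Y i j) (c * υ) (q * p) := by
    intro v c hc hv
    rw [hc]
    have := pk_mono (Nat.mul_le_mul_right p hv) (pk_smul v hQ)
    simp only [mul_neg] at this
    simp only [neg_mul]
    exact this
  refine pv_poly E (tc A₁ B₁ A₂ B₂ A₃ B₃) (fun m => match m with
    | 0 => w 0 * P
    | 1 => w 1 * Q
    | 2 => w 2 * Q
    | 3 => w 3 * P
    | 4 => w 4 * Q
    | 5 => w 5 * P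
    | 6 => w 6 * P
    | _ => w 7 * Q) ?_ ?_ hX hκ hY hυ ?_
  · unfold tri
    simp only [sh_eq]
    simp only [Finset.sum_range_succ, Finset.sum_range_zero, hw]
    simp only [Nat.add_eq, Nat.mul_eq]
    ring
  · intro m hm
    have hw' := hwq
    rw [hw] at hw'
    rw [hw]
    interval_cases m
    · exact pos _ _ (by simp only [tc]; push_cast; ring) (hw' 0)
    · exact neg _ _ (by simp only [tc]; push_cast; ring) (hw' 1)
    · exact neg _ _ (by simp only [tc]; push_cast; ring) (hw' 2)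
    · exact pos _ _ (by simp only [tc]; push_cast; ring) (hw' 3)
    · exact neg _ _ (by simp only [tc]; push_cast; ring) (hw' 4)
    · exact pos _ _ (by simp only [tc]; push_cast; ring) (hw' 5)
    · exact pos _ _ (by simp only [tc]; push_cast; ring) (hw' 6)
    · exact neg _ _ (by simp only [tc]; push_cast; ring) (hw' 7)
  · intro x₁ x₂ x₃ hx hy ht
    rw [ev_tc, abs_mul, abs_mul]
    push_cast
    have a1 := fac_bd hx h1.1 h1.2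
    have a2 := fac_bd hy h2.1 h2.2
    have a3 := fac_bd ht h3.1 h3.2
    exact mul_le_mul a1 (mul_le_mul a2 a3 (abs_nonneg _) (by positivity)) (by positivity) (by positivity)

/-- the weight -/
def oneD (n : Nat) : Nat := Nat.add n (p2 286720)

theorem sum_blocks (f : ℕ → ℕ) (e : ℕ → ℕ → ℕ) (Y n : ℕ) (h : ∀ m < n, ∀ j < 14, f (14 * m + j) = e m j) :
    ∑ i ∈ range (14 * n), f i * Y ^ i = ∑ m ∈ range n, Y ^ (14 * m) * ∑ j ∈ range 14, e m j * Y ^ j := by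
  induction n with
  | zero => simp
  | succ n ih =>
    rw [Finset.sum_range_succ, ← ih fun m hm => h m (by omega), show 14 * (n + 1) = 14 * n + 14 by ring,
      Finset.sum_range_add, Finset.mul_sum]
    congr 1
    refine Finset.sum_congr rfl fun j hj => ?_
    rw [h n (by omega) j (Finset.mem_range.1 hj), pow_add]
    ring

theorem sum_blocks8 (f : ℕ → ℕ) (e : ℕ → ℕ → ℕ) (Y : ℕ) (h : ∀ m < 8, ∀ j < 14, f (14 * m + j) = e m j)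
    (P : ℕ → ℕ) (hP : ∀ m < 8, P m = ∑ j ∈ range 14, e m j * Y ^ j) (hf : f 112 = 1) :
    ∑ m ∈ range 8, Y ^ (14 * m) * P m + Y ^ 112 = ∑ i ∈ range 113, f i * Y ^ i := by
  have h1 := sum_blocks f e Y 8 h
  have h2 : (112 : ℕ) = 14 * 8 := by norm_num
  rw [Finset.sum_range_succ (fun i => f i * Y ^ i) 112, hf, one_mul]
  have h3 : ∑ m ∈ range 8, Y ^ (14 * m) * P m = ∑ m ∈ range 8, Y ^ (14 * m) * ∑ j ∈ range 14, e m j * Y ^ j :=
    Finset.sum_congr rfl fun m hm => by rw [hP m (Finset.mem_range.1 hm)]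
  rw [show ∑ i ∈ range 112, f i * Y ^ i = ∑ i ∈ range (14 * 8), f i * Y ^ i by rw [← h2], h1, h3]

/-- **from pieces to a representation** -/
theorem PD.rp {N : ℕ} {C : ℕ → IM} {k : ℕ → ℤ} {M : ℕ → IM} {u : ℕ → ℤ} {p : ℕ} (h : PD N C k M u p)
    (hp : p ≤ 2 ^ 60)
    (hb : ∀ x₁ x₂ x₃ : ℕ, x₁ ≤ 256 → x₂ ≤ 256 → x₃ ≤ 256 →
      (∀ i j, |evI C x₁ x₂ x₃ i j| ≤ 2 ^ 36) ∧ |ev k x₁ x₂ x₃| ≤ 2 ^ 38 ∧
      (∀ i j, |evI M x₁ x₂ x₃ i j| ≤ 2 ^ 30) ∧ |ev u x₁ x₂ x₃| ≤ 2 ^ 36) :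
    RP (oneD N) 1 C k M u := by
  obtain ⟨P, h1, h2⟩ := h
  choose! e he using h2
  have e1 : oneD N = N + YY ^ 112 := by
    show N + p2 (2560 * 112) = _
    rw [p2_YY]
  obtain ⟨f, hf⟩ : ∃ f : ℕ → ℕ, f = fun i => if i < 112 then e (i / 14) (i % 14) else 1 := ⟨_, rfl⟩
  have hf0 : ∀ m < 8, ∀ j < 14, f (14 * m + j) = e m j := by
    intro m hm j hj
    rw [hf]
    simp only
    rw [if_pos (by omega), show (14 * m + j) / 14 = m by omega, show (14 * m + j) % 14 = j by omega]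
  constructor
  · refine ⟨f, ?_, ?_, by rw [hf]; simp, ?_⟩
    · have a1 : f 112 = 1 := by rw [hf]; simp
      rw [e1, h1]
      exact sum_blocks8 f e YY hf0 P (fun m hm => (he m hm).1) a1
    · intro i hi
      rw [one_mul, hf]
      simp only [hi, if_true]
      exact ((he _ (by omega)).2.1 _ (by omega)).trans (Nat.mul_le_mul_right _ hp)
    · intro m hm
      obtain ⟨-, -, h3, h4⟩ := he m hm
      constructor
      · refine seven_shift h3 fun j hj => hf0 m hm j (by omega)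
      · constructor
        · intro i
          rw [show 14 * m + 7 + (i : ℕ) = 14 * m + (7 + i) by omega, hf0 m hm _ (by omega)]
          exact h4.x i
        · intro i
          rw [show 14 * m + 7 + 3 + (i : ℕ) = 14 * m + (7 + 3 + i) by omega, hf0 m hm _ (by omega)]
          exact h4.y i
        · rw [show 14 * m + 7 + 6 = 14 * m + (7 + 6) by omega, hf0 m hm _ (by omega)]
          exact h4.k
  · intro x₁ x₂ x₃ hx hy ht i j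
    simpa using (hb x₁ x₂ x₃ hx hy ht).1 i j
  · intro x₁ x₂ x₃ hx hy ht i j
    simpa using (hb x₁ x₂ x₃ hx hy ht).2.2.1 i j
  · intro x₁ x₂ x₃ hx hy ht
    simpa using (hb x₁ x₂ x₃ hx hy ht).2.1
  · intro x₁ x₂ x₃ hx hy ht
    simpa using (hb x₁ x₂ x₃ hx hy ht).2.2.2

/-- **from pieces to a fact** -/
theorem Pv.fact {E : RD} {N : ℕ} {w w' : ℝ → ℝ → ℝ → ℝ} {p a b : ℕ} (h : Pv E N w w' p a b)
    (hp : p ≤ 2 ^ 60) (ha : a ≤ 2 ^ 36) (hb : b ≤ 2 ^ 30)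
    (h1 : 0 ≤ w (256 * E.c 0) (256 * E.c 1) (256 * E.c 2))
    (h2 : 0 ≤ w' (256 * E.c 0) (256 * E.c 1) (256 * E.c 2)) : IsD E (oneD N) := by
  obtain ⟨C, k, M, u, g1, g2, g3, g4⟩ := h.ex
  refine ⟨C, k, M, u, g1.rp hp ?_, ?_, ?_⟩
  · intro x₁ x₂ x₃ hx hy ht
    obtain ⟨a1, a2, a3, a4⟩ := g2 x₁ x₂ x₃ hx hy ht
    have ha' : (a : ℤ) ≤ 2 ^ 36 := by exact_mod_cast ha
    have hb' : (b : ℤ) ≤ 2 ^ 30 := by exact_mod_cast hb
    refine ⟨fun i j => (a1 i j).trans ha', a2.trans (ha'.trans (by norm_num)), fun i j => (a3 i j).trans hb',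
      a4.trans (hb'.trans (by norm_num))⟩
  · have := g3 (256 * E.c 0) (256 * E.c 1) (256 * E.c 2)
    linarith
  · have := g4 (256 * E.c 0) (256 * E.c 1) (256 * E.c 2)
    linarith

end Pool.Agent.Helper80.KD
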