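import Mathlib
import Pool.Agent.Helper80.TP.CEng
import Pool.Agent.Helper80.KD.Build
import Pool.Agent.Helper80.TK.Bounds
import Pool.Agent.Helper21.TK.Tab

/-!
# The rules
-/

set_option autoImplicit false

namespace Pool.Agent.Helper80.KD

open Finset
open Pool.Agent.Helper28.TP (Ivl InBox nth)
open Pool.Agent.Helper80.TP (IM RD pr Item force force_eq Vc vc VR vr_vc vI nthK nthK_eq R9)
open Pool.Agent.Helper80.TK (pm toM kC kM Pk VP yv sel hlF sAF sBF hhF deadF)
open Pool.Agent.Helper21.TK (mt)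

/-- the digits of a code of a lattice vector -/
def g0 (n : Nat) : Nat := Nat.mod n 16
def g1 (n : Nat) : Nat := Nat.mod (Nat.shiftRight n 4) 16
def g2 (n : Nat) : Nat := Nat.mod (Nat.shiftRight n 8) 16

/-- the lattice vector of a code -/
def pt (n : ℕ) : Fin 3 → ℤ := vI (g0 n) (g1 n) (g2 n) 8 8 8

/-- the meaning of a tag -/
def TagOK (W : ℝ) (G : Matrix (Fin 3) (Fin 3) ℝ) (cls : Fin 3 → Bool) (d : Fin 3 → ℝ)
    (lab : (Fin 3 → ℤ) → Fin 5) (n : ℕ) : Prop :=
  (n % 2 = 0 → ((lab (pt (n / 16)) : Fin 5) : ℕ) = n / 2 % 8) ∧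
  (n % 2 = 1 → ∃ i j a b : Fin 4, VP W cls d (fun w => yv G w (pt (n / 512))) i j a b ∧
    mt (n / 2 % 16) i a ∧ mt (n / 32 % 16) j b)

/-- the packed difference of two points -/
def vd (z y : Nat) : Vc := vc (g0 z) (g1 z) (g2 z) (g0 y) (g1 y) (g2 y)

/-- the packed vector of a code -/
def vu (u : Nat) : Vc := vc (g0 u) (g1 u) (g2 u) 8 8 8

/-! ### reading the stack -/

section

variable {α : Type}

/-- the tag at a place -/
noncomputable def tg (env : List Item) (i : Nat) (k : Nat → α) (d : α) : α :=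
  nthK env i (fun a => @Item.rec (fun _ => α) (fun _ => d) (fun n => force n k) a) d

/-- the point of a label tag with the label `L` -/
noncomputable def lt (env : List Item) (i L : Nat) (k : Nat → α) (d : α) : α :=
  tg env i (fun n => @Bool.rec (fun _ => α) d (force (Nat.shiftRight n 4) k)
    (Nat.beq (Nat.mod n 16) (Nat.mul 2 L))) d

theorem tg_cases (env : List Item) (i : ℕ) (k : ℕ → α) (d : α) :
    tg env i k d = d ∨ ∃ n, Item.t n ∈ env ∧ tg env i k d = k n := by
  unfold tg
  rw [nthK_eq]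
  cases h : nth env i with
  | none => exact Or.inl rfl
  | some a =>
    have ha := Pool.Agent.Helper28.TP.nth_mem _ _ _ h
    cases a with
    | f n => exact Or.inl rfl
    | t n => exact Or.inr ⟨n, ha, rfl⟩

theorem lt_cases (env : List Item) (i L : ℕ) (k : ℕ → α) (d : α) :
    lt env i L k d = d ∨ ∃ n, Item.t n ∈ env ∧ n % 16 = 2 * L ∧ lt env i L k d = k (n / 16) := by
  unfold lt
  rcases tg_cases env i (fun n => @Bool.rec (fun _ => α) d (force (Nat.shiftRight n 4) k)
    (Nat.beq (Nat.mod n 16) (Nat.mul 2 L))) d with h | ⟨n, hn, h⟩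
  · exact Or.inl h
  · rw [h]
    cases hb : Nat.beq (Nat.mod n 16) (Nat.mul 2 L) with
    | false => exact Or.inl rfl
    | true =>
      refine Or.inr ⟨n, hn, Nat.eq_of_beq_eq_true hb, ?_⟩
      show k (Nat.shiftRight n 4) = _
      congr 1
      exact Nat.shiftRight_eq_div_pow n 4

end

abbrev R := Option (List (List Item))

/-- one new fact -/
noncomputable def oneF (N : Nat) : R := force N fun N => some [[Item.f N]]

/-- `g_i v^T` and its negative -/
noncomputable def gp (i : Nat) (v : Vc) : Nat :=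
  @Nat.rec (fun _ => Nat) (pm v 1 0 0 0 1 1)
    (fun i _ => @Nat.rec (fun _ => Nat) (pm v 0 1 0 1 0 1) (fun _ _ => pm v 0 0 1 1 1 0) i) i

noncomputable def gq (i : Nat) (v : Vc) : Nat :=
  @Nat.rec (fun _ => Nat) (pm v 0 1 1 1 0 0)
    (fun i _ => @Nat.rec (fun _ => Nat) (pm v 1 0 1 0 1 0) (fun _ _ => pm v 1 1 0 0 0 1) i) i

/-- the piece of the facet `i` with the points `z`, `y` -/
noncomputable def fct (i z y : Nat) (f : Nat → Nat → Nat) : Nat :=
  force (vd z y).U fun U => force (vd z y).N fun N => force (gp i ⟨U, N⟩) fun P =>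
    force (gq i ⟨U, N⟩) fun Q => f P Q

theorem fct_eq (i z y : ℕ) (f : ℕ → ℕ → ℕ) : fct i z y f = f (gp i (vd z y)) (gq i (vd z y)) := by
  unfold fct
  generalize vd z y = v
  obtain ⟨U, N⟩ := v
  generalize hP : gp i ⟨U, N⟩ = P
  generalize hQ : gq i ⟨U, N⟩ = Q
  rw [force_eq, force_eq, hP, hQ, force_eq, force_eq]

/-! ### the chain with `C` -/

/-- the factors of the coefficient -/
noncomputable def fA (b : Bool) (i k r : Nat) : Nat :=
  sel (Nat.beq r i) (sel b 4096 1048576) (sel b 256 (sel (Nat.beq r k) 1 256))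
noncomputable def fB (b : Bool) (i k r : Nat) : Nat :=
  sel (Nat.beq r i) (sel b 0 4096) (sel b 1 (sel (Nat.beq r k) 0 1))

/-- the factors of the second term -/
noncomputable def sA (i k r : Nat) : Nat := sel (Nat.beq r i) 4096 (sel (Nat.beq r k) 0 256)
noncomputable def sB (i r : Nat) : Nat := sel (Nat.beq r i) 0 1

/-- the part of the facet `i` -/
noncomputable def facC (b : Bool) (i k P Q : Nat) : Nat :=
  Nat.add (tri P Q (fA b i k 0) (fB b i k 0) (fA b i k 1) (fB b i k 1) (fA b i k 2) (fB b i k 2))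
    (@Bool.rec (fun _ => Nat) (tri P Q (sA i k 0) (sB i 0) (sA i k 1) (sB i 1) (sA i k 2) (sB i 2)) 0 b)

/-- the three parts -/
noncomputable def chC (b1 b2 b3 : Bool) (k z1 z2 z3 y : Nat) : Nat :=
  Nat.add (fct 0 z1 y (facC b1 0 k)) (Nat.add (fct 1 z2 y (facC b2 1 k)) (fct 2 z3 y (facC b3 2 k)))

/-- the right side `16 y₁ y₂ y₃` -/
noncomputable def kap (A₁ B₁ A₂ B₂ A₃ B₃ : Nat) : Nat := tri (kC 1) (kC (Nat.sub R9 1)) A₁ B₁ A₂ B₂ A₃ B₃

/-- the class of the facet `k` -/
noncomputable def bsel (b1 b2 b3 : Bool) (k : Nat) : Bool :=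
  @Nat.rec (fun _ => Bool) b1 (fun k _ => @Nat.rec (fun _ => Bool) b2
    (fun k _ => @Nat.rec (fun _ => Bool) b3 (fun _ _ => false) k) k) k

noncomputable def chainC (b1 b2 b3 : Bool) (env : List Item) (x : Nat) : R :=
  force (Nat.shiftRight x 32) fun k => @Bool.rec (fun _ => R) none
    (lt env (Nat.mod x 256) 1 (fun z1 => lt env (Nat.mod (Nat.shiftRight x 8) 256) 2 (fun z2 =>
      lt env (Nat.mod (Nat.shiftRight x 16) 256) 3 (fun z3 =>
        lt env (Nat.mod (Nat.shiftRight x 24) 256) 0 (fun y =>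
          oneF (oneD (Nat.add (chC b1 b2 b3 k z1 z2 z3 y) (kap 4096 16 256 1 256 1))))
        none) none) none) none)
    (bsel b1 b2 b3 k)

/-! ### the chain with `D` -/

/-- the test of a line -/
noncomputable def lnT (b : Bool) (hh L : Nat) : Bool :=
  @Bool.rec (fun _ => Bool) true
    (force (Nat.mod L 16384) fun a => force (Nat.mod (Nat.shiftRight L 14) 64) fun m =>
      force (Nat.sub (Nat.add 268435456 (Nat.mul (Nat.mul 256 hh) m)) (Nat.mul hh a)) fun x =>
        @Bool.rec (fun _ => Bool)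
          (@Bool.rec (fun _ => Bool) false (Nat.ble (Nat.mul m hh) (Nat.mul 16 (Nat.sub 65536 hh)))
            (Nat.ble 4096 a))
          true
          (Nat.ble (Nat.mul x x) (Nat.mul (Nat.mul 4194304 m) (Nat.mul (Nat.sub 65536 hh) hh)))) b

/-- the parts of the facets; `a`, `m` the line -/
noncomputable def facD0 (b1 b2 b3 : Bool) (a m P Q : Nat) : Nat :=
  tri P Q (sel b1 a 4096) (sel b1 m 0) 256 (sel b2 0 1) 256 (sel b3 0 1)
noncomputable def facD1 (b1 b2 b3 : Bool) (a m P Q : Nat) : Nat :=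
  tri P Q 256 (sel b1 0 1) (sel b2 a 4096) (sel b2 m 0) 256 (sel b3 0 1)
noncomputable def facD2 (b1 b2 b3 : Bool) (a m P Q : Nat) : Nat :=
  tri P Q 256 (sel b1 0 1) 256 (sel b2 0 1) (sel b3 a 4096) (sel b3 m 0)

/-- the numbers of a line -/
noncomputable def ln (L : Nat) (f : Nat → Nat → Nat) : Nat :=
  force (Nat.mod L 16384) fun a => force (Nat.mod (Nat.shiftRight L 14) 64) fun m => f a m

noncomputable def chD (b1 b2 b3 : Bool) (L1 L2 L3 z1 z2 z3 y : Nat) : Nat :=
  Nat.add (Nat.add (fct 0 z1 y fun P Q => ln L1 fun a m => facD0 b1 b2 b3 a m P Q)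
      (Nat.add (fct 1 z2 y fun P Q => ln L2 fun a m => facD1 b1 b2 b3 a m P Q)
        (fct 2 z3 y fun P Q => ln L3 fun a m => facD2 b1 b2 b3 a m P Q)))
    (kap 4096 (sel b1 0 16) 256 (sel b2 0 1) 256 (sel b3 0 1))

/-- both -/
noncomputable def an (a b : Bool) : Bool := @Bool.rec (fun _ => Bool) false b a

noncomputable def chainD (b1 b2 b3 : Bool) (hh : Nat) (env : List Item) (x : Nat) : R :=
  force (Nat.mod (Nat.shiftRight x 32) 1048576) fun L1 =>
  force (Nat.mod (Nat.shiftRight x 52) 1048576) fun L2 =>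
  force (Nat.mod (Nat.shiftRight x 72) 1048576) fun L3 => @Bool.rec (fun _ => R) none
    (lt env (Nat.mod x 256) 1 (fun z1 => lt env (Nat.mod (Nat.shiftRight x 8) 256) 2 (fun z2 =>
      lt env (Nat.mod (Nat.shiftRight x 16) 256) 3 (fun z3 =>
        lt env (Nat.mod (Nat.shiftRight x 24) 256) 4 (fun y =>
          oneF (oneD (chD b1 b2 b3 L1 L2 L3 z1 z2 z3 y)))
        none) none) none) none)
    (an (Nat.ble 1 hh) (an (lnT b1 hh L1) (an (lnT b2 hh L2) (lnT b3 hh L3))))

/-! ### rows -/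

noncomputable def rw3 (i z y : Nat) : Nat := fct i z y fun P Q => tri P Q 268435456 0 1 0 1 0

noncomputable def rowF (i : Nat) (env : List Item) (z x : Nat) : R :=
  lt env x 0 (fun y => oneF (oneD (rw3 i z y))) (lt env x 4 (fun y => oneF (oneD (rw3 i z y))) none)

noncomputable def rowsF (env : List Item) (x : Nat) : R :=
  lt env (Nat.mod x 256) 1 (fun z => rowF 0 env z (Nat.mod (Nat.shiftRight x 8) 256))
    (lt env (Nat.mod x 256) 2 (fun z => rowF 1 env z (Nat.mod (Nat.shiftRight x 8) 256))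
      (lt env (Nat.mod x 256) 3 (fun z => rowF 2 env z (Nat.mod (Nat.shiftRight x 8) 256)) none))

/-! ### the priority row -/

/-- the slope, `0` if there is none -/
noncomputable def slp (hh : Nat) : Nat :=
  sel (Nat.ble hh 49152) (Nat.add (Nat.div 1048576 (Nat.sub 65536 hh)) 1) 0

/-- the part of the facet `i` with the label `D`; `m` the slope -/
noncomputable def facX (b : Bool) (i m P Q : Nat) : Nat :=
  @Bool.rec (fun _ => Nat)
    (@Nat.rec (fun _ => Nat) 0 (fun _ _ =>
      tri Q P (sel (Nat.beq 0 i) 4096 256) (sel (Nat.beq 0 i) m 1) (sel (Nat.beq 1 i) 4096 256)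
        (sel (Nat.beq 1 i) m 1) (sel (Nat.beq 2 i) 4096 256) (sel (Nat.beq 2 i) m 1)) m)
    (tri Q P (sel (Nat.beq 0 i) 4096 256) (sel (Nat.beq 0 i) 0 1) (sel (Nat.beq 1 i) 4096 256)
      (sel (Nat.beq 1 i) 0 1) (sel (Nat.beq 2 i) 4096 256) (sel (Nat.beq 2 i) 0 1)) b

noncomputable def chX (b1 b2 b3 : Bool) (m z1 z2 z3 y : Nat) : Nat :=
  Nat.add (fct 0 z1 y (facX b1 0 m)) (Nat.add (fct 1 z2 y (facX b2 1 m)) (fct 2 z3 y (facX b3 2 m)))

noncomputable def chainX (b1 b2 b3 : Bool) (hh : Nat) (env : List Item) (x : Nat) : R :=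
  force (Nat.shiftRight x 40) fun k => force (slp hh) fun m => @Bool.rec (fun _ => R) none
    (lt env (Nat.mod x 256) 1 (fun z1 => lt env (Nat.mod (Nat.shiftRight x 8) 256) 2 (fun z2 =>
      lt env (Nat.mod (Nat.shiftRight x 16) 256) 3 (fun z3 =>
        lt env (Nat.mod (Nat.shiftRight x 24) 256) 0 (fun y =>
          lt env (Nat.mod (Nat.shiftRight x 32) 256) 4 (fun y' =>
            oneF (oneD (Nat.add (chC b1 b2 b3 k z1 z2 z3 y) (chX b1 b2 b3 m z1 z2 z3 y'))))
        none) none) none) none) none)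
    (bsel b1 b2 b3 k)

/-! ### the width -/

/-- `1` if `i` is `0` or `w` -/
noncomputable def ind (i w : Nat) : Nat :=
  @Nat.rec (fun _ => Nat) 1 (fun _ _ => @Bool.rec (fun _ => Nat) 0 1 (Nat.beq i w)) i

/-- the monomial of `i` -/
noncomputable def mn3 (i : Nat) : Nat :=
  @Nat.rec (fun _ => Nat) 0 (fun i _ => @Nat.rec (fun _ => Nat) 1
    (fun i _ => @Nat.rec (fun _ => Nat) 2 (fun _ _ => 4) i) i) i

/-- the matrix `(e_i - e_j) v^T` with the weight `w` -/
noncomputable def dff (v : Vc) (w i j : Nat) : Nat :=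
  toM (pm v (Nat.mul w (ind i 1)) (Nat.mul w (ind i 2)) (Nat.mul w (ind i 3))
    (Nat.mul w (ind j 1)) (Nat.mul w (ind j 2)) (Nat.mul w (ind j 3)))

/-- the part with the parameter `i` -/
noncomputable def wS (v : Vc) (i p q : Nat) : Nat := sh (dff v 1 p q) (mn3 i)

/-- the fact of the vertices `(i, t)`, `(j, t')` -/
noncomputable def wN (v : Vc) (i t j t' : Nat) : Nat :=
  Nat.add (Nat.add (dff v 256 i j) (kM 256))
    (Nat.add (@Bool.rec (fun _ => Nat) (wS v i t i) 0 (Nat.beq t i))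
      (@Bool.rec (fun _ => Nat) (wS v j j t') 0 (Nat.beq t' j)))

/-- the fact of a code -/
noncomputable def wC (v : Vc) (c : Nat) : Nat :=
  oneD (wN v (Nat.mod c 4) (Nat.mod (Nat.shiftRight c 2) 4) (Nat.mod (Nat.shiftRight c 4) 4)
    (Nat.shiftRight c 6))

/-- no part of the code is `4` -/
noncomputable def full (c : Nat) : Bool :=
  @Bool.rec (fun _ => Bool) (@Bool.rec (fun _ => Bool) true false (Nat.beq (Nat.shiftRight c 4) 4)) false
    (Nat.beq (Nat.mod c 16) 4)

/-- the items of a child -/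
noncomputable def kid (v : Vc) (u c : Nat) (r : List (List Item)) : List (List Item) :=
  force (Nat.succ (Nat.mul 2 (Nat.add c (Nat.mul 256 u)))) fun t =>
    @Bool.rec (fun _ => List (List Item)) ([Item.t t] :: r)
      (force (wC v c) fun N => [Item.f N, Item.t t] :: r) (full c)

/-- the children of the list `l` which pass the test `ok` -/
noncomputable def kids (ok : Nat → Bool) (v : Vc) (u : Nat) (l : List Nat) : List (List Item) :=
  @List.rec Nat (fun _ => List (List Item)) []
    (fun c _ ih => @Bool.rec (fun _ => List (List Item)) ih (kid v u c ih) (ok c)) l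

/-- compatible sets -/
noncomputable def okE (e f : Nat) : Bool :=
  @Bool.rec (fun _ => Bool)
    (@Bool.rec (fun _ => Bool)
      (@Bool.rec (fun _ => Bool) false
        (@Bool.rec (fun _ => Bool)
          (@Bool.rec (fun _ => Bool) (Nat.beq (Nat.shiftRight e 2) (Nat.shiftRight f 2)) true
            (Nat.beq (Nat.shiftRight f 2) (Nat.mod e 4)))
          true (Nat.beq (Nat.shiftRight e 2) (Nat.mod e 4)))
        (Nat.beq (Nat.mod e 4) (Nat.mod f 4)))
      true (Nat.beq f 4))
    true (Nat.beq e 4)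

/-- the branching on the width of `u` -/
noncomputable def wF (tab : List (List Nat)) (x : Nat) : R :=
  nthK tab (Nat.shiftRight x 12) (fun l => force (Nat.mod x 4096) fun u =>
    @Bool.rec (fun _ => R) (force (vu u).U fun U => force (vu u).N fun N =>
      some (kids (fun _ => true) ⟨U, N⟩ u l)) none (Nat.beq u 2184)) none

/-- refine a tag -/
noncomputable def vF (tab : List (List Nat)) (env : List Item) (x : Nat) : R :=
  tg env (Nat.mod x 256) (fun n =>
    @Bool.rec (fun _ => R) none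
      (nthK tab (Nat.shiftRight x 8) (fun l => force (Nat.shiftRight n 9) fun u =>
        force (Nat.mod (Nat.shiftRight n 1) 16) fun e => force (Nat.mod (Nat.shiftRight n 5) 16) fun f =>
        force (vu u).U fun U => force (vu u).N fun N =>
        some (kids (fun c => @Bool.rec (fun _ => Bool) false (okE f (Nat.shiftRight c 4))
          (okE e (Nat.mod c 16))) ⟨U, N⟩ u l)) none)
      (Nat.beq (Nat.mod n 2) 1)) none

/-- a new point -/
noncomputable def zF (x : Nat) : R := force (Nat.mul 16 x) fun x =>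
  some [[Item.t x], [Item.t (Nat.add x 2)], [Item.t (Nat.add x 4)], [Item.t (Nat.add x 6)],
    [Item.t (Nat.add x 8)]]

/-- the rule after the box -/
noncomputable def rule1 (b1 b2 b3 : Bool) (tab : List (List Nat)) (env : List Item)
    (op x l1 h1 l2 h2 l3 h3 l4 h4 : Nat) : R :=
  force (hlF b1 b2 b3 l1 l2 l3 l4) fun hl => force (sBF b1 b2 b3 l1 l2 l3) fun sB =>
  force (hhF (sAF b1 b2 b3 h1 h2 h3) sB h4) fun hh =>
  @Nat.rec (fun _ => R) (chainC b1 b2 b3 env x)
    (fun op _ => @Nat.rec (fun _ => R) (chainD b1 b2 b3 hh env x)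
    (fun op _ => @Nat.rec (fun _ => R) (rowsF env x)
    (fun op _ => @Nat.rec (fun _ => R) (chainX b1 b2 b3 hh env x)
    (fun op _ => @Nat.rec (fun _ => R) none
    (fun op _ => @Nat.rec (fun _ => R) (wF tab x)
    (fun op _ => @Nat.rec (fun _ => R) (zF x)
    (fun op _ => @Nat.rec (fun _ => R) (@Bool.rec (fun _ => R) none (some []) (deadF hl hh sB))
    (fun _ _ => vF tab env x)
    op) op) op) op) op) op) op) op

/-- the four intervals of the box -/
noncomputable def box4 {α : Type} (box : List Ivl) (d : α)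
    (k : Nat → Nat → Nat → Nat → Nat → Nat → Nat → Nat → α) : α :=
  nthK box 0 (fun b1 => nthK box 1 (fun b2 => nthK box 2 (fun b3 => nthK box 3 (fun b4 =>
    k b1.lo b1.hi b2.lo b2.hi b3.lo b3.hi b4.lo b4.hi) d) d) d) d

/-- the rule -/
noncomputable def ruleK (b1 b2 b3 : Bool) (tab : List (List Nat)) (env : List Item) (box : List Ivl)
    (r : Nat) : R :=
  box4 box none fun l1 h1 l2 h2 l3 h3 l4 h4 =>
    rule1 b1 b2 b3 tab env (Nat.mod r 16) (Nat.shiftRight r 4) l1 h1 l2 h2 l3 h3 l4 h4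

end Pool.Agent.Helper80.KD
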