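import Mathlib
import Pool.Agent.Helper82.FL.RawJ
import Pool.Agent.Helper80.KD.Rule

/-!
# The leaf: weighted sum of the facts, then the tests at the corners of the box

Token `r`: 4 bits the number `n` of the scales, 1 bit own metrics, 2 bits kind, 3 bits the parameters
with both ends, then the header; from the bit `146 + 16 n` the own metrics of the corners `1, 2, ..`
(128 bits each), then the stream of the weights.
-/

set_option autoImplicit false

namespace Pool.Agent.Helper80.KD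

open Pool.Agent.Helper28.TP (Ivl InBox nth)
open Pool.Agent.Helper80.TP (Item force force_eq Vc nthK nthK_eq R9 bl dvK comb FL)
open Pool.Agent.Helper80.TK (kM nup)
open Pool.Agent.Helper82.FL (Hd V DC G3 mkHd fleafJ fmrgJ)

/-- `2 ^ 128` -/
def P128 : Nat := 340282366920938463463374607431768211456

/-- evaluate a header -/
noncomputable def frcH (h : Hd) (k : Hd → Bool) : Bool :=
  force h.m fun m => force h.a fun a => force h.b fun b => force h.c fun c => force h.d fun d =>
  force h.e fun e => force h.f fun f => force h.q fun q => force h.rq fun rq => force h.rs fun rs =>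
  force h.K fun K => force h.ts fun ts => k (Hd.mk m a b c d e f q rq rs K ts)

/-- the header of the next corner -/
noncomputable def getH (own : Nat) (sc : Hd) (w : Nat) (L : List DC) (k : Hd → Nat → Bool) : Bool :=
  @Nat.rec (fun _ => Bool) (k sc w)
    (fun _ _ => @List.rec DC (fun _ => Bool) (k sc w)
      (fun _ _ _ => @Option.rec Hd (fun _ => Bool) false
        (fun h => frcH h fun h => force (Nat.shiftRight w 128) fun w => k h w)
        (mkHd (Nat.mul 4 (Nat.mod w P128)))) L) own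

/-- the vertices at a corner are given to the rest -/
abbrev GS := Nat → Nat → Nat → (List G3 → List G3 → Bool) → Bool

/-- one corner -/
noncomputable def mkC (own : Nat) (sc : Hd) (gs : GS) (a x₁ x₂ x₃ : Nat) (L : List DC) (w : Nat)
    (k : List DC → Nat → Bool) : Bool :=
  getH own sc w L fun h w =>
  force (bl a 15360) fun ka => force (bl a 33280) fun mu => dvK ka mu fun D =>
  force (bl a 0) fun x0 => force (bl a 2560) fun x1 => force (bl a 5120) fun x2 =>
  force (bl a 7680) fun y0 => force (bl a 10240) fun y1 => force (bl a 12800) fun y2 =>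
  force (bl a 17920) fun z0 => force (bl a 20480) fun z1 => force (bl a 23040) fun z2 =>
  force (bl a 25600) fun w0 => force (bl a 28160) fun w1 => force (bl a 30720) fun w2 =>
  gs x₁ x₂ x₃ fun ps qs => k (List.cons (DC.mk h x0 x1 x2 y0 y1 y2 ka z0 z1 z2 w0 w1 w2 mu D ps qs) L) w

/-- one parameter: both ends, or one end -/
noncomputable def stepD (g d l h A P : Nat)
    (body : Nat → Nat → List DC → Nat → (List DC → Nat → Bool) → Bool) (L : List DC) (w : Nat)
    (k : List DC → Nat → Bool) : Bool :=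
  @Nat.rec (fun _ => Bool)
    (@Bool.rec (fun _ => Bool)
      (@Bool.rec (fun _ => Bool) false (body l A L w k) (Nat.beq (Nat.add P g) 0))
      (force (Nat.add A (Nat.mul l P)) fun a => body l a L w k) (Nat.beq l h))
    (fun _ _ => force (Nat.add A (Nat.mul l P)) fun a => body l a L w fun L w =>
      force (Nat.add A (Nat.mul h P)) fun a => body h a L w k) d

/-- all corners -/
noncomputable def corns (own : Nat) (sc : Hd) (gs : GS) (g l₁ h₁ l₂ h₂ l₃ h₃ d₁ d₂ d₃ acc w : Nat)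
    (k : List DC → Nat → Bool) : Bool :=
  force (lo3 acc) fun A3 => force (hi3 acc) fun P3 =>
  stepD g d₃ l₃ h₃ A3 P3 (fun x₃ a L w k => force (lo2 a) fun A2 => force (hi2 a) fun P2 =>
    stepD g d₂ l₂ h₂ A2 P2 (fun x₂ a L w k => force (lo1 a) fun A1 => force (hi1 a) fun P1 =>
      stepD g d₁ l₁ h₁ A1 P1 (fun x₁ a L w k => mkC own sc gs a x₁ x₂ x₃ L w k) L w k) L w k) [] w k

/-- the test of the sum -/
noncomputable def condD (own : Nat) (sc : Hd) (gs : GS) (g l₁ h₁ l₂ h₂ l₃ h₃ d₁ d₂ d₃ w : Nat)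
    (fin : List DC → Bool) (acc : Nat) : Bool :=
  @Bool.rec (fun _ => Bool) false
    (corns own sc gs g l₁ h₁ l₂ h₂ l₃ h₃ d₁ d₂ d₃ acc w fun L _ => fin L)
    (an (okD acc) (an (Nat.ble h₁ 256) (an (Nat.ble h₂ 256) (Nat.ble h₃ 256))))

/-- the sum, then `fin` -/
noncomputable def sumD (fin : Nat → Bool) (env : List Item) (w acc : Nat) : Bool :=
  comb (fun acc => force acc fin) env (fun _ _ _ _ => false)
    (Nat.mod w 32) (Nat.mod (Nat.shiftRight w 5) 8192) (Nat.shiftRight w 18) acc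

/-! ### the vertices -/

/-- the row `w` of the vertex `(i, t)` -/
noncomputable def bt (n i t w : Nat) : Nat :=
  Nat.add (Nat.mul (Nat.sub 256 n) (ind i w)) (Nat.mul n (ind t w))

/-- the parameter of `i` -/
noncomputable def tI (x₁ x₂ x₃ i : Nat) : Nat :=
  @Nat.rec (fun _ => Nat) 0 (fun i _ => @Nat.rec (fun _ => Nat) x₁
    (fun i _ => @Nat.rec (fun _ => Nat) x₂ (fun _ _ => x₃) i) i) i

/-- one vertex -/
noncomputable def vt1 (z x₁ x₂ x₃ v : Nat) (k : G3 → Bool) : Bool :=
  force (Nat.mod v 4) fun i => force (Nat.shiftRight v 2) fun a => force (tI x₁ x₂ x₃ i) fun x =>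
  force (Nat.mul z (bt x i a 1)) fun g0 => force (Nat.mul z (bt x i a 2)) fun g1 =>
  force (Nat.mul z (bt x i a 3)) fun g2 => k (G3.mk g0 g1 g2)

/-- a list of vertices -/
noncomputable def vts (z x₁ x₂ x₃ : Nat) (l : List Nat) (k : List G3 → Bool) : Bool :=
  @List.rec Nat (fun _ => (List G3 → Bool) → Bool) (fun k => k [])
    (fun v _ ih k => vt1 z x₁ x₂ x₃ v fun g => ih fun t => k (List.cons g t)) l k

/-- the entries of `u` -/
def um (g : Nat) : Nat := Nat.add g (Nat.sub R9 8)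

/-- the group with the dual code `cu` and the lists `lp`, `lq` -/
noncomputable def grpD (cs : List V) (env : List Item) (own : Nat) (sc : Hd)
    (l₁ h₁ l₂ h₂ l₃ h₃ d₁ d₂ d₃ w₀ cu z w : Nat) (gs : GS) : Bool :=
  force (um (g0 cu)) fun u0 => force (um (g1 cu)) fun u1 => force (um (g2 cu)) fun u2 =>
  force (Nat.mul z (oneD (kM 256))) fun acc =>
  sumD (condD own sc gs 1 l₁ h₁ l₂ h₂ l₃ h₃ d₁ d₂ d₃ w₀ (fmrgJ cs sc u0 u1 u2)) env w acc

/-- all vertices of the width of `cu`, not for `u = 0` -/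
noncomputable def grpW (vtab : List (List Nat)) (cs : List V) (env : List Item) (own : Nat) (sc : Hd)
    (l₁ h₁ l₂ h₂ l₃ h₃ d₁ d₂ d₃ w₀ w : Nat) : Bool :=
  force (Nat.mod w 4096) fun cu => force (Nat.mod (Nat.shiftRight w 12) 8192) fun z =>
  @Bool.rec (fun _ => Bool)
    (nthK vtab 4 (fun l =>
      grpD cs env own sc l₁ h₁ l₂ h₂ l₃ h₃ d₁ d₂ d₃ w₀ cu z (Nat.shiftRight w 25)
        (fun x₁ x₂ x₃ k => vts z x₁ x₂ x₃ l fun ps => k ps ps)) false)
    false (Nat.beq cu 2184)

/-- the vertices of a tag -/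
noncomputable def grpV (vtab : List (List Nat)) (cs : List V) (env : List Item) (own : Nat) (sc : Hd)
    (l₁ h₁ l₂ h₂ l₃ h₃ d₁ d₂ d₃ w₀ w : Nat) : Bool :=
  force (Nat.mod (Nat.shiftRight w 8) 8192) fun z =>
  tg env (Nat.mod w 256) (fun n =>
    @Bool.rec (fun _ => Bool) false
      (force (Nat.shiftRight n 9) fun cu =>
        nthK vtab (Nat.mod (Nat.shiftRight n 1) 16) (fun lp =>
          nthK vtab (Nat.mod (Nat.shiftRight n 5) 16) (fun lq =>
            grpD cs env own sc l₁ h₁ l₂ h₂ l₃ h₃ d₁ d₂ d₃ w₀ cu z (Nat.shiftRight w 21)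
              (fun x₁ x₂ x₃ k => vts z x₁ x₂ x₃ lp fun ps => vts z x₁ x₂ x₃ lq fun qs => k ps qs))
            false) false)
      (Nat.beq (Nat.mod n 2) 1)) false

/-- the leaf after the header -/
noncomputable def leaf3 (vtab : List (List Nat)) (cs : List V) (env : List Item) (own : Nat) (sc : Hd)
    (l₁ h₁ l₂ h₂ l₃ h₃ d₁ d₂ d₃ g w₀ w : Nat) : Bool :=
  @Nat.rec (fun _ => Bool)
    (sumD (condD own sc (fun _ _ _ k => k [] []) 0 l₁ h₁ l₂ h₂ l₃ h₃ d₁ d₂ d₃ w₀ (fleafJ cs sc)) env w 0)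
    (fun g _ => @Nat.rec (fun _ => Bool)
      (grpW vtab cs env own sc l₁ h₁ l₂ h₂ l₃ h₃ d₁ d₂ d₃ w₀ w)
      (fun _ _ => grpV vtab cs env own sc l₁ h₁ l₂ h₂ l₃ h₃ d₁ d₂ d₃ w₀ w) g) g

/-- the number of corners minus one -/
def nco (d₁ d₂ d₃ : Nat) : Nat :=
  Nat.sub (Nat.mul (Nat.succ d₁) (Nat.mul (Nat.succ d₂) (Nat.succ d₃))) 1

/-- the leaf after the parameters with both ends -/
noncomputable def leaf2 (vtab : List (List Nat)) (cs : List V) (env : List Item) (own : Nat) (sc : Hd)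
    (l₁ h₁ l₂ h₂ l₃ h₃ d₁ d₂ d₃ g w₀ : Nat) : Bool :=
  force (@Nat.rec (fun _ => Nat) w₀ (fun _ _ => Nat.shiftRight w₀ (Nat.mul 128 (nco d₁ d₂ d₃))) own)
    fun w => leaf3 vtab cs env own sc l₁ h₁ l₂ h₂ l₃ h₃ d₁ d₂ d₃ g w₀ w

/-- the leaf after the box -/
noncomputable def leaf1 (vtab : List (List Nat)) (cs : List V) (env : List Item)
    (l₁ h₁ l₂ h₂ l₃ h₃ r : Nat) : Bool :=
  @Option.rec Hd (fun _ => Bool) false
    (fun sc => frcH sc fun sc =>
      force (Nat.shiftRight r (Nat.add 146 (Nat.mul 16 (Nat.mod r 16)))) fun w₀ =>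
      force (Nat.mod (Nat.shiftRight r 7) 2) fun d₁ => force (Nat.mod (Nat.shiftRight r 8) 2) fun d₂ =>
      force (Nat.mod (Nat.shiftRight r 9) 2) fun d₃ =>
      leaf2 vtab cs env (Nat.mod (Nat.shiftRight r 4) 2) sc l₁ h₁ l₂ h₂ l₃ h₃ d₁ d₂ d₃
        (Nat.mod (Nat.shiftRight r 5) 4) w₀)
    (mkHd (Nat.shiftRight r 10))

/-- the leaf -/
noncomputable def leafD (vtab : List (List Nat)) (cs : List V) (env : List Item) (box : List Ivl)
    (r : Nat) : Bool :=
  box4 box false fun l₁ h₁ l₂ h₂ l₃ h₃ _ _ =>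
    force (Nat.div l₁ 256) fun l₁ => force (Nat.div l₂ 256) fun l₂ => force (Nat.div l₃ 256) fun l₃ =>
    force (nup h₁) fun h₁ => force (nup h₂) fun h₂ => force (nup h₃) fun h₃ =>
      leaf1 vtab cs env l₁ h₁ l₂ h₂ l₃ h₃ r

end Pool.Agent.Helper80.KD
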