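import Mathlib
import Pool.Agent.Helper28.TP.Eng
import Pool.Agent.Helper80.KD.Leaf

/-!
# The machine
-/

set_option autoImplicit false

namespace Pool.Agent.Helper80.KD

open Pool.Agent.Helper28.TP (Ivl Ops Task)
open Pool.Agent.Helper80.TP (Item eqItem)
open Pool.Agent.Helper82.FL (V midV eqV)

/-- the operations; `b1 b2 b3` is the class of the three facets -/
noncomputable def opsD (b1 b2 b3 : Bool) : Ops V Item where
  eq := eqV
  eqI := eqItem
  mid := midV
  leaf := fun t r => leafD (Pool.Agent.Helper21.TK.vt b1 b2 b3) t.cs t.env t.box r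
  rule := ruleK b1 b2 b3 (Pool.Agent.Helper21.TK.tab b1 b2 b3)

end Pool.Agent.Helper80.KD
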