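import Mathlib
import Pool.Agent.Helper80.KD.Rule
import Pool.Agent.Helper21.TK.Poly

/-!
# The facts are correct
-/

set_option autoImplicit false

namespace Pool.Agent.Helper80.KD

open Finset
open Pool.Agent.Helper28.TP (Ivl InBox nth)
open Pool.Agent.Helper80.TP (IM RD pr Item force force_eq Vc vc VR vr_vc vI nthK nthK_eq R9 R9_pos)
open Pool.Agent.Helper80.TK (pm toM kC kM Pk VP yv sel sel_eq hlF sAF sBF hhF deadF mI pk_pm pk_pmM pk_kC pk_kM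
  KR gz dd cc Adm InB)
open Pool.Agent.Helper21.TK (mt coC coD coX ty th pb pball)

theorem g0_lt (n : ℕ) : g0 n < 16 := Nat.mod_lt _ (by norm_num)
theorem g1_lt (n : ℕ) : g1 n < 16 := Nat.mod_lt _ (by norm_num)
theorem g2_lt (n : ℕ) : g2 n < 16 := Nat.mod_lt _ (by norm_num)

theorem vd_pt (z y : ℕ) : vI (g0 z) (g1 z) (g2 z) (g0 y) (g1 y) (g2 y) = pt z - pt y := by
  funext k
  fin_cases k <;> simp [vI, pt]

theorem vr_vd (z y : ℕ) : VR (vd z y) (pt z - pt y) 90 := by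
  have h := vr_vc (g0 z) (g1 z) (g2 z) (g0 y) (g1 y) (g2 y)
  rw [vd_pt] at h
  obtain ⟨a, b, c, d, h1, h2, h3, h4, h5, h6, h7⟩ := h.ex
  have hle : (g0 z + (g1 z + g2 z) + (g0 y + (g1 y + g2 y))) * R9 ≤ 90 * R9 := by
    refine Nat.mul_le_mul_right _ ?_
    have a1 := g0_lt z
    have a2 := g1_lt z
    have a3 := g2_lt z
    have a4 := g0_lt y
    have a5 := g1_lt y
    have a6 := g2_lt y
    omega
  exact ⟨a, b, c, d, h1, h2, h3.trans hle, h4.trans hle, h5.trans hle, h6.trans hle, h7⟩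

theorem vr_vu (u : ℕ) : VR (vu u) (pt u) 90 := by
  have h := vr_vc (g0 u) (g1 u) (g2 u) 8 8 8
  obtain ⟨a, b, c, d, h1, h2, h3, h4, h5, h6, h7⟩ := h.ex
  have hle : (g0 u + (g1 u + g2 u) + (8 + (8 + 8))) * R9 ≤ 90 * R9 := by
    refine Nat.mul_le_mul_right _ ?_
    have a1 := g0_lt u
    have a2 := g1_lt u
    have a3 := g2_lt u
    omega
  exact ⟨a, b, c, d, h1, h2, h3.trans hle, h4.trans hle, h5.trans hle, h6.trans hle, h7⟩

theorem pt_bd (z : ℕ) (k : Fin 3) : -8 ≤ pt z k ∧ pt z k ≤ 7 := by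
  have a1 := g0_lt z
  have a2 := g1_lt z
  have a3 := g2_lt z
  fin_cases k <;> simp only [pt, vI, Matrix.cons_val_zero, Matrix.cons_val_one, Matrix.cons_val,
    Fin.zero_eta, Fin.mk_one, Fin.reduceFinMk] <;> constructor <;> push_cast <;> omega

theorem ptd_bd (z y : ℕ) (k : Fin 3) : |(pt z - pt y) k| ≤ 15 := by
  have h1 := pt_bd z k
  have h2 := pt_bd y k
  rw [abs_le, Pi.sub_apply]
  constructor <;> omega

theorem pt_bd' (z : ℕ) (k : Fin 3) : |pt z k| ≤ 15 := by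
  have h1 := pt_bd z k
  rw [abs_le]
  constructor <;> omega

/-- the size of a piece -/
theorem mI_bd (a b : Fin 3 → ℕ) (x : Fin 3 → ℤ) (q : ℕ) (hq : ∀ i, a i + b i ≤ q)
    (hx : ∀ k, |x k| ≤ 15) (i j : Fin 3) : |mI a b x i j| ≤ q * 15 := by
  unfold mI
  rw [abs_mul]
  have h1 : |((a i : ℤ) - b i)| ≤ q := by
    have := hq i
    rw [abs_le]
    constructor <;> omega
  exact mul_le_mul h1 (hx j) (abs_nonneg _) (by positivity)

theorem mI_neg (a b : Fin 3 → ℕ) (x : Fin 3 → ℤ) : mI b a x = fun i j => - mI a b x i j := by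
  funext i j
  unfold mI
  ring

theorem pr_mI (F : Matrix (Fin 3) (Fin 3) ℝ) (a b : Fin 3 → ℕ) (x : Fin 3 → ℤ) :
    pr F (mI a b x) = ∑ r : Fin 3, ((a r : ℝ) - b r) * ∑ k : Fin 3, F r k * x k := by
  unfold pr mI
  refine Finset.sum_congr rfl fun r _ => ?_
  rw [Finset.mul_sum]
  refine Finset.sum_congr rfl fun k _ => ?_
  push_cast
  ring

theorem yv_eq (F : Matrix (Fin 3) (Fin 3) ℝ) (i : Fin 4) (x : Fin 3 → ℤ) :
    yv F i x = ∑ r : Fin 3, (gz i r : ℝ) * ∑ k : Fin 3, F r k * x k := by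
  unfold yv
  refine Finset.sum_congr rfl fun r _ => ?_
  rw [Finset.mul_sum]
  exact Finset.sum_congr rfl fun k _ => by ring

theorem pr_zero (G : Matrix (Fin 3) (Fin 3) ℝ) : pr G (fun _ _ => 0) = 0 := by
  simp [pr]

/-! ### pieces of the first part -/

/-- `P` is the packed matrix with the value `v`, `Q` its negative -/
structure PQ (F : Matrix (Fin 3) (Fin 3) ℝ) (P Q : ℕ) (v : ℝ) : Prop where
  ex : ∃ X : IM, Pk P X 0 (fun _ _ => 0) 0 90 ∧ Pk Q (fun i j => - X i j) 0 (fun _ _ => 0) 0 90 ∧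
    (∀ i j, |X i j| ≤ 15) ∧ pr F X = v

theorem PQ.swap {F : Matrix (Fin 3) (Fin 3) ℝ} {P Q : ℕ} {v : ℝ} (h : PQ F P Q v) : PQ F Q P (-v) := by
  obtain ⟨X, h1, h2, h3, h4⟩ := h.ex
  refine ⟨fun i j => - X i j, h2, by simpa using h1, fun i j => by simpa using h3 i j, ?_⟩
  rw [← h4]
  simp [pr]

theorem pq_gp (F : Matrix (Fin 3) (Fin 3) ℝ) (i : Fin 3) {v : Vc} {x : Fin 3 → ℤ} (hv : VR v x 90)
    (hx : ∀ k, |x k| ≤ 15) : PQ F (gp i v) (gq i v) (yv F i.succ x) := by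
  have key : ∀ a b : Fin 3 → ℕ, (∀ i, a i + b i ≤ 1) →
      (∑ r : Fin 3, ((a r : ℝ) - b r) * ∑ k : Fin 3, F r k * x k) = yv F i.succ x →
      PQ F (pm v (a 0) (a 1) (a 2) (b 0) (b 1) (b 2)) (pm v (b 0) (b 1) (b 2) (a 0) (a 1) (a 2))
        (yv F i.succ x) := by
    intro a b hab hval
    have h1 := pk_pm hv a b 1 hab
    have h2 := pk_pm hv b a 1 fun i => by rw [add_comm]; exact hab i
    rw [mI_neg] at h2
    rw [one_mul] at h1 h2
    refine ⟨mI a b x, h1, h2, fun i j => ?_, ?_⟩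
    · have := mI_bd a b x 1 hab hx i j
      simpa using this
    · rw [pr_mI]; exact hval
  fin_cases i
  · exact key ![1, 0, 0] ![0, 1, 1] (by intro i; fin_cases i <;> simp)
      (by rw [yv_eq]; simp [Fin.sum_univ_three, gz])
  · exact key ![0, 1, 0] ![1, 0, 1] (by intro i; fin_cases i <;> simp)
      (by rw [yv_eq]; simp [Fin.sum_univ_three, gz])
  · exact key ![0, 0, 1] ![1, 1, 0] (by intro i; fin_cases i <;> simp)
      (by rw [yv_eq]; simp [Fin.sum_univ_three, gz])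

theorem Pv.congr {E : RD} {N : ℕ} {w w' z z' : ℝ → ℝ → ℝ → ℝ} {p a b q c d : ℕ} (h : Pv E N w w' p a b)
    (h1 : w = z) (h2 : w' = z') (h3 : p ≤ q) (h4 : a ≤ c) (h5 : b ≤ d) : Pv E N z z' q c d := by
  obtain ⟨C, k, M, u, ⟨P, g1, g2⟩, g3, g4, g5⟩ := h.ex
  subst h1 h2
  refine ⟨C, k, M, u, ⟨P, g1, fun m hm => pk_mono h3 (g2 m hm)⟩, ?_, g4, g5⟩
  intro x₁ x₂ x₃ hx hy ht
  obtain ⟨a1, a2, a3, a4⟩ := g3 x₁ x₂ x₃ hx hy ht
  have h4' : (a : ℤ) ≤ c := by exact_mod_cast h4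
  have h5' : (b : ℤ) ≤ d := by exact_mod_cast h5
  exact ⟨fun i j => (a1 i j).trans h4', a2.trans h4', fun i j => (a3 i j).trans h5', a4.trans h5'⟩

/-- the zero function -/
def z3 : ℝ → ℝ → ℝ → ℝ := fun _ _ _ => 0

theorem pv_zero (E : RD) : Pv E 0 z3 z3 0 0 0 := by
  have h := pv_poly E (N := 0) (X := fun _ _ => 0) (Y := fun _ _ => 0) (κ := 0) (υ := 0) (p := 0) (a := 0) (b := 0)
    (β := 0) (fun _ => 0) (fun _ => 0) (by simp) (fun m _ => by simpa using pk_zero 0) (by simp) (by simp)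
    (by simp) (by simp) (by intros; simp [ev_zero])
  refine h.congr ?_ ?_ le_rfl le_rfl le_rfl <;> funext x y t <;> simp [ev, z3]

/-- **a product of three factors times a matrix** -/
theorem pv_F {E : RD} {P Q : ℕ} {v : ℝ} (h : PQ E.F P Q v) (A₁ B₁ A₂ B₂ A₃ B₃ β₁ β₂ β₃ : ℕ)
    (h1 : A₁ ≤ β₁ ∧ 256 * B₁ ≤ A₁ + β₁) (h2 : A₂ ≤ β₂ ∧ 256 * B₂ ≤ A₂ + β₂)
    (h3 : A₃ ≤ β₃ ∧ 256 * B₃ ≤ A₃ + β₃) (hβ : β₁ * (β₂ * β₃) ≤ 2 ^ 30) :
    Pv E (tri P Q A₁ B₁ A₂ B₂ A₃ B₃)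
      (fun x y t => ((A₁ - B₁ * x) * ((A₂ - B₂ * y) * (A₃ - B₃ * t))) * v) z3
      (2 ^ 34 * 90) (β₁ * (β₂ * β₃) * 15) 0 := by
  obtain ⟨X, g1, g2, g3, g4⟩ := h.ex
  have hq : (A₁ + B₁) * ((A₂ + B₂) * (A₃ + B₃)) ≤ 2 ^ 34 := by
    have a1 : A₁ + B₁ ≤ 2 * β₁ := by omega
    have a2 : A₂ + B₂ ≤ 2 * β₂ := by omega
    have a3 : A₃ + B₃ ≤ 2 * β₃ := by omega
    calc (A₁ + B₁) * ((A₂ + B₂) * (A₃ + B₃)) ≤ 2 * β₁ * (2 * β₂ * (2 * β₃)) :=
          Nat.mul_le_mul a1 (Nat.mul_le_mul a2 a3)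
      _ = 8 * (β₁ * (β₂ * β₃)) := by ring
      _ ≤ 2 ^ 34 := by omega
  have h := pv_tri E (X := X) (Y := fun _ _ => 0) (κ := 0) (υ := 0) (p := 90) (a := 15) (b := 0) g1
    (by simpa using g2) g3 (by simp) (by simp) (by simp) A₁ B₁ A₂ B₂ A₃ B₃ β₁ β₂ β₃ (2 ^ 34) h1 h2 h3 hq
  refine h.congr ?_ ?_ le_rfl le_rfl (by simp)
  · funext x y t
    rw [g4]
    simp
  · funext x y t
    rw [pr_zero]
    simp [z3]

/-- **a product of three factors on the right side** -/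
theorem pv_kap (E : RD) (A₁ B₁ A₂ B₂ A₃ B₃ : ℕ) (h1 : A₁ ≤ 4096 ∧ 256 * B₁ ≤ A₁ + 4096)
    (h2 : A₂ ≤ 256 ∧ 256 * B₂ ≤ A₂ + 256) (h3 : A₃ ≤ 256 ∧ 256 * B₃ ≤ A₃ + 256) :
    Pv E (kap A₁ B₁ A₂ B₂ A₃ B₃)
      (fun x y t => -((A₁ - B₁ * x) * ((A₂ - B₂ * y) * (A₃ - B₃ * t)))) z3
      (2 ^ 34) (2 ^ 28) 0 := by
  have hR : 1 ≤ R9 := R9_pos
  have hR' : Nat.sub R9 1 ≤ R9 := Nat.sub_le _ _
  have g1 := pk_kC 1 hR
  have g2 : Pk (kC (Nat.sub R9 1)) (fun _ _ => 0) (-1) (fun _ _ => 0) 0 1 := by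
    obtain ⟨e, a1, a2, a3, a4⟩ := pk_kC (Nat.sub R9 1) hR'
    refine ⟨e, a1, a2, ⟨a3.x, a3.y, ?_⟩, a4⟩
    have h5 := a3.k
    have h6 : ((Nat.sub R9 1 : ℕ) : ℤ) = (R9 : ℤ) - 1 := by
      have : Nat.sub R9 1 = R9 - 1 := rfl
      rw [this, Nat.cast_sub hR]
      norm_num
    rw [h6] at h5
    refine h5.trans ?_
    have h7 : (R9 : ℤ) ≡ 0 [ZMOD R9] := by
      rw [Int.modEq_zero_iff_dvd]
    have := Int.ModEq.sub h7 (Int.ModEq.refl (1 : ℤ))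
    rwa [zero_sub] at this
  have hq : (A₁ + B₁) * ((A₂ + B₂) * (A₃ + B₃)) ≤ 2 ^ 34 := by
    have a1 : A₁ + B₁ ≤ 8192 := by omega
    have a2 : A₂ + B₂ ≤ 512 := by omega
    have a3 : A₃ + B₃ ≤ 512 := by omega
    exact (Nat.mul_le_mul a1 (Nat.mul_le_mul a2 a3)).trans (by norm_num)
  have h := pv_tri E (X := fun _ _ => 0) (Y := fun _ _ => 0) (κ := 1) (υ := 0) (p := 1) (a := 1) (b := 0) g1
    (by simpa using g2) (by simp) (by simp) (by simp) (by simp) A₁ B₁ A₂ B₂ A₃ B₃ 4096 256 256 (2 ^ 34)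
    h1 h2 h3 hq
  refine h.congr ?_ ?_ (by norm_num) (by norm_num) (by simp)
  · funext x y t
    rw [pr_zero]
    push_cast
    ring
  · funext x y t
    rw [pr_zero]
    simp [z3]

/-- the value `256 - x` of the three coordinates -/
def yy (x y t : ℝ) : Fin 3 → ℝ := ![256 - x, 256 - y, 256 - t]

/-- **the part of a facet in the chain with `C`** -/
theorem pv_facC {E : RD} {P Q : ℕ} {v : ℝ} (h : PQ E.F P Q v) (cls : Fin 3 → Bool) (i k : Fin 3)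
    (hk : cls k = true) :
    Pv E (facC (cls i) i k P Q) (fun x y t => coC cls k i (yy x y t) * v) z3 (2 ^ 35 * 90)
      (2 ^ 29 * 15) 0 := by
  cases hi : cls i with
  | true =>
    have key : ∀ (A₁ B₁ A₂ B₂ A₃ B₃ β₁ β₂ β₃ : ℕ), (A₁ ≤ β₁ ∧ 256 * B₁ ≤ A₁ + β₁) →
        (A₂ ≤ β₂ ∧ 256 * B₂ ≤ A₂ + β₂) → (A₃ ≤ β₃ ∧ 256 * B₃ ≤ A₃ + β₃) → β₁ * (β₂ * β₃) ≤ 2 ^ 29 →
        (∀ x y t : ℝ, (A₁ - B₁ * x) * ((A₂ - B₂ * y) * (A₃ - B₃ * t)) = coC cls k i (yy x y t)) →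
        Pv E (Nat.add (tri P Q A₁ B₁ A₂ B₂ A₃ B₃) 0) (fun x y t => coC cls k i (yy x y t) * v) z3
          (2 ^ 35 * 90) (2 ^ 29 * 15) 0 := by
      intro A₁ B₁ A₂ B₂ A₃ B₃ β₁ β₂ β₃ h1 h2 h3 hβ hv
      rw [show Nat.add (tri P Q A₁ B₁ A₂ B₂ A₃ B₃) 0 = tri P Q A₁ B₁ A₂ B₂ A₃ B₃ from Nat.add_zero _]
      refine (pv_F h A₁ B₁ A₂ B₂ A₃ B₃ β₁ β₂ β₃ h1 h2 h3 (hβ.trans (by norm_num))).congr ?_ rfl
        (by norm_num) (Nat.mul_le_mul_right _ hβ) le_rfl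
      funext x y t
      rw [hv]
    fin_cases i
    · exact key 4096 0 256 1 256 1 4096 256 256 (by norm_num) (by norm_num) (by norm_num) (by norm_num)
        (fun x y t => by have hi' : cls 0 = true := hi; simp [coC, hi', yy, Fin.prod_univ_three])
    · exact key 256 1 4096 0 256 1 256 4096 256 (by norm_num) (by norm_num) (by norm_num) (by norm_num)
        (fun x y t => by have hi' : cls 1 = true := hi; simp [coC, hi', yy, Fin.prod_univ_three]; ring)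
    · exact key 256 1 256 1 4096 0 256 256 4096 (by norm_num) (by norm_num) (by norm_num) (by norm_num)
        (fun x y t => by have hi' : cls 2 = true := hi; simp [coC, hi', yy, Fin.prod_univ_three]; ring)
  | false =>
    have key : ∀ (A₁ B₁ A₂ B₂ A₃ B₃ β₁ β₂ β₃ A₁' B₁' A₂' B₂' A₃' B₃' β₁' β₂' β₃' : ℕ),
        (A₁ ≤ β₁ ∧ 256 * B₁ ≤ A₁ + β₁) →
        (A₂ ≤ β₂ ∧ 256 * B₂ ≤ A₂ + β₂) → (A₃ ≤ β₃ ∧ 256 * B₃ ≤ A₃ + β₃) → β₁ * (β₂ * β₃) ≤ 2 ^ 28 →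
        (A₁' ≤ β₁' ∧ 256 * B₁' ≤ A₁' + β₁') →
        (A₂' ≤ β₂' ∧ 256 * B₂' ≤ A₂' + β₂') → (A₃' ≤ β₃' ∧ 256 * B₃' ≤ A₃' + β₃') →
        β₁' * (β₂' * β₃') ≤ 2 ^ 28 →
        (∀ x y t : ℝ, (A₁ - B₁ * x) * ((A₂ - B₂ * y) * (A₃ - B₃ * t)) +
          (A₁' - B₁' * x) * ((A₂' - B₂' * y) * (A₃' - B₃' * t)) = coC cls k i (yy x y t)) →
        Pv E (Nat.add (tri P Q A₁ B₁ A₂ B₂ A₃ B₃) (tri P Q A₁' B₁' A₂' B₂' A₃' B₃'))
          (fun x y t => coC cls k i (yy x y t) * v) z3 (2 ^ 35 * 90) (2 ^ 29 * 15) 0 := by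
      intro A₁ B₁ A₂ B₂ A₃ B₃ β₁ β₂ β₃ A₁' B₁' A₂' B₂' A₃' B₃' β₁' β₂' β₃' h1 h2 h3 hβ h1' h2' h3' hβ' hv
      refine ((pv_F h A₁ B₁ A₂ B₂ A₃ B₃ β₁ β₂ β₃ h1 h2 h3 (hβ.trans (by norm_num))).add
        (pv_F h A₁' B₁' A₂' B₂' A₃' B₃' β₁' β₂' β₃' h1' h2' h3' (hβ'.trans (by norm_num)))).congr ?_ ?_
        (by norm_num) (by omega) le_rfl
      · funext x y t
        rw [← hv]
        ring
      · funext x y t
        simp [z3]
    have nn : (2 : ℕ) ^ 28 = 268435456 := by norm_num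
    fin_cases i <;> fin_cases k
    · exact absurd (hk.symm.trans hi) (by decide)
    · exact key 1048576 4096 1 0 256 1 1048576 1 256 4096 0 0 1 256 1 4096 256 256
        (by norm_num) (by norm_num) (by norm_num) (by norm_num) (by norm_num) (by norm_num) (by norm_num)
        (by norm_num) (fun x y t => by have hi' : cls 0 = false := hi; simp [coC, hi', yy, th]; ring)
    · exact key 1048576 4096 256 1 1 0 1048576 256 1 4096 0 256 1 0 1 4096 256 256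
        (by norm_num) (by norm_num) (by norm_num) (by norm_num) (by norm_num) (by norm_num) (by norm_num)
        (by norm_num) (fun x y t => by have hi' : cls 0 = false := hi; simp [coC, hi', yy, th]; ring)
    · exact key 1 0 1048576 4096 256 1 1 1048576 256 0 1 4096 0 256 1 256 4096 256
        (by norm_num) (by norm_num) (by norm_num) (by norm_num) (by norm_num) (by norm_num) (by norm_num)
        (by norm_num) (fun x y t => by have hi' : cls 1 = false := hi; simp [coC, hi', yy, th]; ring)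
    · exact absurd (hk.symm.trans hi) (by decide)
    · exact key 256 1 1048576 4096 1 0 256 1048576 1 256 1 4096 0 0 1 256 4096 256
        (by norm_num) (by norm_num) (by norm_num) (by norm_num) (by norm_num) (by norm_num) (by norm_num)
        (by norm_num) (fun x y t => by have hi' : cls 1 = false := hi; simp [coC, hi', yy, th]; ring)
    · exact key 1 0 256 1 1048576 4096 1 256 1048576 0 1 256 1 4096 0 256 256 4096
        (by norm_num) (by norm_num) (by norm_num) (by norm_num) (by norm_num) (by norm_num) (by norm_num)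
        (by norm_num) (fun x y t => by have hi' : cls 2 = false := hi; simp [coC, hi', yy, th]; ring)
    · exact key 256 1 1 0 1048576 4096 256 1 1048576 256 1 0 1 4096 0 256 256 4096
        (by norm_num) (by norm_num) (by norm_num) (by norm_num) (by norm_num) (by norm_num) (by norm_num)
        (by norm_num) (fun x y t => by have hi' : cls 2 = false := hi; simp [coC, hi', yy, th]; ring)
    · exact absurd (hk.symm.trans hi) (by decide)

end Pool.Agent.Helper80.KD
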