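import Mathlib
import Pool.Agent.Helper80.KD.RuleS

/-!
# The facts of the chains, rows and widths are correct
-/

set_option autoImplicit false

namespace Pool.Agent.Helper80.KD

open Finset
open Pool.Agent.Helper28.TP (Ivl InBox nth)
open Pool.Agent.Helper80.TP (IM RD pr Item force force_eq Vc vc VR vr_vc vI nthK nthK_eq R9 R9_pos)
open Pool.Agent.Helper80.TK (pm toM kC kM Pk VP yv sel sel_eq hlF sAF sBF hhF deadF mI pk_pm pk_pmM pk_kC pk_kM
  KR gz dd cc Adm InB cast_sub_ge)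
open Pool.Agent.Helper21.TK (mt coC coD coX ty th pb pball kr_chC_int kr_chD_int kr_CD_int kr_s_line kr_s_tan)

/-- the state and the real data -/
structure HS (W : ℝ) (E : RD) (cls : Fin 3 → Bool) (d c s : Fin 3 → ℝ) (h : ℝ)
    (lab : (Fin 3 → ℤ) → Fin 5) : Prop where
  K : KR W E.F E.G cls d c s h lab
  e0 : E.c 0 = d 0
  e1 : E.c 1 = d 1
  e2 : E.c 2 = d 2
  e3 : E.c 3 = h
  om : E.om = 2 * W

section

variable {W : ℝ} {E : RD} {cls : Fin 3 → Bool} {d c s : Fin 3 → ℝ} {h : ℝ} {lab : (Fin 3 → ℤ) → Fin 5}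

theorem yy_ty (H : HS W E cls d c s h lab) : yy (256 * E.c 0) (256 * E.c 1) (256 * E.c 2) = ty d := by
  rw [H.e0, H.e1, H.e2]
  funext i
  fin_cases i <;> rfl

theorem pq_fct (F : Matrix (Fin 3) (Fin 3) ℝ) (i : Fin 3) (z y : ℕ) :
    PQ F (gp i (vd z y)) (gq i (vd z y)) (yv F i.succ (pt z - pt y)) :=
  pq_gp F i (vr_vd z y) (ptd_bd z y)

/-- the three parts of the chain with `C` -/
theorem pv_chC (k : Fin 3) (hk : cls k = true) (z1 z2 z3' y : ℕ) :
    Pv E (chC (cls 0) (cls 1) (cls 2) k z1 z2 z3' y)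
      (fun a b t => coC cls k 0 (yy a b t) * yv E.F 1 (pt z1 - pt y) +
        (coC cls k 1 (yy a b t) * yv E.F 2 (pt z2 - pt y) +
          coC cls k 2 (yy a b t) * yv E.F 3 (pt z3' - pt y))) z3 (2 ^ 37 * 90) (2 ^ 29 * 45) 0 := by
  have h0 := pv_facC (pq_fct E.F 0 z1 y) cls 0 k hk
  have h1 := pv_facC (pq_fct E.F 1 z2 y) cls 1 k hk
  have h2 := pv_facC (pq_fct E.F 2 z3' y) cls 2 k hk
  unfold chC
  rw [fct_eq, fct_eq, fct_eq]
  refine (h0.add (h1.add h2)).congr rfl ?_ (by norm_num) (by norm_num) le_rfl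
  funext a b t
  simp [z3]

/-- **the chain with `C`** -/
theorem isD_chC (H : HS W E cls d c s h lab) (k : Fin 3) (hk : cls k = true) {z1 z2 z3' y : ℕ}
    (l1 : lab (pt z1) = 1) (l2 : lab (pt z2) = 2) (l3 : lab (pt z3') = 3) (l0 : lab (pt y) = 0) :
    IsD E (oneD (Nat.add (chC (cls 0) (cls 1) (cls 2) k z1 z2 z3' y) (kap 4096 16 256 1 256 1))) := by
  have h1 := (pv_chC (E := E) k hk z1 z2 z3' y).add
    (pv_kap E 4096 16 256 1 256 1 (by norm_num) (by norm_num) (by norm_num))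
  refine h1.fact (by norm_num) (by norm_num) (by norm_num) ?_ ?_
  · have h2 := kr_chC_int H.K hk (z := ![pt z1, pt z2, pt z3']) (y := pt y)
      (fun i => by fin_cases i; exacts [l1, l2, l3]) l0
    rw [← yy_ty H, Fin.sum_univ_three] at h2
    simp only [Matrix.cons_val_zero, Matrix.cons_val_one, Matrix.cons_val] at h2
    have e1 : (Fin.succ 0 : Fin 4) = 1 := rfl
    have e2 : (Fin.succ 1 : Fin 4) = 2 := rfl
    have e3 : (Fin.succ 2 : Fin 4) = 3 := rfl
    rw [e1, e2, e3] at h2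
    have e4 : ∀ a b t : ℝ, (yy a b t) 0 = 256 - a := fun a b t => rfl
    have e5 : ∀ a b t : ℝ, (yy a b t) 1 = 256 - b := fun a b t => rfl
    have e6 : ∀ a b t : ℝ, (yy a b t) 2 = 256 - t := fun a b t => rfl
    rw [e4, e5, e6] at h2
    push_cast
    linarith
  · simp [z3]

/-- the part of a facet in the chain with `D` -/
theorem pv_chD (a1 m1 a2 m2 a3 m3 : ℕ) (ha1 : a1 < 16384) (hm1 : m1 < 64) (ha2 : a2 < 16384)
    (hm2 : m2 < 64) (ha3 : a3 < 16384) (hm3 : m3 < 64) {P1 Q1 P2 Q2 P3 Q3 : ℕ} {v1 v2 v3 : ℝ}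
    (h1 : PQ E.F P1 Q1 v1) (h2 : PQ E.F P2 Q2 v2) (h3 : PQ E.F P3 Q3 v3) (b1 b2 b3 : Bool) :
    Pv E (Nat.add (Nat.add (facD0 b1 b2 b3 a1 m1 P1 Q1) (Nat.add (facD1 b1 b2 b3 a2 m2 P2 Q2)
        (facD2 b1 b2 b3 a3 m3 P3 Q3))) (kap 4096 (sel b1 0 16) 256 (sel b2 0 1) 256 (sel b3 0 1)))
      (fun x y t =>
        ((((sel b1 a1 4096 : ℕ) : ℝ) - ((sel b1 m1 0 : ℕ) : ℝ) * x) *
            ((((256 : ℕ) : ℝ) - ((sel b2 0 1 : ℕ) : ℝ) * y) * (((256 : ℕ) : ℝ) - ((sel b3 0 1 : ℕ) : ℝ) * t)) * v1 +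
          (((((256 : ℕ) : ℝ) - ((sel b1 0 1 : ℕ) : ℝ) * x) *
            ((((sel b2 a2 4096 : ℕ) : ℝ) - ((sel b2 m2 0 : ℕ) : ℝ) * y) *
              (((256 : ℕ) : ℝ) - ((sel b3 0 1 : ℕ) : ℝ) * t)) * v2) +
          ((((256 : ℕ) : ℝ) - ((sel b1 0 1 : ℕ) : ℝ) * x) *
            ((((256 : ℕ) : ℝ) - ((sel b2 0 1 : ℕ) : ℝ) * y) *
              (((sel b3 a3 4096 : ℕ) : ℝ) - ((sel b3 m3 0 : ℕ) : ℝ) * t)) * v3))) +
        -((((4096 : ℕ) : ℝ) - ((sel b1 0 16 : ℕ) : ℝ) * x) * ((((256 : ℕ) : ℝ) - ((sel b2 0 1 : ℕ) : ℝ) * y) *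
          (((256 : ℕ) : ℝ) - ((sel b3 0 1 : ℕ) : ℝ) * t)))) z3 (2 ^ 38 * 90) (2 ^ 36) 0 := by
  have own : ∀ (b : Bool) (a m : ℕ), a < 16384 → m < 64 → sel b a 4096 ≤ 16384 ∧
      256 * sel b m 0 ≤ sel b a 4096 + 16384 := by
    intro b a m ha hm
    cases b
    · exact ⟨by show 4096 ≤ 16384; norm_num, by show 256 * 0 ≤ 4096 + 16384; norm_num⟩
    · exact ⟨by show a ≤ 16384; omega, by show 256 * m ≤ a + 16384; omega⟩
  have oth : ∀ b : Bool, 256 ≤ 256 ∧ 256 * sel b 0 1 ≤ 256 + 256 := by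
    intro b
    cases b
    · exact ⟨le_rfl, by show 256 * 1 ≤ 256 + 256; norm_num⟩
    · exact ⟨le_rfl, by show 256 * 0 ≤ 256 + 256; norm_num⟩
  have oth4 : ∀ b : Bool, 4096 ≤ 4096 ∧ 256 * sel b 0 16 ≤ 4096 + 4096 := by
    intro b
    cases b
    · exact ⟨le_rfl, by show 256 * 16 ≤ 4096 + 4096; norm_num⟩
    · exact ⟨le_rfl, by show 256 * 0 ≤ 4096 + 4096; norm_num⟩
  have g1 := pv_F h1 (sel b1 a1 4096) (sel b1 m1 0) 256 (sel b2 0 1) 256 (sel b3 0 1) 16384 256 256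
    (own _ _ _ ha1 hm1) (oth _) (oth _) (by norm_num)
  have g2 := pv_F h2 256 (sel b1 0 1) (sel b2 a2 4096) (sel b2 m2 0) 256 (sel b3 0 1) 256 16384 256
    (oth _) (own _ _ _ ha2 hm2) (oth _) (by norm_num)
  have g3 := pv_F h3 256 (sel b1 0 1) 256 (sel b2 0 1) (sel b3 a3 4096) (sel b3 m3 0) 256 256 16384
    (oth _) (oth _) (own _ _ _ ha3 hm3) (by norm_num)
  have g4 := pv_kap E 4096 (sel b1 0 16) 256 (sel b2 0 1) 256 (sel b3 0 1) (oth4 _) (oth _) (oth _)
  refine ((g1.add (g2.add g3)).add g4).congr rfl ?_ (by norm_num) (by norm_num) le_rfl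
  funext a b t
  simp [z3]

/-- the test of a line -/
theorem lnT_spec (H : HS W E cls d c s h lab) {hh : ℕ} (h1 : 65536 * h ≤ hh) (h65 : hh ≤ 65536) (h0 : 1 ≤ hh)
    (i : Fin 3) (hi : cls i = true) (L : ℕ) (hL : lnT (cls i) hh L = true) :
    4096 * s i ≤ ((L % 16384 : ℕ) : ℝ) - ((L / 16384 % 64 : ℕ) : ℝ) * (256 * d i) := by
  rw [hi] at hL
  obtain ⟨a, ha⟩ : ∃ a, a = L % 16384 := ⟨_, rfl⟩
  obtain ⟨m, hm⟩ : ∃ m, m = L / 16384 % 64 := ⟨_, rfl⟩
  have e1 : Nat.mod (Nat.shiftRight L 14) 64 = m := by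
    rw [hm]
    show (Nat.shiftRight L 14) % 64 = _
    rw [show Nat.shiftRight L 14 = L / 2 ^ 14 from Nat.shiftRight_eq_div_pow L 14]
    norm_num
  obtain ⟨t1, ht1⟩ : ∃ t1, t1 = Nat.ble (Nat.mul (Nat.sub (Nat.add 268435456 (Nat.mul (Nat.mul 256 hh) m))
      (Nat.mul hh a)) (Nat.sub (Nat.add 268435456 (Nat.mul (Nat.mul 256 hh) m)) (Nat.mul hh a)))
      (Nat.mul (Nat.mul 4194304 m) (Nat.mul (Nat.sub 65536 hh) hh)) := ⟨_, rfl⟩
  have hL' : t1 = true ∨ (Nat.ble (Nat.mul m hh) (Nat.mul 16 (Nat.sub 65536 hh)) = true ∧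
      Nat.ble 4096 a = true) := by
    have h2 : lnT true hh L = @Bool.rec (fun _ => Bool)
          (@Bool.rec (fun _ => Bool) false
            (Nat.ble (Nat.mul (Nat.mod (Nat.shiftRight L 14) 64) hh) (Nat.mul 16 (Nat.sub 65536 hh)))
            (Nat.ble 4096 (Nat.mod L 16384)))
          true
          (Nat.ble (Nat.mul (Nat.sub (Nat.add 268435456 (Nat.mul (Nat.mul 256 hh)
        (Nat.mod (Nat.shiftRight L 14) 64))) (Nat.mul hh (Nat.mod L 16384)))
      (Nat.sub (Nat.add 268435456 (Nat.mul (Nat.mul 256 hh) (Nat.mod (Nat.shiftRight L 14) 64)))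
        (Nat.mul hh (Nat.mod L 16384))))
      (Nat.mul (Nat.mul 4194304 (Nat.mod (Nat.shiftRight L 14) 64)) (Nat.mul (Nat.sub 65536 hh) hh))) := rfl
    rw [h2, e1, show Nat.mod L 16384 = a from ha.symm, ← ht1] at hL
    cases t1 with
    | true => exact Or.inl rfl
    | false =>
      right
      revert hL
      generalize Nat.ble (Nat.mul m hh) (Nat.mul 16 (Nat.sub 65536 hh)) = u
      generalize Nat.ble 4096 a = v
      intro hL
      cases v
      · exact Bool.noConfusion (show false = true from hL)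
      · exact ⟨hL, rfl⟩
  rw [← ha, ← hm]
  have hm0 : (0 : ℝ) ≤ m := Nat.cast_nonneg _
  have hh0 : (0 : ℝ) < hh := by exact_mod_cast h0
  have hh65 : (hh : ℝ) ≤ 65536 := by exact_mod_cast h65
  rcases hL' with hL' | ⟨hL1, hL2⟩
  · have h3 := Nat.le_of_ble_eq_true (ht1.symm.trans hL')
    simp only [Nat.add_eq, Nat.mul_eq, Nat.sub_eq] at h3
    rcases Nat.lt_or_ge (hh * a) (268435456 + 256 * hh * m) with h4 | h4
    · obtain ⟨x, hx⟩ : ∃ x, x + hh * a = 268435456 + 256 * hh * m :=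
        ⟨268435456 + 256 * hh * m - hh * a, by omega⟩
      have h5 : 268435456 + 256 * hh * m - hh * a = x := by omega
      rw [h5] at h3
      have h6 : ((x : ℝ)) * x ≤ 4194304 * m * ((65536 - hh) * hh) := by
        have h7 : ((x * x : ℕ) : ℝ) ≤ ((4194304 * m * ((65536 - hh) * hh) : ℕ) : ℝ) := by exact_mod_cast h3
        rw [Nat.cast_mul, Nat.cast_mul, Nat.cast_mul, Nat.cast_mul, Nat.cast_sub h65] at h7
        push_cast at h7
        exact h7
      have h8 : (x : ℝ) + hh * a = 268435456 + 256 * hh * m := by exact_mod_cast hx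
      refine kr_s_tan H.K hi h1 hh0 hh65 hm0 (by norm_num) ?_
      have e2 : (65536 * 4096 + 256 * (hh : ℝ) * m - hh * a) = x := by linarith
      rw [e2]
      nlinarith
    · refine kr_s_line H.K hi hh0 hh65 hm0 (by norm_num) ?_
      have h5 : (268435456 : ℝ) + 256 * hh * m ≤ hh * a := by exact_mod_cast h4
      linarith
  · have h2 := Nat.le_of_ble_eq_true hL1
    have h3 := Nat.le_of_ble_eq_true hL2
    have h4 : (4096 : ℝ) ≤ a := by exact_mod_cast h3
    have h5 : (m : ℝ) * hh ≤ 16 * (65536 - hh) := by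
      have h6 : m * hh ≤ 16 * (65536 - hh) := h2
      have h7 : ((m * hh : ℕ) : ℝ) ≤ ((16 * (65536 - hh) : ℕ) : ℝ) := by exact_mod_cast h6
      rw [Nat.cast_mul, Nat.cast_mul, Nat.cast_sub h65] at h7
      push_cast at h7
      exact h7
    have h6 := Pool.Agent.Helper21.TK.kr_s_ub H.K hi (hu := (hh : ℝ) / 65536) (by
      rw [le_div_iff₀ (by norm_num)]; linarith)
    have hd0 := H.K.ks.d0 i
    have hd1 := H.K.ks.d1 i
    have h7 : s i * hh ≤ hh - (65536 - hh) * d i := by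
      refine le_of_mul_le_mul_left ?_ (by linarith : 0 < 1 - d i)
      have h8 : (1 - d i) * (s i * hh) = 65536 * (s i * ((1 - d i) * ((hh : ℝ) / 65536))) := by ring
      rw [h8]
      have h9 : 0 ≤ (65536 - (hh : ℝ)) * (d i * d i) := mul_nonneg (by linarith) (mul_nonneg hd0 hd0)
      nlinarith
    refine le_of_mul_le_mul_left ?_ hh0
    have h10 : (m : ℝ) * hh * d i ≤ 16 * (65536 - hh) * d i := mul_le_mul_of_nonneg_right h5 hd0
    have h11 : (4096 : ℝ) * hh ≤ a * hh := mul_le_mul_of_nonneg_right h4 hh0.le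
    nlinarith

/-- **the chain with `D`** -/
theorem isD_chD (H : HS W E cls d c s h lab) {z1 z2 z3' y : ℕ} {L1 L2 L3 : ℕ}
    (hl : ∀ i, cls i = true → 4096 * s i ≤ (((![L1, L2, L3] i) % 16384 : ℕ) : ℝ) -
      (((![L1, L2, L3] i) / 16384 % 64 : ℕ) : ℝ) * (256 * d i))
    (l1 : lab (pt z1) = 1) (l2 : lab (pt z2) = 2) (l3 : lab (pt z3') = 3) (l0 : lab (pt y) = 4) :
    IsD E (oneD (chD (cls 0) (cls 1) (cls 2) L1 L2 L3 z1 z2 z3' y)) := by
  have em : ∀ L : ℕ, Nat.mod (Nat.shiftRight L 14) 64 = L / 16384 % 64 := by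
    intro L
    show (Nat.shiftRight L 14) % 64 = _
    rw [show Nat.shiftRight L 14 = L / 2 ^ 14 from Nat.shiftRight_eq_div_pow L 14]
    norm_num
  have e0 : ∀ (L : ℕ) (f : ℕ → ℕ → ℕ), ln L f = f (L % 16384) (L / 16384 % 64) := by
    intro L f
    rw [← em]
    rfl
  unfold chD
  rw [fct_eq, fct_eq, fct_eq]
  simp only [e0]
  have h1 := pv_chD (E := E) (L1 % 16384) (L1 / 16384 % 64) (L2 % 16384) (L2 / 16384 % 64) (L3 % 16384)
    (L3 / 16384 % 64) (by omega) (by omega) (by omega) (by omega) (by omega) (by omega)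
    (pq_fct E.F 0 z1 y) (pq_fct E.F 1 z2 y) (pq_fct E.F 2 z3' y) (cls 0) (cls 1) (cls 2)
  refine h1.fact (by norm_num) le_rfl (by norm_num) ?_ ?_
  · have h2 := kr_chD_int H.K (a := fun i => (((![L1, L2, L3] i) % 16384 : ℕ) : ℝ))
      (b := fun i => (((![L1, L2, L3] i) / 16384 % 64 : ℕ) : ℝ)) hl (z := ![pt z1, pt z2, pt z3']) (y := pt y)
      (fun i => by fin_cases i; exacts [l1, l2, l3]) l0
    rw [Fin.sum_univ_three] at h2
    rw [H.e0, H.e1, H.e2]
    have e1 : (Fin.succ 0 : Fin 4) = 1 := rfl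
    have e2 : (Fin.succ 1 : Fin 4) = 2 := rfl
    have e3 : (Fin.succ 2 : Fin 4) = 3 := rfl
    rw [e1, e2, e3] at h2
    simp only [Matrix.cons_val_zero, Matrix.cons_val_one, Matrix.cons_val] at h2
    simp only [coD, pb, pball, ty, Fin.prod_univ_three] at h2
    have f1 : (Fin.succ 0 : Fin 4) = 1 := rfl
    cases h0 : cls 0 <;> cases h1 : cls 1 <;> cases h2' : cls 2 <;>
      simp [h0, h1, h2', sel] at h2 ⊢ <;> linarith
  · simp [z3]

/-! ### rows -/

theorem isD_rw (H : HS W E cls d c s h lab) (i : Fin 3) {z y : ℕ} (lz : lab (pt z) = i.succ.castSucc)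
    (ly : lab (pt y) = 0 ∨ lab (pt y) = 4) : IsD E (oneD (rw3 i z y)) := by
  unfold rw3
  rw [fct_eq]
  have h1 := pv_F (pq_fct E.F i z y) 268435456 0 1 0 1 0 268435456 1 1 (by norm_num) (by norm_num)
    (by norm_num) (by norm_num)
  refine h1.fact (by norm_num) (by norm_num) (by norm_num) ?_ ?_
  · have h2 := H.K.ks.row i (pt z) (pt y) lz ly
    push_cast
    have e : ((268435456 : ℝ) - 0 * (256 * E.c 0)) * ((1 - 0 * (256 * E.c 1)) * (1 - 0 * (256 * E.c 2))) =
        268435456 := by ring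
    rw [e]
    exact mul_nonneg (by norm_num) h2
  · simp [z3]

/-! ### the priority row -/

/-- the value of the part of the facet `i` with the slope `m` -/
noncomputable def coX' (cls : Fin 3 → Bool) (m : ℕ) (i : Fin 3) (y : Fin 3 → ℝ) : ℝ :=
  if cls i = true then 4096 * (∏ l, if l = i then 1 else y l)
    else if m = 0 then 0 else (4096 - m * (256 - y i)) * (∏ l, if l = i then 1 else y l)

theorem pv_facX {P Q : ℕ} {v : ℝ} (hP : PQ E.F P Q v) (cls : Fin 3 → Bool) (i : Fin 3) (m : ℕ)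
    (hm : m ≤ 65) :
    Pv E (facX (cls i) i m P Q) (fun x y t => coX' cls m i (yy x y t) * (-v)) z3 (2 ^ 34 * 90)
      (12544 * 65536 * 15) 0 := by
  have key : ∀ (A₁ B₁ A₂ B₂ A₃ B₃ β₁ β₂ β₃ : ℕ), (A₁ ≤ β₁ ∧ 256 * B₁ ≤ A₁ + β₁) →
      (A₂ ≤ β₂ ∧ 256 * B₂ ≤ A₂ + β₂) → (A₃ ≤ β₃ ∧ 256 * B₃ ≤ A₃ + β₃) → β₁ * (β₂ * β₃) ≤ 12544 * 65536 →
      (∀ x y t : ℝ, (A₁ - B₁ * x) * ((A₂ - B₂ * y) * (A₃ - B₃ * t)) = coX' cls m i (yy x y t)) →
      Pv E (tri Q P A₁ B₁ A₂ B₂ A₃ B₃) (fun x y t => coX' cls m i (yy x y t) * (-v)) z3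
        (2 ^ 34 * 90) (12544 * 65536 * 15) 0 := by
    intro A₁ B₁ A₂ B₂ A₃ B₃ β₁ β₂ β₃ h1 h2 h3 hβ hv
    refine (pv_F hP.swap A₁ B₁ A₂ B₂ A₃ B₃ β₁ β₂ β₃ h1 h2 h3 (hβ.trans (by norm_num))).congr ?_ rfl
      (by norm_num) (Nat.mul_le_mul_right _ hβ) le_rfl
    funext x y t
    rw [hv]
  cases hi : cls i with
  | true =>
    fin_cases i
    · exact key 4096 0 256 1 256 1 4096 256 256 (by norm_num) (by norm_num) (by norm_num) (by norm_num)
        (fun x y t => by have hi' : cls 0 = true := hi; simp [coX', hi', yy, Fin.prod_univ_three])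
    · exact key 256 1 4096 0 256 1 256 4096 256 (by norm_num) (by norm_num) (by norm_num) (by norm_num)
        (fun x y t => by have hi' : cls 1 = true := hi; simp [coX', hi', yy, Fin.prod_univ_three]; ring)
    · exact key 256 1 256 1 4096 0 256 256 4096 (by norm_num) (by norm_num) (by norm_num) (by norm_num)
        (fun x y t => by have hi' : cls 2 = true := hi; simp [coX', hi', yy, Fin.prod_univ_three]; ring)
  | false =>
    rcases Nat.eq_zero_or_pos m with h0 | h0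
    · subst h0
      have e1 : facX false i 0 P Q = 0 := rfl
      rw [e1]
      refine (pv_zero E).congr ?_ rfl (by norm_num) (by norm_num) le_rfl
      funext x y t
      simp [z3, coX', hi]
    · obtain ⟨n, rfl⟩ : ∃ n, m = n + 1 := ⟨m - 1, by omega⟩
      fin_cases i
      · exact key 4096 (n + 1) 256 1 256 1 12544 256 256 (by omega) (by norm_num) (by norm_num) (by norm_num)
          (fun x y t => by have hi' : cls 0 = false := hi; simp [coX', hi', yy, Fin.prod_univ_three])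
      · exact key 256 1 4096 (n + 1) 256 1 256 12544 256 (by norm_num) (by omega) (by norm_num) (by norm_num)
          (fun x y t => by have hi' : cls 1 = false := hi; simp [coX', hi', yy, Fin.prod_univ_three]; ring)
      · exact key 256 1 256 1 4096 (n + 1) 256 256 12544 (by norm_num) (by norm_num) (by omega) (by norm_num)
          (fun x y t => by have hi' : cls 2 = false := hi; simp [coX', hi', yy, Fin.prod_univ_three]; ring)

/-- the slope -/
theorem slp_spec (hh : ℕ) : slp hh ≤ 65 ∧ (slp hh ≠ 0 → hh < 65536 ∧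
    (1048576 : ℝ) ≤ (slp hh : ℝ) * (65536 - hh)) := by
  unfold slp
  rw [sel_eq]
  split
  · rename_i h1
    have h2 : hh ≤ 49152 := Nat.le_of_ble_eq_true h1
    have h3 : Nat.sub 65536 hh = 65536 - hh := rfl
    rw [h3]
    have h4 : 16384 ≤ 65536 - hh := by omega
    constructor
    · have h5 : 1048576 / (65536 - hh) ≤ 1048576 / 16384 := Nat.div_le_div_left h4 (by norm_num)
      have h6 : 1048576 / 16384 = 64 := by norm_num
      show 1048576 / (65536 - hh) + 1 ≤ 65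
      omega
    · intro _
      refine ⟨by omega, ?_⟩
      have h5 := Pool.Agent.Helper80.TK.lt_div_succ_mul 1048576 (65536 - hh) (by omega)
      rw [Nat.cast_sub (by omega)] at h5
      push_cast at h5
      show (1048576 : ℝ) ≤ ((1048576 / (65536 - hh) + 1 : ℕ) : ℝ) * (65536 - hh)
      push_cast
      exact h5.le
  · exact ⟨by norm_num, fun h => absurd rfl h⟩

/-- **the priority row** -/
theorem isD_chX (H : HS W E cls d c s h lab) {hh : ℕ} (h1 : 65536 * h ≤ hh) (k : Fin 3) (hk : cls k = true)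
    {z1 z2 z3' y y' : ℕ} (l1 : lab (pt z1) = 1) (l2 : lab (pt z2) = 2) (l3 : lab (pt z3') = 3)
    (l0 : lab (pt y) = 0) (l4 : lab (pt y') = 4) :
    IsD E (oneD (Nat.add (chC (cls 0) (cls 1) (cls 2) k z1 z2 z3' y)
      (chX (cls 0) (cls 1) (cls 2) (slp hh) z1 z2 z3' y'))) := by
  obtain ⟨s1, s2⟩ := slp_spec hh
  revert s1 s2
  generalize slp hh = m
  intro s1 s2
  have g := pv_chC (E := E) k hk z1 z2 z3' y
  have x0 := pv_facX (pq_fct E.F 0 z1 y') cls 0 m s1
  have x1 := pv_facX (pq_fct E.F 1 z2 y') cls 1 m s1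
  have x2 := pv_facX (pq_fct E.F 2 z3' y') cls 2 m s1
  unfold chX
  rw [fct_eq, fct_eq, fct_eq]
  refine (g.add (x0.add (x1.add x2))).fact (by norm_num) (by norm_num) (by norm_num) ?_ ?_
  · rw [yy_ty H]
    have e1 : (Fin.succ 0 : Fin 4) = 1 := rfl
    have e2 : (Fin.succ 1 : Fin 4) = 2 := rfl
    have e3 : (Fin.succ 2 : Fin 4) = 3 := rfl
    rw [e1, e2, e3]
    rcases Nat.eq_zero_or_pos m with h0 | h0
    · -- no slope
      have h2 := Pool.Agent.Helper21.TK.kr_CD H.K hk (a := fun _ => 0) (m := fun _ => 0)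
        (fun i hi => by
          have := mul_nonneg (H.K.ks.c0 i) (by linarith [H.K.ks.d1 i] : 0 ≤ 1 - d i)
          simpa using this)
        (z := ![pt z1, pt z2, pt z3']) (y := pt y) (y' := pt y')
        (fun i => by fin_cases i; exacts [l1, l2, l3]) l0 l4
      have h3 := mul_nonneg (by norm_num : (0 : ℝ) ≤ 2 ^ 28) h2
      rw [Finset.mul_sum, Fin.sum_univ_three, e1, e2, e3] at h3
      simp only [Matrix.cons_val_zero, Matrix.cons_val_one, Matrix.cons_val] at h3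
      have q0 := Pool.Agent.Helper21.TK.fC_int hk 0 d
      have q1 := Pool.Agent.Helper21.TK.fC_int hk 1 d
      have q2 := Pool.Agent.Helper21.TK.fC_int hk 2 d
      have r : ∀ i, 2 ^ 28 * Pool.Agent.Helper21.TK.gC cls (fun _ => 0) (fun _ => 0) i d = coX' cls m i (ty d) := by
        intro i
        cases hi : cls i with
        | true =>
          rw [Pool.Agent.Helper21.TK.gC_int_A hi]
          simp [coX', hi]
        | false =>
          simp [coX', hi, h0, Pool.Agent.Helper21.TK.gC]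
      have r0 := r 0
      have r1 := r 1
      have r2 := r 2
      rw [← q0, ← q1, ← q2, ← r0, ← r1, ← r2]
      linarith
    · obtain ⟨s3, s4⟩ := s2 (by omega)
      have h2 := kr_CD_int H.K hk h1 (b := (m : ℝ)) (by exact_mod_cast s3) s4
        (z := ![pt z1, pt z2, pt z3']) (y := pt y) (y' := pt y')
        (fun i => by fin_cases i; exacts [l1, l2, l3]) l0 l4
      rw [Fin.sum_univ_three, e1, e2, e3] at h2
      simp only [Matrix.cons_val_zero, Matrix.cons_val_one, Matrix.cons_val] at h2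
      have r : ∀ i, coX cls (m : ℝ) i d = coX' cls m i (ty d) := by
        intro i
        unfold coX coX'
        by_cases hi : cls i = true
        · rw [if_pos hi, if_pos hi]
        · rw [if_neg hi, if_neg hi, if_neg (by omega)]
          have : (256 : ℝ) - ty d i = 256 * d i := by unfold ty; ring
          rw [this]
      rw [r, r, r] at h2
      linarith
  · simp [z3]

end

end Pool.Agent.Helper80.KD
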