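import Mathlib
import Pool.Agent.Helper80.KD.RuleT
import Pool.Agent.Helper80.KD.Leaf

/-!
# The width facts are correct
-/

set_option autoImplicit false

namespace Pool.Agent.Helper80.KD

open Finset
open Pool.Agent.Helper28.TP (Ivl InBox nth)
open Pool.Agent.Helper80.TP (IM RD pr Item force force_eq Vc vc VR vr_vc vI nthK nthK_eq R9 R9_pos YY Seven)
open Pool.Agent.Helper80.TK (pm toM kC kM Pk VP yv sel sel_eq hlF sAF sBF hhF deadF mI pk_pm pk_pmM pk_kC pk_kM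
  KR gz dd cc Adm InB)
open Pool.Agent.Helper21.TK (mt)

theorem pd_mono {P : ℕ} {X Y : IM} {κ υ : ℤ} {p : ℕ} (hP : Pk P X κ Y υ p) (m : ℕ) (hm : m < 8) :
    PD (sh P m) (fun j a b => mo m j * X a b) (fun j => mo m j * κ) (fun j a b => mo m j * Y a b)
      (fun j => mo m j * υ) p := by
  refine ⟨fun j => if j = m then P else 0, ?_, ?_⟩
  · rw [sh_eq, Finset.sum_eq_single_of_mem m (Finset.mem_range.2 hm)]
    · simp
    · intro j _ hj
      simp [hj]
  · intro j hj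
    by_cases h : j = m
    · subst h
      simpa [mo] using hP
    · simp only [h, if_false, mo, zero_mul]
      exact pk_zero p

theorem PD.mono {N : ℕ} {C : ℕ → IM} {k : ℕ → ℤ} {M : ℕ → IM} {u : ℕ → ℤ} {p q : ℕ} (hpq : p ≤ q)
    (h : PD N C k M u p) : PD N C k M u q := by
  obtain ⟨P, h1, h2⟩ := h
  exact ⟨P, h1, fun m hm => pk_mono hpq (h2 m hm)⟩

theorem sh_zero (n : ℕ) : sh n 0 = n := by
  rw [sh_eq]; simp

theorem ind_eq (i w : ℕ) : ind i w = if i = 0 ∨ i = w then 1 else 0 := by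
  cases i with
  | zero => rfl
  | succ i =>
    have e : ind (i + 1) w = @Bool.rec (fun _ => Nat) 0 1 (Nat.beq (i + 1) w) := rfl
    rw [e]
    cases hb : Nat.beq (i + 1) w with
    | true =>
      have := Nat.eq_of_beq_eq_true hb
      rw [if_pos (Or.inr this)]
    | false =>
      have : i + 1 ≠ w := Nat.ne_of_beq_eq_false hb
      rw [if_neg]
      rintro (h | h)
      · exact absurd h (Nat.succ_ne_zero _)
      · exact this h

theorem ind_le (i w : ℕ) : ind i w ≤ 1 := by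
  rw [ind_eq]; split <;> omega

/-- the row `r` of the vertex `(i, t)`, coefficient of the monomial `m` -/
noncomputable def cX (i t : Fin 4) (m : ℕ) (r : Fin 3) : ℤ :=
  mo 0 m * (256 * (ind i ((r : ℕ) + 1) : ℤ)) +
    (if t = i then 0 else mo (mn3 i) m * ((ind t ((r : ℕ) + 1) : ℤ) - ind i ((r : ℕ) + 1)))

/-- the matrices of the width fact -/
noncomputable def wX (i t j t' : Fin 4) (x : Fin 3 → ℤ) (m : ℕ) : IM :=
  fun r k => (cX i t m r - cX j t' m r) * x k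

theorem pd_dff {v : Vc} {x : Fin 3 → ℤ} (hv : VR v x 90) (w : ℕ) (hw : w ≤ 256) (i j m : ℕ) (hm : m < 8) :
    PD (sh (dff v w i j) m) (fun _ _ _ => 0) (fun _ => 0)
      (fun n r k => mo m n * (((w * ind i ((r : ℕ) + 1) : ℕ) : ℤ) - ((w * ind j ((r : ℕ) + 1) : ℕ) : ℤ)) * x k)
      (fun _ => 0) (512 * 90) := by
  have h1 := pk_pmM hv (fun r : Fin 3 => w * ind i ((r : ℕ) + 1)) (fun r : Fin 3 => w * ind j ((r : ℕ) + 1)) 512
    (fun r => by
      have a1 := Nat.mul_le_mul hw (ind_le i ((r : ℕ) + 1))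
      have a2 := Nat.mul_le_mul hw (ind_le j ((r : ℕ) + 1))
      exact (add_le_add a1 a2).trans (by norm_num))
  have h2 := pd_mono h1 m hm
  have e : dff v w i j = toM (pm v ((fun r : Fin 3 => w * ind i ((r : ℕ) + 1)) 0)
      ((fun r : Fin 3 => w * ind i ((r : ℕ) + 1)) 1) ((fun r : Fin 3 => w * ind i ((r : ℕ) + 1)) 2)
      ((fun r : Fin 3 => w * ind j ((r : ℕ) + 1)) 0) ((fun r : Fin 3 => w * ind j ((r : ℕ) + 1)) 1)
      ((fun r : Fin 3 => w * ind j ((r : ℕ) + 1)) 2)) := rfl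
  rw [e]
  simp only [mul_zero, mI] at h2
  have e2 : (fun (n : ℕ) (r k : Fin 3) => mo m n * (((w * ind i ((r : ℕ) + 1) : ℕ) : ℤ) -
      ((w * ind j ((r : ℕ) + 1) : ℕ) : ℤ)) * x k) = fun (n : ℕ) (r k : Fin 3) => mo m n *
      ((((w * ind i ((r : ℕ) + 1) : ℕ) : ℤ) - ((w * ind j ((r : ℕ) + 1) : ℕ) : ℤ)) * x k) := by
    funext n r k
    ring
  rw [e2]
  exact h2

theorem mn3_lt (i : Fin 4) : mn3 i < 8 := by
  fin_cases i <;> decide

theorem pd_kM : PD (kM 256) (fun _ _ _ => 0) (fun _ => 0) (fun _ _ _ => 0) (fun m => mo 0 m * 256) 1 := by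
  have hR : 256 ≤ R9 := by norm_num [R9]
  have h := pd_mono (pk_kM 256 hR) 0 (by norm_num)
  rw [sh_zero] at h
  simpa using h

/-- the number without the right side -/
noncomputable def wD (v : Vc) (i t j t' : Nat) : Nat :=
  Nat.add (dff v 256 i j)
    (Nat.add (@Bool.rec (fun _ => Nat) (wS v i t i) 0 (Nat.beq t i))
      (@Bool.rec (fun _ => Nat) (wS v j j t') 0 (Nat.beq t' j)))

theorem wN_eq (v : Vc) (i t j t' : ℕ) : wN v i t j t' = wD v i t j t' + kM 256 := by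
  unfold wN wD
  simp only [Nat.add_eq]
  omega

theorem pd_wD {v : Vc} {x : Fin 3 → ℤ} (hv : VR v x 90) (i t j t' : Fin 4) :
    PD (wD v i t j t') (fun _ _ _ => 0) (fun _ => 0) (wX i t j t' x) (fun _ => 0) (2048 * 90) := by
  have h0 := pd_dff hv 256 le_rfl i j 0 (by norm_num)
  rw [sh_zero] at h0
  have z0 : PD 0 (fun _ _ _ => 0) (fun _ => 0) (fun _ _ _ => 0) (fun _ => 0) (512 * 90) :=
    ⟨fun _ => 0, by simp, fun _ _ => pk_zero _⟩
  have h1 : PD (@Bool.rec (fun _ => Nat) (wS v i t i) 0 (Nat.beq t i)) (fun _ _ _ => 0) (fun _ => 0)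
      (fun m r k => (if t = i then 0 else mo (mn3 i) m * ((ind t ((r : ℕ) + 1) : ℤ) - ind i ((r : ℕ) + 1))) * x k)
      (fun _ => 0) (512 * 90) := by
    by_cases hti : t = i
    · subst hti
      rw [Nat.beq_refl]
      simpa using z0
    · have hb : Nat.beq t i = false := by
        cases hb : Nat.beq t i with
        | false => rfl
        | true => exact absurd (Fin.ext (Nat.eq_of_beq_eq_true hb)) hti
      rw [hb]
      simp only [hti, if_false]
      have := pd_dff hv 1 (by norm_num) t i (mn3 i) (mn3_lt i)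
      unfold wS
      simpa only [one_mul] using this
  have h2 : PD (@Bool.rec (fun _ => Nat) (wS v j j t') 0 (Nat.beq t' j)) (fun _ _ _ => 0) (fun _ => 0)
      (fun m r k => -(if t' = j then 0 else mo (mn3 j) m * ((ind t' ((r : ℕ) + 1) : ℤ) - ind j ((r : ℕ) + 1))) *
        x k) (fun _ => 0) (512 * 90) := by
    by_cases hti : t' = j
    · subst hti
      rw [Nat.beq_refl]
      simpa using z0
    · have hb : Nat.beq t' j = false := by
        cases hb : Nat.beq t' j with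
        | false => rfl
        | true => exact absurd (Fin.ext (Nat.eq_of_beq_eq_true hb)) hti
      rw [hb]
      simp only [hti, if_false]
      have := pd_dff hv 1 (by norm_num) j t' (mn3 j) (mn3_lt j)
      simp only [one_mul] at this
      have e : (fun (m : ℕ) (r k : Fin 3) => -(mo (mn3 j) m * ((ind t' ((r : ℕ) + 1) : ℤ) -
          ind j ((r : ℕ) + 1))) * x k) = fun (m : ℕ) (r k : Fin 3) => mo (mn3 j) m *
          ((ind j ((r : ℕ) + 1) : ℤ) - ind t' ((r : ℕ) + 1)) * x k := by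
        funext m r k
        ring
      rw [e]
      unfold wS
      exact this
  have h3 := (h0.add (h1.add h2)).mono (by norm_num : 512 * 90 + (512 * 90 + 512 * 90) ≤ 2048 * 90)
  have e : wX i t j t' x = fun (m : ℕ) (r k : Fin 3) => mo 0 m * (((256 * ind i ((r : ℕ) + 1) : ℕ) : ℤ) -
      ((256 * ind j ((r : ℕ) + 1) : ℕ) : ℤ)) * x k +
      ((if t = i then 0 else mo (mn3 i) m * ((ind t ((r : ℕ) + 1) : ℤ) - ind i ((r : ℕ) + 1))) * x k +
      -(if t' = j then 0 else mo (mn3 j) m * ((ind t' ((r : ℕ) + 1) : ℤ) - ind j ((r : ℕ) + 1))) * x k) := by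
    funext m r k
    unfold wX cX
    push_cast
    ring
  rw [e]
  have e0 : wD v i t j t' = dff v 256 i j +
      ((@Bool.rec (fun _ => Nat) (wS v i t i) 0 (Nat.beq t i)) +
        (@Bool.rec (fun _ => Nat) (wS v j j t') 0 (Nat.beq t' j))) := rfl
  rw [e0]
  simpa only [add_zero] using h3

/-- the parameter of `i` -/
noncomputable def tX (x y t : ℝ) : Fin 4 → ℝ := ![0, x, y, t]

/-- the vertex -/
theorem ev_cX (i a : Fin 4) (ha : i = 0 → a = 0) (r : Fin 3) (x y t : ℝ) :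
    ev (fun m => (cX i a m r : ℝ)) x y t =
      (256 - tX x y t i) * (ind i ((r : ℕ) + 1) : ℕ) + tX x y t i * (ind a ((r : ℕ) + 1) : ℕ) := by
  have h : i ≠ 0 ∨ a = 0 := by
    by_cases h0 : i = 0
    · exact Or.inr (ha h0)
    · exact Or.inl h0
  fin_cases i
  · have ha0 : a = 0 := ha rfl
    subst ha0
    simp [cX, ev, mo, tX, ind_eq]
  all_goals
    fin_cases a <;> fin_cases r <;> simp [cX, ev, mo, mn3, tX, ind_eq] <;> ring

/-- the value in terms of `g` -/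
theorem ind_gz (i : Fin 4) (r : Fin 3) : ((ind i ((r : ℕ) + 1) : ℕ) : ℝ) = ((gz i r : ℝ) + 1) / 2 := by
  rw [ind_eq]
  fin_cases i <;> fin_cases r <;> simp [gz]

theorem evI_cX (i a : Fin 4) (ha : i = 0 → a = 0) (r : Fin 3) (x₁ x₂ x₃ : ℤ) :
    ev (fun m => cX i a m r) x₁ x₂ x₃ =
      (256 - (![0, x₁, x₂, x₃] : Fin 4 → ℤ) i) * (ind i ((r : ℕ) + 1) : ℕ) +
        (![0, x₁, x₂, x₃] : Fin 4 → ℤ) i * (ind a ((r : ℕ) + 1) : ℕ) := by
  have h := ev_cX i a ha r (x₁ : ℝ) x₂ x₃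
  rw [← ev_cast] at h
  have e : tX (x₁ : ℝ) x₂ x₃ i = (((![0, x₁, x₂, x₃] : Fin 4 → ℤ) i : ℤ) : ℝ) := by
    fin_cases i <;> simp [tX]
  rw [e] at h
  exact_mod_cast h

theorem evI_wX (i t j t' : Fin 4) (x : Fin 3 → ℤ) (x₁ x₂ x₃ : ℤ) (r k : Fin 3) :
    evI (wX i t j t' x) x₁ x₂ x₃ r k =
      (ev (fun m => cX i t m r) x₁ x₂ x₃ - ev (fun m => cX j t' m r) x₁ x₂ x₃) * x k := by
  have h : ∀ (c d : ℕ → ℤ) (y : ℤ), ev (fun m => (c m - d m) * y) x₁ x₂ x₃ =
      (ev c x₁ x₂ x₃ - ev d x₁ x₂ x₃) * y := by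
    intro c d y
    rw [ev_mul]
    congr 1
    have h1 : ((ev (fun m => c m - d m) x₁ x₂ x₃ : ℤ) : ℝ) = ((ev c x₁ x₂ x₃ - ev d x₁ x₂ x₃ : ℤ) : ℝ) := by
      rw [ev_cast]
      push_cast
      rw [ev_cast, ev_cast]
      unfold ev
      ring
    exact_mod_cast h1
  exact h _ _ _

/-- **the fact of a pair of vertices** -/
theorem sd_wC {E : RD} {v : Vc} {x : Fin 3 → ℤ} (hv : VR v x 90) (hx : ∀ k, |x k| ≤ 15) (i t j t' : Fin 4)
    (h0 : i = 0 → t = 0) (h0' : j = 0 → t' = 0)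
    (h : 2 * E.om ≤ ((1 - tX (E.c 0) (E.c 1) (E.c 2) i) * yv E.G i x + tX (E.c 0) (E.c 1) (E.c 2) i * yv E.G t x) -
      ((1 - tX (E.c 0) (E.c 1) (E.c 2) j) * yv E.G j x + tX (E.c 0) (E.c 1) (E.c 2) j * yv E.G t' x)) :
    SD E (oneD (wN v i t j t')) 1 (fun _ _ _ => 0) (fun _ => 0) (wX i t j t' x) (fun m => mo 0 m * 256) := by
  have h1 := (pd_wD hv i t j t').add pd_kM
  rw [← wN_eq] at h1
  simp only [add_zero, zero_add] at h1
  have hz : ∀ a b c : ℤ, ev (fun _ => (0 : ℤ)) a b c = 0 := fun a b c => ev_zero a b c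
  have hmo : ∀ a b c : ℤ, ev (fun m => mo 0 m * 256) a b c = 256 := by
    intro a b c
    have h1 : ((ev (fun m => mo 0 m * 256) a b c : ℤ) : ℝ) = ((256 : ℤ) : ℝ) := by
      rw [ev_cast]
      simp [ev, mo]
    exact_mod_cast h1
  refine ⟨h1.rp (by norm_num) ?_, ?_, ?_⟩
  · intro x₁ x₂ x₃ hx1 hx2 hx3
    refine ⟨fun r k => ?_, ?_, fun r k => ?_, ?_⟩
    · have : evI (fun _ _ _ => (0 : ℤ)) (x₁ : ℤ) x₂ x₃ r k = 0 := hz _ _ _
      rw [this]
      norm_num
    · rw [hz]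
      norm_num
    · rw [evI_wX, evI_cX i t h0, evI_cX j t' h0']
      have hr : ∀ i : Fin 4, 0 ≤ (![0, (x₁ : ℤ), x₂, x₃] : Fin 4 → ℤ) i ∧
          (![0, (x₁ : ℤ), x₂, x₃] : Fin 4 → ℤ) i ≤ 256 := by
        intro i
        fin_cases i
        · simp
        · simp; exact hx1
        · simp; exact hx2
        · simp; exact hx3
      have hi : ∀ i w : ℕ, (0 : ℤ) ≤ (ind i w : ℕ) ∧ ((ind i w : ℕ) : ℤ) ≤ 1 := fun i w =>
        ⟨Nat.cast_nonneg _, by exact_mod_cast ind_le i w⟩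
      have hv : ∀ (a b s : ℤ), 0 ≤ s → s ≤ 256 → 0 ≤ a → a ≤ 1 → 0 ≤ b → b ≤ 1 →
          0 ≤ (256 - s) * a + s * b ∧ (256 - s) * a + s * b ≤ 256 := by
        intro a b s s0 s1 a0 a1 b0 b1
        have e1 := mul_le_mul_of_nonneg_left a1 (by linarith : 0 ≤ 256 - s)
        have e2 := mul_le_mul_of_nonneg_left b1 s0
        have e3 := mul_nonneg (by linarith : 0 ≤ 256 - s) a0
        have e4 := mul_nonneg s0 b0
        constructor <;> linarith
      have a1 := hv _ _ _ (hr i).1 (hr i).2 (hi i ((r : ℕ) + 1)).1 (hi i ((r : ℕ) + 1)).2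
        (hi t ((r : ℕ) + 1)).1 (hi t ((r : ℕ) + 1)).2
      have a2 := hv _ _ _ (hr j).1 (hr j).2 (hi j ((r : ℕ) + 1)).1 (hi j ((r : ℕ) + 1)).2
        (hi t' ((r : ℕ) + 1)).1 (hi t' ((r : ℕ) + 1)).2
      rw [abs_mul]
      have a3 : ∀ p q : ℤ, 0 ≤ p → p ≤ 256 → 0 ≤ q → q ≤ 256 → |p - q| ≤ 256 := by
        intro p q p0 p1 q0 q1
        rw [abs_le]
        constructor <;> linarith
      refine (mul_le_mul (a3 _ _ a1.1 a1.2 a2.1 a2.2) (hx k) (abs_nonneg _) (by norm_num)).trans ?_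
      norm_num
    · rw [hmo]
      norm_num
  · have e1 : (fun _ : ℕ => pr E.F (fun _ _ => 0)) = fun _ => (0 : ℝ) := by
      funext _
      rw [pr_zero]
    rw [e1]
    simp [ev]
  · have e1 : (fun m => ((mo 0 m * 256 : ℤ) : ℝ)) = fun m => ((mo 0 m : ℤ) : ℝ) * 256 := by
      funext m
      push_cast
      ring
    rw [e1]
    have e2 : ev (fun m => ((mo 0 m : ℤ) : ℝ) * 256) (256 * E.c 0) (256 * E.c 1) (256 * E.c 2) = 256 := by
      simp [ev, mo]
    rw [e2]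
    have e3 : ∀ m, pr E.G (wX i t j t' x m) = ∑ r : Fin 3, ((cX i t m r : ℝ) - cX j t' m r) *
        ∑ k : Fin 3, E.G r k * x k := by
      intro m
      unfold pr wX
      refine Finset.sum_congr rfl fun r _ => ?_
      rw [Finset.mul_sum]
      refine Finset.sum_congr rfl fun k _ => ?_
      push_cast
      ring
    have e4 : ∀ y₁ y₂ y₃ : ℝ, ev (fun m => pr E.G (wX i t j t' x m)) y₁ y₂ y₃ =
        ∑ r : Fin 3, (ev (fun m => (cX i t m r : ℝ)) y₁ y₂ y₃ - ev (fun m => (cX j t' m r : ℝ)) y₁ y₂ y₃) *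
          ∑ k : Fin 3, E.G r k * x k := by
      intro y₁ y₂ y₃
      simp only [e3]
      simp only [Fin.sum_univ_three]
      unfold ev
      ring
    rw [e4]
    simp only [ev_cX i t h0, ev_cX j t' h0', ind_gz]
    have e5 : ∀ i : Fin 4, tX (256 * E.c 0) (256 * E.c 1) (256 * E.c 2) i = 256 * tX (E.c 0) (E.c 1) (E.c 2) i := by
      intro i
      fin_cases i <;> simp [tX]
    simp only [e5]
    rw [yv_eq, yv_eq, yv_eq, yv_eq] at h
    simp only [Fin.sum_univ_three] at h ⊢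
    nlinarith [h]

end Pool.Agent.Helper80.KD
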