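import Mathlib
import Pool.Agent.Helper80.KD.Wid
import Pool.Agent.Helper21.TK.Wt

/-!
# The rules are correct
-/

set_option autoImplicit false

namespace Pool.Agent.Helper80.KD

open Finset
open Pool.Agent.Helper28.TP (Ivl InBox nth nth_mem)
open Pool.Agent.Helper80.TP (IM RD pr Item force force_eq Vc vc VR vr_vc vI nthK nthK_eq R9 R9_pos YY Seven)
open Pool.Agent.Helper80.TK (pm toM kC kM Pk VP yv sel sel_eq hlF sAF sBF hhF deadF mI KR gz dd cc Adm InB
  le_hh dead_false)
open Pool.Agent.Helper21.TK (mt tab HT w_node)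

/-- when an item holds -/
def okI (W : ℝ) (E : RD) (cls : Fin 3 → Bool) (d : Fin 3 → ℝ) (lab : (Fin 3 → ℤ) → Fin 5) : Item → Prop
  | .f n => IsD E n
  | .t n => TagOK W E.G cls d lab n

/-- `cls` at a number -/
theorem bsel_true {b1 b2 b3 : Bool} {k : ℕ} (h : bsel b1 b2 b3 k = true) :
    ∃ i : Fin 3, k = i ∧ (![b1, b2, b3] : Fin 3 → Bool) i = true := by
  rcases k with _ | _ | _ | k
  · exact ⟨0, rfl, h⟩
  · exact ⟨1, rfl, h⟩
  · exact ⟨2, rfl, h⟩
  · exact Bool.noConfusion (show false = true from h)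

theorem an_true {a b : Bool} (h : an a b = true) : a = true ∧ b = true := by
  cases a with
  | false => exact Bool.noConfusion (show false = true from h)
  | true => exact ⟨rfl, h⟩

section

variable {W : ℝ} {E : RD} {cls : Fin 3 → Bool} {d c s : Fin 3 → ℝ} {h : ℝ} {lab : (Fin 3 → ℤ) → Fin 5}
  {env : List Item}

/-- the label of a tag -/
theorem tag_lab {n L : ℕ} (hn : TagOK W E.G cls d lab n) (h16 : n % 16 = 2 * L) :
    ((lab (pt (n / 16)) : Fin 5) : ℕ) = L % 8 := by
  have h1 := hn.1 (by omega)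
  rw [h1]
  omega

theorem lab_eq {z : Fin 3 → ℤ} {L : ℕ} {i : Fin 5} (h : ((lab z : Fin 5) : ℕ) = L % 8) (hi : (i : ℕ) = L % 8) :
    lab z = i := Fin.ext (by rw [h, hi])

/-- a successful reading of a label tag -/
theorem lt_some {α : Type} (henv : ∀ i ∈ env, okI W E cls d lab i) {i L : ℕ} {k : ℕ → Option α} {r : α}
    {a : Fin 5} (ha : (a : ℕ) = L % 8) (hr : lt env i L k none = some r) :
    ∃ z, lab (pt z) = a ∧ k z = some r := by
  rcases lt_cases env i L k none with h1 | ⟨n, hn, h16, h1⟩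
  · rw [h1] at hr
    exact absurd hr (by simp)
  · rw [h1] at hr
    exact ⟨n / 16, lab_eq (tag_lab (henv _ hn) h16) ha, hr⟩

theorem oneF_some {N : ℕ} {r : List (List Item)} (h : oneF N = some r) : r = [[Item.f N]] := by
  have : some r = some [[Item.f N]] := h.symm
  exact Option.some.inj this

theorem one_ok {N : ℕ} {r : List (List Item)} (h : oneF N = some r) (hN : IsD E N) :
    ∃ l ∈ r, ∀ i ∈ l, okI W E cls d lab i := by
  rw [oneF_some h]
  refine ⟨_, List.mem_singleton.2 rfl, fun i hi => ?_⟩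
  rw [List.mem_singleton.1 hi]
  exact hN

theorem vec_cls (cls : Fin 3 → Bool) : (![cls 0, cls 1, cls 2] : Fin 3 → Bool) = cls := by
  funext i
  fin_cases i <;> rfl

theorem chainC_ok (H : HS W E cls d c s h lab) (henv : ∀ i ∈ env, okI W E cls d lab i) {x : ℕ}
    {r : List (List Item)} (hr : chainC (cls 0) (cls 1) (cls 2) env x = some r) :
    ∃ l ∈ r, ∀ i ∈ l, okI W E cls d lab i := by
  unfold chainC at hr
  rw [force_eq] at hr
  cases hb : bsel (cls 0) (cls 1) (cls 2) (Nat.shiftRight x 32) with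
  | false =>
    rw [hb] at hr
    exact absurd hr (by simp)
  | true =>
    rw [hb] at hr
    obtain ⟨k, hk, hk'⟩ := bsel_true hb
    rw [vec_cls] at hk'
    rw [hk] at hr
    obtain ⟨z1, l1, hr⟩ := lt_some henv (a := 1) (by decide) hr
    obtain ⟨z2, l2, hr⟩ := lt_some henv (a := 2) (by decide) hr
    obtain ⟨z3, l3, hr⟩ := lt_some henv (a := 3) (by decide) hr
    obtain ⟨y, l0, hr⟩ := lt_some henv (a := 0) (by decide) hr
    exact one_ok hr (isD_chC H k hk' l1 l2 l3 l0)

theorem chainD_ok (H : HS W E cls d c s h lab) (henv : ∀ i ∈ env, okI W E cls d lab i) {x hh : ℕ}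
    (h1 : 65536 * h ≤ hh) (h65 : hh ≤ 65536)
    {r : List (List Item)} (hr : chainD (cls 0) (cls 1) (cls 2) hh env x = some r) :
    ∃ l ∈ r, ∀ i ∈ l, okI W E cls d lab i := by
  unfold chainD at hr
  simp only [force_eq] at hr
  revert hr
  generalize Nat.mod (Nat.shiftRight x 32) 1048576 = L1
  generalize Nat.mod (Nat.shiftRight x 52) 1048576 = L2
  generalize Nat.mod (Nat.shiftRight x 72) 1048576 = L3
  intro hr
  cases hb : an (Nat.ble 1 hh) (an (lnT (cls 0) hh L1) (an (lnT (cls 1) hh L2) (lnT (cls 2) hh L3))) with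
  | false =>
    rw [hb] at hr
    exact absurd hr (by simp)
  | true =>
    rw [hb] at hr
    obtain ⟨b0, hb⟩ := an_true hb
    obtain ⟨b1, hb⟩ := an_true hb
    obtain ⟨b2, b3⟩ := an_true hb
    have h0 : 1 ≤ hh := Nat.le_of_ble_eq_true b0
    obtain ⟨z1, l1, hr⟩ := lt_some henv (a := 1) (by decide) hr
    obtain ⟨z2, l2, hr⟩ := lt_some henv (a := 2) (by decide) hr
    obtain ⟨z3, l3, hr⟩ := lt_some henv (a := 3) (by decide) hr
    obtain ⟨y, l0, hr⟩ := lt_some henv (a := 4) (by decide) hr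
    refine one_ok hr (isD_chD H (fun i hi => ?_) l1 l2 l3 l0)
    fin_cases i
    · exact lnT_spec H h1 h65 h0 0 hi L1 b1
    · exact lnT_spec H h1 h65 h0 1 hi L2 b2
    · exact lnT_spec H h1 h65 h0 2 hi L3 b3

theorem chainX_ok (H : HS W E cls d c s h lab) (henv : ∀ i ∈ env, okI W E cls d lab i) {x hh : ℕ}
    (h1 : 65536 * h ≤ hh)
    {r : List (List Item)} (hr : chainX (cls 0) (cls 1) (cls 2) hh env x = some r) :
    ∃ l ∈ r, ∀ i ∈ l, okI W E cls d lab i := by
  unfold chainX at hr
  simp only [force_eq] at hr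
  cases hb : bsel (cls 0) (cls 1) (cls 2) (Nat.shiftRight x 40) with
  | false =>
    rw [hb] at hr
    exact absurd hr (by simp)
  | true =>
    rw [hb] at hr
    obtain ⟨k, hk, hk'⟩ := bsel_true hb
    rw [vec_cls] at hk'
    rw [hk] at hr
    obtain ⟨z1, l1, hr⟩ := lt_some henv (a := 1) (by decide) hr
    obtain ⟨z2, l2, hr⟩ := lt_some henv (a := 2) (by decide) hr
    obtain ⟨z3, l3, hr⟩ := lt_some henv (a := 3) (by decide) hr
    obtain ⟨y, l0, hr⟩ := lt_some henv (a := 0) (by decide) hr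
    obtain ⟨y', l4, hr⟩ := lt_some henv (a := 4) (by decide) hr
    exact one_ok hr (isD_chX H h1 k hk' l1 l2 l3 l0 l4)

theorem rowF_ok (H : HS W E cls d c s h lab) (henv : ∀ i ∈ env, okI W E cls d lab i) (i : Fin 3) {z x : ℕ}
    (lz : lab (pt z) = i.succ.castSucc)
    {r : List (List Item)} (hr : rowF i env z x = some r) :
    ∃ l ∈ r, ∀ i ∈ l, okI W E cls d lab i := by
  unfold rowF at hr
  rcases lt_cases env x 0 (fun y => oneF (oneD (rw3 i z y)))
    (lt env x 4 (fun y => oneF (oneD (rw3 i z y))) none) with h1 | ⟨n, hn, h16, h1⟩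
  · rw [h1] at hr
    obtain ⟨y, l0, hr⟩ := lt_some henv (a := 4) (by decide) hr
    exact one_ok hr (isD_rw H i lz (Or.inr l0))
  · rw [h1] at hr
    exact one_ok hr (isD_rw H i lz (Or.inl (lab_eq (tag_lab (henv _ hn) h16) (by decide))))

theorem rowsF_ok (H : HS W E cls d c s h lab) (henv : ∀ i ∈ env, okI W E cls d lab i) {x : ℕ}
    {r : List (List Item)} (hr : rowsF env x = some r) :
    ∃ l ∈ r, ∀ i ∈ l, okI W E cls d lab i := by
  unfold rowsF at hr
  revert hr
  generalize Nat.mod x 256 = m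
  generalize Nat.mod (Nat.shiftRight x 8) 256 = y
  intro hr
  rcases lt_cases env m 1 (fun z => rowF 0 env z y)
    (lt env m 2 (fun z => rowF 1 env z y) (lt env m 3 (fun z => rowF 2 env z y) none)) with
    h1 | ⟨n, hn, h16, h1⟩
  · rw [h1] at hr
    rcases lt_cases env m 2 (fun z => rowF 1 env z y) (lt env m 3 (fun z => rowF 2 env z y) none) with
      h2 | ⟨n, hn, h16, h2⟩
    · rw [h2] at hr
      obtain ⟨z, l0, hr⟩ := lt_some henv (a := 3) (by decide) hr
      exact rowF_ok H henv 2 l0 hr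
    · rw [h2] at hr
      exact rowF_ok H henv 1 (lab_eq (i := 2) (tag_lab (henv _ hn) h16) (by decide)) hr
  · rw [h1] at hr
    exact rowF_ok H henv 0 (lab_eq (i := 1) (tag_lab (henv _ hn) h16) (by decide)) hr

/-! ### the width -/

/-- the meaning of a width tag -/
theorem tag_of_HT {e f u : ℕ} (he : e < 16) (hf : f < 16)
    (hT : HT W cls d (fun w => yv E.G w (pt u)) e f) :
    TagOK W E.G cls d lab (2 * (e + 16 * f + 256 * u) + 1) := by
  refine ⟨fun h => by omega, fun _ => ?_⟩
  obtain ⟨i, j, a, b, hv, h1, h2⟩ := hT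
  have e1 : (2 * (e + 16 * f + 256 * u) + 1) / 512 = u := by omega
  have e2 : (2 * (e + 16 * f + 256 * u) + 1) / 2 % 16 = e := by omega
  have e3 : (2 * (e + 16 * f + 256 * u) + 1) / 32 % 16 = f := by omega
  rw [e1, e2, e3]
  exact ⟨i, j, a, b, hv, h1, h2⟩

theorem HT_of_tag {n : ℕ} (hn : TagOK W E.G cls d lab n) (h1 : n % 2 = 1) :
    HT W cls d (fun w => yv E.G w (pt (n / 512))) (n / 2 % 16) (n / 32 % 16) := hn.2 h1

theorem full_spec {c : ℕ} (h : full c = true) : c % 16 ≠ 4 ∧ c / 16 ≠ 4 := by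
  unfold full at h
  have e1 : Nat.shiftRight c 4 = c / 16 := Nat.shiftRight_eq_div_pow c 4
  rw [e1] at h
  constructor
  · intro h1
    have h2 : Nat.beq (Nat.mod c 16) 4 = true := by
      have : Nat.mod c 16 = 4 := h1
      rw [this]
      rfl
    rw [h2] at h
    exact Bool.noConfusion (show false = true from h)
  · intro h1
    rw [h1] at h
    cases hb : Nat.beq (Nat.mod c 16) 4 with
    | true =>
      rw [hb] at h
      exact Bool.noConfusion (show false = true from h)
    | false =>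
      rw [hb] at h
      exact Bool.noConfusion (show false = true from h)

/-- the fact of a code -/
theorem wC_ok (H : HS W E cls d c s h lab) {v : Vc} {u : ℕ} (hv : VR v (pt u) 90) {cd : ℕ} (_hcd : cd < 256)
    (hT : HT W cls d (fun w => yv E.G w (pt u)) (cd % 16) (cd / 16)) (h4 : cd % 16 ≠ 4) (h4' : cd / 16 ≠ 4) :
    IsD E (wC v cd) := by
  obtain ⟨i, j, a, b, hvp, m1, m2⟩ := hT
  have n1 := m1.resolve_left h4
  have n2 := m2.resolve_left h4'
  obtain ⟨hadm, y1, y2, y3⟩ := hvp
  obtain ⟨-, q1, -, q3, -, -⟩ := hadm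
  have hd : ∀ i : Fin 4, tX (E.c 0) (E.c 1) (E.c 2) i = dd d i := by
    intro i
    rw [H.e0, H.e1, H.e2]
    fin_cases i <;> rfl
  have hd0 : ∀ i, 0 ≤ dd d i := Pool.Agent.Helper21.TK.dd_nonneg H.K.ks.d0
  -- the second numbers
  obtain ⟨t, ht, ht1, ht0⟩ : ∃ t : Fin 4, cd % 16 / 4 = t ∧ (t = i ∨ t = a) ∧ (i = 0 → t = 0) := by
    rcases n1.2 with e | e
    · exact ⟨i, e, Or.inl rfl, fun h => h⟩
    · exact ⟨a, e, Or.inr rfl, q1⟩
  obtain ⟨t', ht', ht1', ht0'⟩ : ∃ t' : Fin 4, cd / 16 / 4 = t' ∧ (t' = j ∨ t' = b) ∧ (j = 0 → t' = 0) := by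
    rcases n2.2 with e | e
    · exact ⟨j, e, Or.inl rfl, fun h => h⟩
    · exact ⟨b, e, Or.inr rfl, q3⟩
  have e1 : Nat.mod cd 4 = i := by
    have : Nat.mod cd 4 = cd % 4 := rfl
    rw [this, ← n1.1]
    omega
  have e2 : Nat.mod (Nat.shiftRight cd 2) 4 = t := by
    have : Nat.mod (Nat.shiftRight cd 2) 4 = cd / 4 % 4 := by
      rw [show Nat.shiftRight cd 2 = cd / 4 from Nat.shiftRight_eq_div_pow cd 2]; rfl
    rw [this, ← ht]
    omega
  have e3 : Nat.mod (Nat.shiftRight cd 4) 4 = j := by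
    have : Nat.mod (Nat.shiftRight cd 4) 4 = cd / 16 % 4 := by
      rw [show Nat.shiftRight cd 4 = cd / 16 from Nat.shiftRight_eq_div_pow cd 4]; rfl
    rw [this, ← n2.1]
  have e4 : Nat.shiftRight cd 6 = t' := by
    rw [show Nat.shiftRight cd 6 = cd / 64 from Nat.shiftRight_eq_div_pow cd 6, ← ht']
    omega
  unfold wC
  rw [e1, e2, e3, e4]
  refine ⟨_, _, _, _, sd_wC hv (pt_bd' u) i t j t' ht0 ht0' ?_⟩
  rw [hd, hd, H.om]
  have k1 : (1 - dd d i) * yv E.G i (pt u) + dd d i * yv E.G a (pt u) ≤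
      (1 - dd d i) * yv E.G i (pt u) + dd d i * yv E.G t (pt u) := by
    rcases ht1 with e | e
    · rw [e]
      have := mul_le_mul_of_nonneg_left y1 (hd0 i)
      simp only at this
      linarith
    · rw [e]
  have k2 : (1 - dd d j) * yv E.G j (pt u) + dd d j * yv E.G t' (pt u) ≤
      (1 - dd d j) * yv E.G j (pt u) + dd d j * yv E.G b (pt u) := by
    rcases ht1' with e | e
    · rw [e]
      have := mul_le_mul_of_nonneg_left y2 (hd0 j)
      simp only at this
      linarith
    · rw [e]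
  simp only at y3
  linarith

/-- the items of a child -/
theorem kid_ok (H : HS W E cls d c s h lab) {v : Vc} {u : ℕ} (hv : VR v (pt u) 90) {cd : ℕ} (hcd : cd < 256)
    (hT : HT W cls d (fun w => yv E.G w (pt u)) (cd % 16) (cd / 16)) (r : List (List Item)) :
    ∃ l ∈ kid v u cd r, ∀ i ∈ l, okI W E cls d lab i := by
  have htag : okI W E cls d lab (Item.t (Nat.succ (Nat.mul 2 (Nat.add cd (Nat.mul 256 u))))) := by
    have e : Nat.succ (Nat.mul 2 (Nat.add cd (Nat.mul 256 u))) = 2 * (cd % 16 + 16 * (cd / 16) + 256 * u) + 1 := by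
      have e1 : cd % 16 + 16 * (cd / 16) = cd := by omega
      rw [e1]
      simp only [Nat.succ_eq_add_one, Nat.mul_eq, Nat.add_eq]
    rw [e]
    exact tag_of_HT (by omega) (by omega) hT
  unfold kid
  rw [force_eq]
  cases hf : full cd with
  | false =>
    refine ⟨_, List.mem_cons_self, fun i hi => ?_⟩
    rw [List.mem_singleton.1 hi]
    exact htag
  | true =>
    obtain ⟨h4, h4'⟩ := full_spec hf
    have hN := wC_ok H hv hcd hT h4 h4'
    have e : (@Bool.rec (fun _ => List (List Item))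
        ([Item.t (Nat.succ (Nat.mul 2 (Nat.add cd (Nat.mul 256 u))))] :: r)
        (force (wC v cd) fun N => [Item.f N, Item.t (Nat.succ (Nat.mul 2 (Nat.add cd (Nat.mul 256 u))))] :: r)
        true) = [Item.f (wC v cd), Item.t (Nat.succ (Nat.mul 2 (Nat.add cd (Nat.mul 256 u))))] :: r := by
      show force (wC v cd) _ = _
      rw [force_eq]
    rw [e]
    refine ⟨_, List.mem_cons_self, fun i hi => ?_⟩
    rcases List.mem_cons.1 hi with h1 | h1
    · rw [h1]
      exact hN
    · rw [List.mem_singleton.1 h1]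
      exact htag

theorem kid_mono {v : Vc} {u cd : ℕ} {r : List (List Item)} {l : List Item} (h : l ∈ r) : l ∈ kid v u cd r := by
  unfold kid
  rw [force_eq]
  cases hf : full cd with
  | false => exact List.mem_cons_of_mem _ h
  | true =>
    show l ∈ force (wC v cd) _
    rw [force_eq]
    exact List.mem_cons_of_mem _ h

theorem kids_cons (ok : ℕ → Bool) (v : Vc) (u a : ℕ) (l : List ℕ) :
    kids ok v u (a :: l) = @Bool.rec (fun _ => List (List Item)) (kids ok v u l) (kid v u a (kids ok v u l))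
      (ok a) := rfl

/-- some child holds -/
theorem kids_ok (H : HS W E cls d c s h lab) {v : Vc} {u : ℕ} (hv : VR v (pt u) 90) (ok : ℕ → Bool)
    {l : List ℕ} {cd : ℕ} (hcl : cd ∈ l) (hok : ok cd = true) (hcd : cd < 256)
    (hT : HT W cls d (fun w => yv E.G w (pt u)) (cd % 16) (cd / 16)) :
    ∃ m ∈ kids ok v u l, ∀ i ∈ m, okI W E cls d lab i := by
  induction l with
  | nil => exact absurd hcl (by simp)
  | cons a l ih =>
    rw [kids_cons]
    rcases List.mem_cons.1 hcl with h1 | h1
    · subst h1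
      rw [hok]
      exact kid_ok H hv hcd hT _
    · obtain ⟨m, hm, hi⟩ := ih h1
      cases ok a with
      | false => exact ⟨m, hm, hi⟩
      | true => exact ⟨m, kid_mono hm, hi⟩

theorem vu_eta (u : ℕ) : (⟨(vu u).U, (vu u).N⟩ : Vc) = vu u := by
  generalize vu u = v
  cases v
  rfl

theorem nth_lt {α : Type} {l : List α} {n : ℕ} {a : α} (h : nth l n = some a) : n < l.length ∧ a = l.getD n a := by
  induction l generalizing n with
  | nil => cases h
  | cons b l ih =>
    cases n with
    | zero =>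
      have h1 : b = a := Option.some.inj h
      exact ⟨Nat.succ_pos _, h1.symm⟩
    | succ n =>
      obtain ⟨h1, h2⟩ := ih h
      exact ⟨Nat.succ_lt_succ h1, by rw [List.getD_cons_succ]; exact h2⟩

theorem tab_len (b1 b2 b3 : Bool) : (tab b1 b2 b3).length = 10 := by
  cases b1 <;> cases b2 <;> cases b3 <;> rfl

theorem getD_eq {α : Type} {l : List α} {n : ℕ} (h : n < l.length) (a b : α) : l.getD n a = l.getD n b := by
  rw [List.getD_eq_getElem _ _ h, List.getD_eq_getElem _ _ h]

theorem pt_zero_iff {u : ℕ} (hu : u < 4096) (h : pt u = 0) : u = 2184 := by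
  have h0 := congrFun h 0
  have h1 := congrFun h 1
  have h2 := congrFun h 2
  have e0 : pt u 0 = (g0 u : ℤ) - 8 := rfl
  have e1 : pt u 1 = (g1 u : ℤ) - 8 := rfl
  have e2 : pt u 2 = (g2 u : ℤ) - 8 := rfl
  rw [e0] at h0
  rw [e1] at h1
  rw [e2] at h2
  simp only [Pi.zero_apply] at h0 h1 h2
  have f0 : g0 u = u % 16 := rfl
  have f1 : g1 u = u / 16 % 16 := by
    show Nat.mod (Nat.shiftRight u 4) 16 = _
    rw [show Nat.shiftRight u 4 = u / 16 from Nat.shiftRight_eq_div_pow u 4]; rfl
  have f2 : g2 u = u / 256 % 16 := by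
    show Nat.mod (Nat.shiftRight u 8) 16 = _
    rw [show Nat.shiftRight u 8 = u / 256 from Nat.shiftRight_eq_div_pow u 8]; rfl
  omega

/-- the vector is not evaluated -/
theorem kids_force (ok : ℕ → Bool) (u : ℕ) (l : List ℕ) :
    (force (vu u).U fun U => force (vu u).N fun N => some (kids ok ⟨U, N⟩ u l)) =
      some (kids ok (vu u) u l) := by
  generalize vu u = v
  obtain ⟨U, N⟩ := v
  rfl

theorem wF_ok (H : HS W E cls d c s h lab) (hW : 0 ≤ W) {x : ℕ}
    {r : List (List Item)} (hr : wF (tab (cls 0) (cls 1) (cls 2)) x = some r) :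
    ∃ l ∈ r, ∀ i ∈ l, okI W E cls d lab i := by
  unfold wF at hr
  rw [nthK_eq] at hr
  cases hn : nth (tab (cls 0) (cls 1) (cls 2)) (Nat.shiftRight x 12) with
  | none =>
    rw [hn] at hr
    exact absurd hr (by simp)
  | some l =>
    rw [hn] at hr
    obtain ⟨u, hu⟩ : ∃ u, u = Nat.mod x 4096 := ⟨_, rfl⟩
    have hu4 : u < 4096 := by rw [hu]; exact Nat.mod_lt _ (by norm_num)
    rw [← hu] at hr
    have hr1 : @Bool.rec (fun _ => R) (force (vu u).U fun U => force (vu u).N fun N =>
        some (kids (fun _ => true) ⟨U, N⟩ u l)) none (Nat.beq u 2184) = some r := hr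
    rw [kids_force] at hr1
    cases hb : Nat.beq u 2184 with
    | true =>
      rw [hb] at hr1
      exact absurd hr1 (by simp)
    | false =>
      rw [hb] at hr1
      have hr' : some (kids (fun _ => true) (vu u) u l) = some r := hr1
      have hne : pt u ≠ 0 := fun h => Nat.ne_of_beq_eq_false hb (pt_zero_iff hu4 h)
      obtain ⟨hlt, hl⟩ := nth_lt hn
      obtain ⟨code, hc, hT⟩ := w_node H.K hW hne (m := Nat.shiftRight x 12)
        (by rw [← tab_len (cls 0) (cls 1) (cls 2)]; exact hlt)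
      have hlt' := hlt
      rw [tab_len] at hlt'
      have h256 := Pool.Agent.Helper21.TK.tab_lt (cls 0) (cls 1) (cls 2) ⟨_, hlt'⟩ code hc
      rw [getD_eq hlt [] l, ← hl] at hc
      have := kids_ok H (vr_vu u) (fun _ => true) hc rfl h256 hT (lab := lab)
      rw [Option.some.inj hr'] at this
      exact this

theorem okE_cmp {e f : ℕ} (h : Pool.Agent.Helper21.TK.cmp e f = true) : okE e f = true := by
  have e1 : ∀ n : ℕ, Nat.shiftRight n 2 = n / 4 := fun n => Nat.shiftRight_eq_div_pow n 2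
  have b : ∀ m n : ℕ, m = n → Nat.beq m n = true := fun m n h => by rw [h]; exact Nat.beq_refl n
  unfold okE
  rw [e1, e1]
  unfold Pool.Agent.Helper21.TK.cmp at h
  simp only [Bool.or_eq_true, Bool.and_eq_true, beq_iff_eq] at h
  cases h1 : Nat.beq e 4 with
  | true => rfl
  | false =>
    have h1' : e ≠ 4 := Nat.ne_of_beq_eq_false h1
    cases h2 : Nat.beq f 4 with
    | true => rfl
    | false =>
      have h2' : f ≠ 4 := Nat.ne_of_beq_eq_false h2
      obtain ⟨h3, h4⟩ : e % 4 = f % 4 ∧ ((e / 4 = e % 4 ∨ f / 4 = f % 4) ∨ e / 4 = f / 4) := by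
        rcases h with (h | h) | h
        · exact absurd h h1'
        · exact absurd h h2'
        · exact h
      have h5 : Nat.beq (Nat.mod e 4) (Nat.mod f 4) = true := b _ _ h3
      rw [h5]
      cases h6 : Nat.beq (e / 4) (Nat.mod e 4) with
      | true => rfl
      | false =>
        have h6' : e / 4 ≠ e % 4 := Nat.ne_of_beq_eq_false h6
        cases h7 : Nat.beq (f / 4) (Nat.mod e 4) with
        | true => rfl
        | false =>
          have h7' : f / 4 ≠ e % 4 := Nat.ne_of_beq_eq_false h7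
          have h8 : e / 4 = f / 4 := by
            rcases h4 with (h4 | h4) | h4
            · exact absurd h4 h6'
            · exact absurd (h4.trans h3.symm) h7'
            · exact h4
          exact b _ _ h8

theorem vF_ok (H : HS W E cls d c s h lab) (henv : ∀ i ∈ env, okI W E cls d lab i) {x : ℕ}
    {r : List (List Item)} (hr : vF (tab (cls 0) (cls 1) (cls 2)) env x = some r) :
    ∃ l ∈ r, ∀ i ∈ l, okI W E cls d lab i := by
  unfold vF at hr
  revert hr
  generalize Nat.mod x 256 = m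
  intro hr
  rcases tg_cases env m (fun n =>
    @Bool.rec (fun _ => R) none
      (nthK (tab (cls 0) (cls 1) (cls 2)) (Nat.shiftRight x 8) (fun l => force (Nat.shiftRight n 9) fun u =>
        force (Nat.mod (Nat.shiftRight n 1) 16) fun e => force (Nat.mod (Nat.shiftRight n 5) 16) fun f =>
        force (vu u).U fun U => force (vu u).N fun N =>
        some (kids (fun c => @Bool.rec (fun _ => Bool) false (okE f (Nat.shiftRight c 4))
          (okE e (Nat.mod c 16))) ⟨U, N⟩ u l)) none)
      (Nat.beq (Nat.mod n 2) 1)) none with h1 | ⟨n, hmem, h1⟩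
  · rw [h1] at hr
    exact absurd hr (by simp)
  · rw [h1] at hr
    cases hb : Nat.beq (Nat.mod n 2) 1 with
    | false =>
      rw [hb] at hr
      exact absurd hr (by simp)
    | true =>
      rw [hb] at hr
      have hodd : n % 2 = 1 := Nat.eq_of_beq_eq_true hb
      have hT0 := HT_of_tag (henv _ hmem) hodd
      have e1 : Nat.shiftRight n 9 = n / 512 := Nat.shiftRight_eq_div_pow n 9
      have e2 : Nat.mod (Nat.shiftRight n 1) 16 = n / 2 % 16 := by
        rw [show Nat.shiftRight n 1 = n / 2 from Nat.shiftRight_eq_div_pow n 1]; rfl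
      have e3 : Nat.mod (Nat.shiftRight n 5) 16 = n / 32 % 16 := by
        rw [show Nat.shiftRight n 5 = n / 32 from Nat.shiftRight_eq_div_pow n 5]; rfl
      rw [e1, e2, e3] at hr
      have hr' : nthK (tab (cls 0) (cls 1) (cls 2)) (Nat.shiftRight x 8) (fun l =>
        force (n / 512) fun u => force (n / 2 % 16) fun e => force (n / 32 % 16) fun f =>
        force (vu u).U fun U => force (vu u).N fun N =>
        some (kids (fun c => @Bool.rec (fun _ => Bool) false (okE f (Nat.shiftRight c 4))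
          (okE e (Nat.mod c 16))) ⟨U, N⟩ u l)) none = some r := hr
      rw [nthK_eq] at hr'
      cases hn : nth (tab (cls 0) (cls 1) (cls 2)) (Nat.shiftRight x 8) with
      | none =>
        rw [hn] at hr'
        exact absurd hr' (by simp)
      | some l =>
        rw [hn] at hr'
        have hr2 : (force (n / 512) fun u => force (n / 2 % 16) fun e => force (n / 32 % 16) fun f =>
          force (vu u).U fun U => force (vu u).N fun N =>
          some (kids (fun c => @Bool.rec (fun _ => Bool) false (okE f (Nat.shiftRight c 4))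
            (okE e (Nat.mod c 16))) ⟨U, N⟩ u l)) = some r := hr'
        rw [force_eq, force_eq, force_eq, kids_force] at hr2
        obtain ⟨hlt, hl⟩ := nth_lt hn
        have hlt' := hlt
        rw [tab_len] at hlt'
        obtain ⟨code, hc, hcmp, hT⟩ := hT0.v_node hlt'
        rw [Bool.and_eq_true] at hcmp
        have h256 := Pool.Agent.Helper21.TK.tab_lt (cls 0) (cls 1) (cls 2) ⟨_, hlt'⟩ code hc
        rw [getD_eq hlt [] l, ← hl] at hc
        have e4 : Nat.shiftRight code 4 = code / 16 := Nat.shiftRight_eq_div_pow code 4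
        have e5 : Nat.mod code 16 = code % 16 := rfl
        have := kids_ok H (vr_vu (n / 512)) (fun c => @Bool.rec (fun _ => Bool) false
          (okE (n / 32 % 16) (Nat.shiftRight c 4)) (okE (n / 2 % 16) (Nat.mod c 16))) hc
          (by
            show @Bool.rec (fun _ => Bool) false (okE (n / 32 % 16) (Nat.shiftRight code 4))
              (okE (n / 2 % 16) (Nat.mod code 16)) = true
            rw [e4, e5, okE_cmp hcmp.1, okE_cmp hcmp.2]) h256 hT (lab := lab)
        rw [Option.some.inj hr2] at this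
        exact this

theorem zF_ok {x : ℕ} {r : List (List Item)} (hr : zF x = some r) :
    ∃ l ∈ r, ∀ i ∈ l, okI W E cls d lab i := by
  have hr' : some [[Item.t (16 * x)], [Item.t (16 * x + 2)], [Item.t (16 * x + 4)], [Item.t (16 * x + 6)],
    [Item.t (16 * x + 8)]] = some r := hr
  rw [← Option.some.inj hr']
  have key : ∀ L : ℕ, L < 8 → ((lab (pt x) : Fin 5) : ℕ) = L → okI W E cls d lab (Item.t (16 * x + 2 * L)) := by
    intro L hL h1
    refine ⟨fun _ => ?_, fun h => by omega⟩
    rw [show (16 * x + 2 * L) / 16 = x by omega, h1]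
    omega
  have h5 : ((lab (pt x) : Fin 5) : ℕ) < 5 := (lab (pt x)).2
  generalize hv : ((lab (pt x) : Fin 5) : ℕ) = v at h5
  interval_cases v
  · exact ⟨[Item.t (16 * x)], by simp, fun i hi => by rw [List.mem_singleton.1 hi]; exact key 0 (by norm_num) hv⟩
  · exact ⟨[Item.t (16 * x + 2)], by simp, fun i hi => by rw [List.mem_singleton.1 hi]; exact key 1 (by norm_num) hv⟩
  · exact ⟨[Item.t (16 * x + 4)], by simp, fun i hi => by rw [List.mem_singleton.1 hi]; exact key 2 (by norm_num) hv⟩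
  · exact ⟨[Item.t (16 * x + 6)], by simp, fun i hi => by rw [List.mem_singleton.1 hi]; exact key 3 (by norm_num) hv⟩
  · exact ⟨[Item.t (16 * x + 8)], by simp, fun i hi => by rw [List.mem_singleton.1 hi]; exact key 4 (by norm_num) hv⟩

/-! ### the box -/

theorem inB_of {box : List Ivl} (H : HS W E cls d c s h lab) (hbox : InBox E.c box) {b1 b2 b3 b4 : Ivl}
    (h1 : nth box 0 = some b1) (h2 : nth box 1 = some b2) (h3 : nth box 2 = some b3) (h4 : nth box 3 = some b4) :
    InB d h b1.lo b1.hi b2.lo b2.hi b3.lo b3.hi b4.lo b4.hi := by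
  have a1 := hbox 0 b1 h1
  have a2 := hbox 1 b2 h2
  have a3 := hbox 2 b3 h3
  have a4 := hbox 3 b4 h4
  rw [H.e0] at a1
  rw [H.e1] at a2
  rw [H.e2] at a3
  rw [H.e3] at a4
  constructor
  · linarith [a1.1]
  · linarith [a1.2]
  · linarith [a2.1]
  · linarith [a2.2]
  · linarith [a3.1]
  · linarith [a3.2]
  · linarith [a4.1]
  · linarith [a4.2]

theorem box4_cases {α : Type} (box : List Ivl) (k : ℕ → ℕ → ℕ → ℕ → ℕ → ℕ → ℕ → ℕ → α) (dflt : α) :
    box4 box dflt k = dflt ∨ ∃ b1 b2 b3 b4, nth box 0 = some b1 ∧ nth box 1 = some b2 ∧ nth box 2 = some b3 ∧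
      nth box 3 = some b4 ∧ box4 box dflt k = k b1.lo b1.hi b2.lo b2.hi b3.lo b3.hi b4.lo b4.hi := by
  unfold box4
  rw [nthK_eq]
  cases h1 : nth box 0 with
  | none => exact Or.inl rfl
  | some b1 =>
    simp only [nthK_eq]
    cases h2 : nth box 1 with
    | none => exact Or.inl rfl
    | some b2 =>
      cases h3 : nth box 2 with
      | none => exact Or.inl rfl
      | some b3 =>
        cases h4 : nth box 3 with
        | none => exact Or.inl rfl
        | some b4 => exact Or.inr ⟨b1, b2, b3, b4, rfl, rfl, rfl, rfl, rfl⟩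

theorem hhF_le (sA sB h4 : ℕ) : hhF sA sB h4 ≤ 65536 := by
  unfold hhF
  rw [Pool.Agent.Helper80.TK.mn_eq, Pool.Agent.Helper80.TK.mn_eq]
  exact (min_le_right _ _).trans ((min_le_left _ _).trans (Nat.sub_le _ _))

/-- **the rules are correct** -/
theorem ruleK_ok (H : HS W E cls d c s h lab) (hW : 0 ≤ W) (henv : ∀ i ∈ env, okI W E cls d lab i)
    {box : List Ivl} (hbox : InBox E.c box) {id : ℕ} {r : List (List Item)}
    (hr : ruleK (cls 0) (cls 1) (cls 2) (tab (cls 0) (cls 1) (cls 2)) env box id = some r) :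
    ∃ l ∈ r, ∀ i ∈ l, okI W E cls d lab i := by
  unfold ruleK at hr
  rcases box4_cases box (fun l1 h1 l2 h2 l3 h3 l4 h4 =>
    rule1 (cls 0) (cls 1) (cls 2) (tab (cls 0) (cls 1) (cls 2)) env (Nat.mod id 16) (Nat.shiftRight id 4)
      l1 h1 l2 h2 l3 h3 l4 h4) none with h1 | ⟨b1, b2, b3, b4, n1, n2, n3, n4, h1⟩
  · rw [h1] at hr
    exact absurd hr (by simp)
  · rw [h1] at hr
    have hB := inB_of H hbox n1 n2 n3 n4
    have g1 := le_hh H.K hB
    have g2 := hhF_le (sAF (cls 0) (cls 1) (cls 2) b1.hi b2.hi b3.hi)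
      (sBF (cls 0) (cls 1) (cls 2) b1.lo b2.lo b3.lo) b4.hi
    have g3 := dead_false H.K hB
    unfold rule1 at hr
    simp only [force_eq] at hr
    revert hr
    generalize Nat.mod id 16 = op
    generalize Nat.shiftRight id 4 = x
    intro hr
    rcases op with _ | _ | _ | _ | _ | _ | _ | _ | op
    · exact chainC_ok H henv hr
    · exact chainD_ok H henv g1 g2 hr
    · exact rowsF_ok H henv hr
    · exact chainX_ok H henv g1 hr
    · exact absurd (show (none : R) = some r from hr) (by simp)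
    · exact wF_ok H hW hr
    · exact zF_ok hr
    · exfalso
      have hr' : @Bool.rec (fun _ => R) none (some []) (deadF (hlF (cls 0) (cls 1) (cls 2) b1.lo b2.lo b3.lo b4.lo)
        (hhF (sAF (cls 0) (cls 1) (cls 2) b1.hi b2.hi b3.hi) (sBF (cls 0) (cls 1) (cls 2) b1.lo b2.lo b3.lo) b4.hi)
        (sBF (cls 0) (cls 1) (cls 2) b1.lo b2.lo b3.lo)) = some r := hr
      cases hd : deadF (hlF (cls 0) (cls 1) (cls 2) b1.lo b2.lo b3.lo b4.lo)
        (hhF (sAF (cls 0) (cls 1) (cls 2) b1.hi b2.hi b3.hi) (sBF (cls 0) (cls 1) (cls 2) b1.lo b2.lo b3.lo) b4.hi)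
        (sBF (cls 0) (cls 1) (cls 2) b1.lo b2.lo b3.lo) with
      | true => exact g3 hd
      | false =>
        rw [hd] at hr'
        exact absurd hr' (by simp)
    · exact vF_ok H henv hr

end

end Pool.Agent.Helper80.KD
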