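import Mathlib
import Pool.Agent.Helper80.KD.Leaf
import Pool.Agent.Helper80.KD.Fact

/-!
# The corners of the leaf
-/

set_option autoImplicit false

namespace Pool.Agent.Helper80.KD

open Pool.Agent.Helper28.TP (Ivl InBox nth)
open Pool.Agent.Helper80.TP (Item force force_eq Vc nthK nthK_eq R9 bl dvK dvK_eq comb FL Bool_rec_true)
open Pool.Agent.Helper80.TK (kM nup)
open Pool.Agent.Helper82.FL (Hd V DC G3 mkHd fleafJ fmrgJ)

theorem frcH_eq (h : Hd) (k : Hd → Bool) : frcH h k = k h := by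
  cases h; rfl

theorem getH_true {own : ℕ} {sc : Hd} {w : ℕ} {L : List DC} {k : Hd → ℕ → Bool}
    (hsc : ∃ r, mkHd r = some sc) (h : getH own sc w L k = true) :
    ∃ h' w', (∃ r, mkHd r = some h') ∧ k h' w' = true := by
  cases own with
  | zero => exact ⟨sc, w, hsc, h⟩
  | succ n =>
    cases L with
    | nil => exact ⟨sc, w, hsc, h⟩
    | cons c L =>
      have h2 : @Option.rec Hd (fun _ => Bool) false
        (fun h => frcH h fun h => force (Nat.shiftRight w 128) fun w => k h w)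
        (mkHd (Nat.mul 4 (Nat.mod w P128))) = true := h
      cases hm : mkHd (Nat.mul 4 (Nat.mod w P128)) with
      | none =>
        rw [hm] at h2
        exact Bool.noConfusion (show false = true from h2)
      | some h' =>
        rw [hm] at h2
        have h3 : (frcH h' fun h => force (Nat.shiftRight w 128) fun w => k h w) = true := h2
        rw [frcH_eq] at h3
        exact ⟨h', _, ⟨_, hm⟩, h3⟩

/-- the meaning of a corner -/
structure CO (P : ℕ → ℕ → ℕ → List G3 → List G3 → Prop) (c : DC) (a x₁ x₂ x₃ : ℕ) : Prop where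
  x0 : c.x0 = bl a 0
  x1 : c.x1 = bl a 2560
  x2 : c.x2 = bl a 5120
  y0 : c.y0 = bl a 7680
  y1 : c.y1 = bl a 10240
  y2 : c.y2 = bl a 12800
  ka : c.ka = bl a 15360
  z0 : c.z0 = bl a 17920
  z1 : c.z1 = bl a 20480
  z2 : c.z2 = bl a 23040
  w0 : c.w0 = bl a 25600
  w1 : c.w1 = bl a 28160
  w2 : c.w2 = bl a 30720
  mu : c.mu = bl a 33280
  hh : ∃ r, mkHd r = some c.h
  gs : P x₁ x₂ x₃ c.ps c.qs

theorem mkC_true {own : ℕ} {sc : Hd} {gs : GS} {a x₁ x₂ x₃ : ℕ} {L : List DC} {w : ℕ}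
    {k : List DC → ℕ → Bool} {P : ℕ → ℕ → ℕ → List G3 → List G3 → Prop} (hsc : ∃ r, mkHd r = some sc)
    (hgs : ∀ x₁ x₂ x₃ K, gs x₁ x₂ x₃ K = true → ∃ ps qs, P x₁ x₂ x₃ ps qs ∧ K ps qs = true)
    (h : mkC own sc gs a x₁ x₂ x₃ L w k = true) : ∃ c w', k (c :: L) w' = true ∧ CO P c a x₁ x₂ x₃ := by
  unfold mkC at h
  obtain ⟨h', w', hr, h⟩ := getH_true hsc h
  simp only [force_eq] at h
  obtain ⟨D, hD⟩ := dvK_eq (bl a 15360) (bl a 33280) (fun D => gs x₁ x₂ x₃ fun ps qs =>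
    k (List.cons (DC.mk h' (bl a 0) (bl a 2560) (bl a 5120) (bl a 7680) (bl a 10240) (bl a 12800) (bl a 15360)
      (bl a 17920) (bl a 20480) (bl a 23040) (bl a 25600) (bl a 28160) (bl a 30720) (bl a 33280) D ps qs) L) w')
  rw [hD] at h
  obtain ⟨ps, qs, hP, h⟩ := hgs _ _ _ _ h
  exact ⟨_, w', h, ⟨rfl, rfl, rfl, rfl, rfl, rfl, rfl, rfl, rfl, rfl, rfl, rfl, rfl, rfl, hr, hP⟩⟩

theorem stepD_true {g d l h A P : ℕ} {body : Nat → Nat → List DC → Nat → (List DC → Nat → Bool) → Bool}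
    {L : List DC} {w : ℕ} {k : List DC → ℕ → Bool} (Q : ℕ → ℕ → List DC → Prop)
    (hm : ∀ x a L L', L ⊆ L' → Q x a L → Q x a L') (h0 : g = 0 → ∀ x y a L, Q x a L → Q y a L)
    (hb : ∀ x a L w k, body x a L w k = true → ∃ L' w', k L' w' = true ∧ L ⊆ L' ∧ Q x a L')
    (hs : stepD g d l h A P body L w k = true) :
    ∃ L' w', k L' w' = true ∧ L ⊆ L' ∧ Q l (A + l * P) L' ∧ Q h (A + h * P) L' := by
  cases d with
  | zero =>
    have h1 : @Bool.rec (fun _ => Bool)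
      (@Bool.rec (fun _ => Bool) false (body l A L w k) (Nat.beq (Nat.add P g) 0))
      (body l (A + l * P) L w k) (Nat.beq l h) = true := hs
    cases hlh : Nat.beq l h with
    | true =>
      rw [hlh] at h1
      have h2 : body l (A + l * P) L w k = true := h1
      have h3 : l = h := Nat.eq_of_beq_eq_true hlh
      obtain ⟨L', w', a1, a2, a3⟩ := hb _ _ _ _ _ h2
      exact ⟨L', w', a1, a2, a3, by rw [← h3]; exact a3⟩
    | false =>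
      rw [hlh] at h1
      have h2 : @Bool.rec (fun _ => Bool) false (body l A L w k) (Nat.beq (Nat.add P g) 0) = true := h1
      obtain ⟨h3, h4⟩ := Bool_rec_true h2
      have h5 : P + g = 0 := Nat.eq_of_beq_eq_true h3
      have hP : P = 0 := by omega
      have hg : g = 0 := by omega
      obtain ⟨L', w', a1, a2, a3⟩ := hb _ _ _ _ _ h4
      refine ⟨L', w', a1, a2, ?_, ?_⟩
      · rw [hP, Nat.mul_zero, Nat.add_zero]; exact a3
      · rw [hP, Nat.mul_zero, Nat.add_zero]; exact h0 hg _ _ _ _ a3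
  | succ d =>
    have h1 : body l (A + l * P) L w (fun L w => body h (A + h * P) L w k) = true := hs
    obtain ⟨L₁, w₁, a1, a2, a3⟩ := hb _ _ _ _ _ h1
    obtain ⟨L₂, w₂, b1, b2, b3⟩ := hb _ _ _ _ _ a1
    exact ⟨L₂, w₂, b1, fun x hx => b2 (a2 hx), hm _ _ _ _ b2 a3, b3⟩

theorem corns_true {own : ℕ} {sc : Hd} {gs : GS} {g l₁ h₁ l₂ h₂ l₃ h₃ d₁ d₂ d₃ acc w : ℕ}
    {k : List DC → ℕ → Bool} {P : ℕ → ℕ → ℕ → List G3 → List G3 → Prop} (hsc : ∃ r, mkHd r = some sc)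
    (hgs : ∀ x₁ x₂ x₃ K, gs x₁ x₂ x₃ K = true → ∃ ps qs, P x₁ x₂ x₃ ps qs ∧ K ps qs = true)
    (hP : g = 0 → ∀ x₁ x₂ x₃ y₁ y₂ y₃ ps qs, P x₁ x₂ x₃ ps qs → P y₁ y₂ y₃ ps qs)
    (h : corns own sc gs g l₁ h₁ l₂ h₂ l₃ h₃ d₁ d₂ d₃ acc w k = true) :
    ∃ L w', k L w' = true ∧ ∀ x₁ x₂ x₃, (x₁ = l₁ ∨ x₁ = h₁) → (x₂ = l₂ ∨ x₂ = h₂) → (x₃ = l₃ ∨ x₃ = h₃) →
      ∃ c ∈ L, CO P c (atC acc x₁ x₂ x₃) x₁ x₂ x₃ := by
  have hco : g = 0 → ∀ c a x₁ x₂ x₃ y₁ y₂ y₃, CO P c a x₁ x₂ x₃ → CO P c a y₁ y₂ y₃ :=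
    fun hg c a x₁ x₂ x₃ y₁ y₂ y₃ h => ⟨h.x0, h.x1, h.x2, h.y0, h.y1, h.y2, h.ka, h.z0, h.z1, h.z2, h.w0, h.w1,
      h.w2, h.mu, h.hh, hP hg _ _ _ _ _ _ _ _ h.gs⟩
  -- the first parameter
  have s1 : ∀ x₂ x₃ a L w (k : List DC → ℕ → Bool),
      (force (lo1 a) fun A1 => force (hi1 a) fun P1 =>
        stepD g d₁ l₁ h₁ A1 P1 (fun x₁ a L w k => mkC own sc gs a x₁ x₂ x₃ L w k) L w k) = true →
      ∃ L' w', k L' w' = true ∧ L ⊆ L' ∧ ∀ x₁, (x₁ = l₁ ∨ x₁ = h₁) →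
        ∃ c ∈ L', CO P c (lo1 a + x₁ * hi1 a) x₁ x₂ x₃ := by
    intro x₂ x₃ a
    generalize lo1 a = A1
    generalize hi1 a = P1
    intro L w k hs
    rw [force_eq, force_eq] at hs
    obtain ⟨L', w', a1, a2, a3, a4⟩ := stepD_true (fun x₁ a L => ∃ c ∈ L, CO P c a x₁ x₂ x₃)
      (fun x a L L' hL ⟨c, hc, h⟩ => ⟨c, hL hc, h⟩)
      (fun hg x y a L ⟨c, hc, h⟩ => ⟨c, hc, hco hg _ _ _ _ _ _ _ _ h⟩)
      (fun x a L w k hb => by
        obtain ⟨c, w', b1, b2⟩ := mkC_true hsc hgs hb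
        exact ⟨c :: L, w', b1, List.subset_cons_self _ _, c, List.mem_cons_self, b2⟩) hs
    refine ⟨L', w', a1, a2, ?_⟩
    rintro x₁ (rfl | rfl)
    · exact a3
    · exact a4
  -- the second parameter
  have s2 : ∀ x₃ a L w (k : List DC → ℕ → Bool),
      (force (lo2 a) fun A2 => force (hi2 a) fun P2 =>
        stepD g d₂ l₂ h₂ A2 P2 (fun x₂ a L w k => force (lo1 a) fun A1 => force (hi1 a) fun P1 =>
        stepD g d₁ l₁ h₁ A1 P1 (fun x₁ a L w k => mkC own sc gs a x₁ x₂ x₃ L w k) L w k) L w k) = true →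
      ∃ L' w', k L' w' = true ∧ L ⊆ L' ∧ ∀ x₁ x₂, (x₁ = l₁ ∨ x₁ = h₁) → (x₂ = l₂ ∨ x₂ = h₂) →
        ∃ c ∈ L', CO P c (lo1 (lo2 a + x₂ * hi2 a) + x₁ * hi1 (lo2 a + x₂ * hi2 a)) x₁ x₂ x₃ := by
    intro x₃ a
    generalize lo2 a = A2
    generalize hi2 a = P2
    intro L w k hs
    rw [force_eq, force_eq] at hs
    obtain ⟨L', w', a1, a2, a3, a4⟩ := stepD_true
      (fun x₂ a L => ∀ x₁, (x₁ = l₁ ∨ x₁ = h₁) → ∃ c ∈ L, CO P c (lo1 a + x₁ * hi1 a) x₁ x₂ x₃)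
      (fun x a L L' hL h x₁ h1 => by
        obtain ⟨c, hc, h⟩ := h x₁ h1
        exact ⟨c, hL hc, h⟩)
      (fun hg x y a L h x₁ h1 => by
        obtain ⟨c, hc, h⟩ := h x₁ h1
        exact ⟨c, hc, hco hg _ _ _ _ _ _ _ _ h⟩)
      (fun x a L w k hb => s1 x x₃ a L w k hb) hs
    refine ⟨L', w', a1, a2, ?_⟩
    rintro x₁ x₂ h1 (rfl | rfl)
    · exact a3 x₁ h1
    · exact a4 x₁ h1
  -- the third parameter
  unfold corns at h
  unfold atC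
  revert h
  generalize lo3 acc = A3
  generalize hi3 acc = P3
  intro h
  rw [force_eq, force_eq] at h
  obtain ⟨L', w', a1, a2, a3, a4⟩ := stepD_true
    (fun x₃ a L => ∀ x₁ x₂, (x₁ = l₁ ∨ x₁ = h₁) → (x₂ = l₂ ∨ x₂ = h₂) →
      ∃ c ∈ L, CO P c (lo1 (lo2 a + x₂ * hi2 a) + x₁ * hi1 (lo2 a + x₂ * hi2 a)) x₁ x₂ x₃)
    (fun x a L L' hL h x₁ x₂ h1 h2 => by
      obtain ⟨c, hc, h⟩ := h x₁ x₂ h1 h2
      exact ⟨c, hL hc, h⟩)
    (fun hg x y a L h x₁ x₂ h1 h2 => by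
      obtain ⟨c, hc, h⟩ := h x₁ x₂ h1 h2
      exact ⟨c, hc, hco hg _ _ _ _ _ _ _ _ h⟩)
    (fun x a L w k hb => s2 x a L w k hb) h
  refine ⟨L', w', a1, ?_⟩
  rintro x₁ x₂ x₃ h1 h2 (rfl | rfl)
  · exact a3 x₁ x₂ h1 h2
  · exact a4 x₁ x₂ h1 h2

/-! ### the sum -/

theorem comb_gen (Pr : ℕ → Prop) (fin : Nat → Bool) (env : List Item)
    (henv : ∀ N, Item.f N ∈ env → ∀ acc w, Pr acc → Pr (acc + w * N)) :
    ∀ (k : Nat → Nat → Nat → Nat → Bool),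
    (∀ n w r acc, Pr acc → k n w r acc = true → ∃ acc', Pr acc' ∧ fin acc' = true) →
    ∀ n w r acc, Pr acc → comb fin env k n w r acc = true → ∃ acc', Pr acc' ∧ fin acc' = true := by
  induction env with
  | nil => exact fun k hk => hk
  | cons a l ih =>
    intro k hk
    refine ih (fun i hi => henv i (List.mem_cons_of_mem _ hi)) _ ?_
    intro n w r acc hacc h
    cases n with
    | succ m => exact hk m w r acc hacc h
    | zero =>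
      cases a with
      | t N => exact Bool.noConfusion (show false = true from h)
      | f N =>
        have h3 : Pr (Nat.add acc (Nat.mul w N)) := henv N List.mem_cons_self acc w hacc
        cases r with
        | zero => exact ⟨_, h3, h⟩
        | succ r => exact hk _ _ _ _ h3 h

theorem sumD_true {fin : Nat → Bool} {env : List Item} {w acc : ℕ} (Pr : ℕ → Prop) (h0 : Pr acc)
    (henv : ∀ N, Item.f N ∈ env → ∀ acc w, Pr acc → Pr (acc + w * N)) (h : sumD fin env w acc = true) :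
    ∃ acc', Pr acc' ∧ fin acc' = true := by
  unfold sumD at h
  exact comb_gen Pr (fun acc => force acc fin) env henv _
    (fun n w r acc _ h => Bool.noConfusion (show false = true from h)) _ _ _ _ h0 h

theorem an_tr {a b : Bool} (h : an a b = true) : a = true ∧ b = true := by
  cases a with
  | false => exact Bool.noConfusion (show false = true from h)
  | true => exact ⟨rfl, h⟩

theorem cond_gen (G okf : ℕ → Bool) (K : ℕ → ℕ → (List DC → ℕ → Bool) → Bool) (w : ℕ)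
    (k : List DC → ℕ → Bool) (b₁ b₂ b₃ : Bool)
    (hG : G = fun acc => @Bool.rec (fun _ => Bool) false (K acc w k) (an (okf acc) (an b₁ (an b₂ b₃))))
    (acc : ℕ) (h : G acc = true) :
    okf acc = true ∧ b₁ = true ∧ b₂ = true ∧ b₃ = true ∧ K acc w k = true := by
  subst hG
  obtain ⟨h1, h2⟩ := Bool_rec_true h
  obtain ⟨a1, h1⟩ := an_tr h1
  obtain ⟨a2, h1⟩ := an_tr h1
  obtain ⟨a3, a4⟩ := an_tr h1
  exact ⟨a1, a2, a3, a4, h2⟩

theorem condD_true {own : ℕ} {sc : Hd} {gs : GS} {g l₁ h₁ l₂ h₂ l₃ h₃ d₁ d₂ d₃ w acc : ℕ}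
    {fin : List DC → Bool} {P : ℕ → ℕ → ℕ → List G3 → List G3 → Prop} (hsc : ∃ r, mkHd r = some sc)
    (hgs : ∀ x₁ x₂ x₃ K, gs x₁ x₂ x₃ K = true → ∃ ps qs, P x₁ x₂ x₃ ps qs ∧ K ps qs = true)
    (hP : g = 0 → ∀ x₁ x₂ x₃ y₁ y₂ y₃ ps qs, P x₁ x₂ x₃ ps qs → P y₁ y₂ y₃ ps qs)
    (h : condD own sc gs g l₁ h₁ l₂ h₂ l₃ h₃ d₁ d₂ d₃ w fin acc = true) :
    okD acc = true ∧ h₁ ≤ 256 ∧ h₂ ≤ 256 ∧ h₃ ≤ 256 ∧ ∃ L, fin L = true ∧
      ∀ x₁ x₂ x₃, (x₁ = l₁ ∨ x₁ = h₁) → (x₂ = l₂ ∨ x₂ = h₂) → (x₃ = l₃ ∨ x₃ = h₃) →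
      ∃ c ∈ L, CO P c (atC acc x₁ x₂ x₃) x₁ x₂ x₃ := by
  obtain ⟨a1, a2, a3, a4, h2⟩ := cond_gen (condD own sc gs g l₁ h₁ l₂ h₂ l₃ h₃ d₁ d₂ d₃ w fin) okD
    (corns own sc gs g l₁ h₁ l₂ h₂ l₃ h₃ d₁ d₂ d₃) w (fun L _ => fin L) (Nat.ble h₁ 256) (Nat.ble h₂ 256)
    (Nat.ble h₃ 256) rfl acc h
  obtain ⟨L, w', h3, h4⟩ := corns_true hsc hgs hP h2
  exact ⟨a1, Nat.le_of_ble_eq_true a2, Nat.le_of_ble_eq_true a3, Nat.le_of_ble_eq_true a4, L, h3, h4⟩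

end Pool.Agent.Helper80.KD
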