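import Mathlib
import Pool.Agent.Helper80.KD.CornS
import Pool.Agent.Helper80.KD.Tag
import Pool.Agent.Helper82.FL.SoundM
import Pool.Agent.Helper21.KD.Grp2

/-!
# The leaf is correct
-/

set_option autoImplicit false

namespace Pool.Agent.Helper80.KD

open Finset Matrix
open Pool.Agent.Helper28.TP (Ivl InBox nth)
open Pool.Agent.Helper80.TP (IM RD pr Item force force_eq Vc vc VR vr_vc vI nthK nthK_eq R9 R9_eq BB BB_eq YY Seven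
  rowX rowY bl Small Hit pr_trace Bool_rec_true)
open Pool.Agent.Helper80.TK (kM nup nup_ge div256 pk_kM KR InB)
open Pool.Agent.Helper21.TK (mt vt HT)
open Pool.Agent.Helper21.KD (vG m3 vts_eq vG_small um_ok chM_eq grp_fact hT_of_cu hT_of_tag tag_lt)
open Pool.Agent.Helper82.FL (Hd V DC G3 mkHd fleafJ fmrgJ Data Rows Rs B1 B1_int M3bd okV AtV sigJ fleafJ_sound
  fmrgJ_sound chM smG)

/-! ### the data of a corner -/

theorem bb_b1 : (BB : ℤ) = (B1 : ℤ) := by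
  rw [B1_int, BB_eq]; norm_num

theorem r9_b1 : (R9 : ℤ) = (B1 : ℤ) ^ 9 := by
  have h := Pool.Agent.Helper21.KD.R9_B1
  exact_mod_cast h

theorem seven_rows {e : ℕ → ℕ} {C : IM} {k : ℤ} (h : Seven e 0 C k) :
    Rows (m3 C) (e 0) (e 1) (e 2) (e 3) (e 4) (e 5) ∧ Rs (e 6) k := by
  have hx := h.x
  have hy := h.y
  have hk := h.k
  have ex : ∀ i, rowX C i = C i 0 + C i 1 * (B1 : ℤ) + C i 2 * (B1 : ℤ) ^ 2 := by
    intro i
    rw [← bb_b1]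
    simp [rowX, Fin.sum_univ_three]
  have ey : ∀ i, rowY C i = C i 0 + C i 1 * (B1 : ℤ) ^ 3 + C i 2 * (B1 : ℤ) ^ 6 := by
    intro i
    rw [← bb_b1]
    simp [rowY, Fin.sum_univ_three]
  simp only [r9_b1, ex, ey] at hx hy hk
  exact ⟨⟨hx 0, hx 1, hx 2, hy 0, hy 1, hy 2⟩, hk⟩

theorem data_of {acc W : ℕ} {C : ℕ → IM} {k : ℕ → ℤ} {M : ℕ → IM} {u : ℕ → ℤ} (h : RP acc W C k M u)
    (hW : okD acc = true) {x₁ x₂ x₃ : ℕ} (h₁ : x₁ ≤ 256) (h₂ : x₂ ≤ 256) (h₃ : x₃ ≤ 256)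
    {P : ℕ → ℕ → ℕ → List G3 → List G3 → Prop} {c : DC} (hc : CO P c (atC acc x₁ x₂ x₃) x₁ x₂ x₃) :
    Data (m3 (evI C x₁ x₂ x₃)) (m3 (evI M x₁ x₂ x₃)) (ev k x₁ x₂ x₃) (ev u x₁ x₂ x₃)
      c.x0 c.x1 c.x2 c.y0 c.y1 c.y2 c.ka c.z0 c.z1 c.z2 c.w0 c.w1 c.w2 c.mu := by
  obtain ⟨s1, s2⟩ := h.corner hW h₁ h₂ h₃
  obtain ⟨b1, b2, b3, b4⟩ := h.small hW h₁ h₂ h₃
  obtain ⟨r1, r2⟩ := seven_rows s1
  obtain ⟨r3, r4⟩ := seven_rows s2
  rw [hc.x0, hc.x1, hc.x2, hc.y0, hc.y1, hc.y2, hc.ka, hc.z0, hc.z1, hc.z2, hc.w0, hc.w1, hc.w2, hc.mu]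
  have m1 : ∀ i j, |evI M x₁ x₂ x₃ i j| ≤ 2 ^ 52 := fun i j => (b3 i j).trans (by norm_num)
  exact ⟨r1, r3, ⟨b1 0 0, b1 0 1, b1 0 2, b1 1 0, b1 1 1, b1 1 2, b1 2 0, b1 2 1, b1 2 2⟩,
    ⟨m1 0 0, m1 0 1, m1 0 2, m1 1 0, m1 1 1, m1 1 2, m1 2 0, m1 2 1, m1 2 2⟩, r2, r4,
    b2.trans (by norm_num), b4.trans (by norm_num)⟩

theorem pr_m3 (G : Matrix (Fin 3) (Fin 3) ℝ) (A : IM) : trace (Gᵀ * (m3 A).toM) = pr G A := by
  rw [pr_trace]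
  congr 2
  ext i j
  fin_cases i <;> fin_cases j <;> rfl

/-! ### the contradiction -/

/-- **the tests at the corners contradict the facts** -/
theorem not_hit2 {E : RD} {C : ℕ → IM} {k : ℕ → ℤ} {M : ℕ → IM} {u : ℕ → ℤ}
    (hC : ev (fun m => (k m : ℝ)) (256 * E.c 0) (256 * E.c 1) (256 * E.c 2) ≤
      ev (fun m => pr E.F (C m)) (256 * E.c 0) (256 * E.c 1) (256 * E.c 2))
    (hM : E.om * ev (fun m => (u m : ℝ)) (256 * E.c 0) (256 * E.c 1) (256 * E.c 2) ≤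
      ev (fun m => pr E.G (M m)) (256 * E.c 0) (256 * E.c 1) (256 * E.c 2))
    {σ : ℝ} (hσ : 0 < σ) {l₁ r₁ l₂ r₂ l₃ r₃ : ℕ}
    (a₁ : (l₁ : ℝ) ≤ 256 * E.c 0) (b₁ : 256 * E.c 0 ≤ r₁) (a₂ : (l₂ : ℝ) ≤ 256 * E.c 1)
    (b₂ : 256 * E.c 1 ≤ r₂) (a₃ : (l₃ : ℝ) ≤ 256 * E.c 2) (b₃ : 256 * E.c 2 ≤ r₃)
    (hh : ∀ x₁ x₂ x₃ : ℕ, (x₁ = l₁ ∨ x₁ = r₁) → (x₂ = l₂ ∨ x₂ = r₂) → (x₃ = l₃ ∨ x₃ = r₃) →
      Hit E σ (evI C x₁ x₂ x₃) (ev k x₁ x₂ x₃) (evI M x₁ x₂ x₃) (ev u x₁ x₂ x₃)) : False := by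
  obtain ⟨c, hc⟩ : ∃ c : ℕ → ℝ, c = fun m => (pr E.F (C m) + σ * pr E.G (M m)) -
      ((k m : ℝ) + σ * (E.om * u m)) := ⟨_, rfl⟩
  have e : ∀ x₁ x₂ x₃ : ℝ, ev c x₁ x₂ x₃ = (ev (fun m => pr E.F (C m)) x₁ x₂ x₃ +
      σ * ev (fun m => pr E.G (M m)) x₁ x₂ x₃) - (ev (fun m => (k m : ℝ)) x₁ x₂ x₃ +
      σ * (E.om * ev (fun m => (u m : ℝ)) x₁ x₂ x₃)) := by
    intro x₁ x₂ x₃
    rw [hc]
    unfold ev
    ring
  have hneg : ev c (256 * E.c 0) (256 * E.c 1) (256 * E.c 2) < 0 := by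
    refine ev_neg a₁ b₁ a₂ b₂ a₃ b₃ ?_
    have hx : ∀ x₁ x₂ x₃ : ℕ, (x₁ = l₁ ∨ x₁ = r₁) → (x₂ = l₂ ∨ x₂ = r₂) → (x₃ = l₃ ∨ x₃ = r₃) →
        ev c (x₁ : ℝ) x₂ x₃ < 0 := by
      intro x₁ x₂ x₃ h1 h2 h3
      have h4 := hh x₁ x₂ x₃ h1 h2 h3
      unfold Hit at h4
      rw [pr_evI, pr_evI, ev_cast, ev_cast] at h4
      rw [e]
      push_cast at h4
      linarith
    rintro x₁ x₂ x₃ (rfl | rfl) (rfl | rfl) (rfl | rfl)
    · exact hx _ _ _ (Or.inl rfl) (Or.inl rfl) (Or.inl rfl)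
    · exact hx _ _ _ (Or.inl rfl) (Or.inl rfl) (Or.inr rfl)
    · exact hx _ _ _ (Or.inl rfl) (Or.inr rfl) (Or.inl rfl)
    · exact hx _ _ _ (Or.inl rfl) (Or.inr rfl) (Or.inr rfl)
    · exact hx _ _ _ (Or.inr rfl) (Or.inl rfl) (Or.inl rfl)
    · exact hx _ _ _ (Or.inr rfl) (Or.inl rfl) (Or.inr rfl)
    · exact hx _ _ _ (Or.inr rfl) (Or.inr rfl) (Or.inl rfl)
    · exact hx _ _ _ (Or.inr rfl) (Or.inr rfl) (Or.inr rfl)
  rw [e] at hneg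
  have h2 := mul_le_mul_of_nonneg_left hM hσ.le
  linarith

theorem hit_of {E : RD} {Z : Matrix (Fin 3) (Fin 3) ℝ} (hG : E.G = E.F * Z) (hom : E.om = 1154 / 169) {σ : ℝ}
    {C M : IM} {κ μ : ℤ} (h : trace (E.Fᵀ * (m3 C).toM) + σ * trace ((E.F * Z)ᵀ * (m3 M).toM) <
      κ + σ * ((1154 : ℝ) / 169 * μ)) : Hit E σ C κ M μ := by
  unfold Hit
  rw [← hG, pr_m3, pr_m3] at h
  rw [hom]
  exact h

section

variable {W : ℝ} {E : RD} {cls : Fin 3 → Bool} {d c s : Fin 3 → ℝ} {h : ℝ} {lab : (Fin 3 → ℤ) → Fin 5}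
  {Z : Matrix (Fin 3) (Fin 3) ℝ} {cs : List V} {lam : ℕ → ℝ} {env : List Item}
  {own : ℕ} {sc : Hd} {l₁ h₁ l₂ h₂ l₃ h₃ d₁ d₂ d₃ : ℕ}

theorem end_le {x l r : ℕ} (hx : x = l ∨ x = r) {t : ℝ} (hl : (l : ℝ) ≤ t) (hr : t ≤ r) (hr2 : r ≤ 256) :
    x ≤ 256 := by
  rcases hx with rfl | rfl
  · have h1 : (x : ℝ) ≤ 256 := by
      have h2 : (r : ℝ) ≤ 256 := by exact_mod_cast hr2
      linarith
    exact_mod_cast h1
  · exact hr2

/-- **the plain leaf** -/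
theorem plain_false (hZ : (E.Fᵀ * E.F) * Z = 1) (hG : E.G = E.F * Z) (hom : E.om = 1154 / 169)
    (hok : ∀ v ∈ cs, okV v) (hlam : ∀ k, 0 ≤ lam k) (hQ : E.Fᵀ * E.F = ∑ k ∈ range cs.length, lam k • AtV cs k)
    (hsc : ∃ r, mkHd r = some sc) (henv : ∀ i ∈ env, okI W E cls d lab i)
    (a₁ : (l₁ : ℝ) ≤ 256 * E.c 0) (b₁ : 256 * E.c 0 ≤ h₁) (a₂ : (l₂ : ℝ) ≤ 256 * E.c 1)
    (b₂ : 256 * E.c 1 ≤ h₂) (a₃ : (l₃ : ℝ) ≤ 256 * E.c 2) (b₃ : 256 * E.c 2 ≤ h₃) {w₀ w : ℕ}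
    (hs : sumD (condD own sc (fun _ _ _ k => k [] []) 0 l₁ h₁ l₂ h₂ l₃ h₃ d₁ d₂ d₃ w₀ (fleafJ cs sc)) env w 0 =
      true) : False := by
  obtain ⟨acc, ⟨W', C, k, M, u, hS⟩, hc⟩ := sumD_true (fun acc => ∃ W C k M u, SD E acc W C k M u)
    ⟨_, _, _, _, _, sd_zero E⟩ (fun N hN acc w ⟨_, _, _, _, _, h1⟩ => by
      obtain ⟨C, k, M, u, h2⟩ : IsD E N := henv _ hN
      exact ⟨_, _, _, _, _, h1.comb w h2⟩) hs
  obtain ⟨g0, g1, g2, g3, L, g4, g5⟩ := condD_true (P := fun _ _ _ ps qs => ps = [] ∧ qs = []) hsc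
    (fun x₁ x₂ x₃ K hK => ⟨[], [], ⟨rfl, rfl⟩, hK⟩) (fun _ _ _ _ _ _ _ _ _ h => h) hc
  obtain ⟨r0, hr0⟩ := hsc
  have key : ∀ x₁ x₂ x₃, (x₁ = l₁ ∨ x₁ = h₁) → (x₂ = l₂ ∨ x₂ = h₂) → (x₃ = l₃ ∨ x₃ = h₃) →
      0 < sigJ sc cs lam ∧ Hit E (sigJ sc cs lam) (evI C x₁ x₂ x₃) (ev k x₁ x₂ x₃) (evI M x₁ x₂ x₃)
        (ev u x₁ x₂ x₃) := by
    intro x₁ x₂ x₃ e1 e2 e3
    obtain ⟨c, hc, hco⟩ := g5 x₁ x₂ x₃ e1 e2 e3
    obtain ⟨r, hr⟩ := hco.hh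
    have hd := data_of hS.r g0 (end_le e1 a₁ b₁ g1) (end_le e2 a₂ b₂ g2) (end_le e3 a₃ b₃ g3) hco
    obtain ⟨f1, f2⟩ := fleafJ_sound E.F Z hZ cs hok lam hlam hQ sc r0 hr0 L g4 c hc r hr _ _ _ _ hd
    exact ⟨f1, hit_of hG hom f2⟩
  exact not_hit2 hS.hC hS.hM (key _ _ _ (Or.inl rfl) (Or.inl rfl) (Or.inl rfl)).1 a₁ b₁ a₂ b₂ a₃ b₃
    (fun x₁ x₂ x₃ e1 e2 e3 => (key x₁ x₂ x₃ e1 e2 e3).2)

theorem rp_kM : RP (oneD (kM 256)) 1 (fun _ _ _ => 0) (fun _ => 0) (fun _ _ _ => 0) (fun m => mo 0 m * 256) := by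
  have hz : ∀ a b c : ℤ, ev (fun _ => (0 : ℤ)) a b c = 0 := fun a b c => ev_zero a b c
  have hmo : ∀ a b c : ℤ, ev (fun m => mo 0 m * 256) a b c = 256 := by
    intro a b c
    have h1 : ((ev (fun m => mo 0 m * 256) a b c : ℤ) : ℝ) = ((256 : ℤ) : ℝ) := by
      rw [ev_cast]
      simp [ev, mo]
    exact_mod_cast h1
  refine pd_kM.rp (by norm_num) fun x₁ x₂ x₃ _ _ _ => ⟨fun r k => ?_, ?_, fun r k => ?_, ?_⟩
  · have : evI (fun _ _ _ => (0 : ℤ)) (x₁ : ℤ) x₂ x₃ r k = 0 := hz _ _ _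
    rw [this]
    norm_num
  · rw [hz]
    norm_num
  · have : evI (fun _ _ _ => (0 : ℤ)) (x₁ : ℤ) x₂ x₃ r k = 0 := hz _ _ _
    rw [this]
    norm_num
  · rw [hmo]
    norm_num

/-- the sum of the facts, the width fact on the side of the reals only -/
def PG (E : RD) (z : ℕ) (X : ℕ → IM) (acc : ℕ) : Prop :=
  ∃ W C k M u, RP acc W C k M u ∧
    ev (fun m => (k m : ℝ)) (256 * E.c 0) (256 * E.c 1) (256 * E.c 2) ≤
      ev (fun m => pr E.F (C m)) (256 * E.c 0) (256 * E.c 1) (256 * E.c 2) ∧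
    E.om * ev (fun m => (u m : ℝ)) (256 * E.c 0) (256 * E.c 1) (256 * E.c 2) ≤
      ev (fun m => pr E.G (fun r k => M m r k + z * X m r k)) (256 * E.c 0) (256 * E.c 1) (256 * E.c 2)

theorem pg_start0 {z N : ℕ} {X : ℕ → IM}
    (hN : RP N 1 (fun _ _ _ => 0) (fun _ => 0) (fun _ _ _ => 0) (fun m => mo 0 m * 256))
    (hX : E.om * ev (fun m => ((mo 0 m * 256 : ℤ) : ℝ)) (256 * E.c 0) (256 * E.c 1) (256 * E.c 2) ≤
      ev (fun m => pr E.G (X m)) (256 * E.c 0) (256 * E.c 1) (256 * E.c 2)) : PG E z X (Nat.mul z N) := by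
  have h1 := (sd_zero E).r.comb z hN
  have e1 : 0 + z * N = Nat.mul z N := Nat.zero_add _
  rw [e1] at h1
  refine ⟨_, _, _, _, _, h1, ?_, ?_⟩
  · have e2 : (fun m : ℕ => pr E.F (fun i j => (0 : ℤ) + (z : ℤ) * 0)) = fun _ => (0 : ℝ) := by
      funext m
      simp [pr]
    rw [e2]
    simp [ev]
  · have hz : (0 : ℝ) ≤ z := Nat.cast_nonneg _
    have e2 : (fun m : ℕ => pr E.G (fun r k => ((0 : ℤ) + (z : ℤ) * 0) + z * X m r k)) =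
        fun m => (0 : ℝ) + z * pr E.G (X m) := by
      funext m
      simp only [pr, Fin.sum_univ_three]
      push_cast
      ring
    rw [e2, ev_comb]
    have e3 : (fun m : ℕ => (((0 : ℤ) + (z : ℤ) * (mo 0 m * 256) : ℤ) : ℝ)) =
        fun m => (0 : ℝ) + z * ((mo 0 m * 256 : ℤ) : ℝ) := by
      funext m
      push_cast
      ring
    rw [e3, ev_comb, ev_zero]
    have := mul_le_mul_of_nonneg_left hX hz
    nlinarith

theorem pg_start {z : ℕ} {X : ℕ → IM}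
    (hX : E.om * ev (fun m => ((mo 0 m * 256 : ℤ) : ℝ)) (256 * E.c 0) (256 * E.c 1) (256 * E.c 2) ≤
      ev (fun m => pr E.G (X m)) (256 * E.c 0) (256 * E.c 1) (256 * E.c 2)) :
    PG E z X (Nat.mul z (oneD (kM 256))) := pg_start0 rp_kM hX

theorem pg_step {z : ℕ} {X : ℕ → IM} {N : ℕ} (hN : IsD E N) (acc w : ℕ) (h : PG E z X acc) :
    PG E z X (acc + w * N) := by
  obtain ⟨W, C, k, M, u, h1, h2, h3⟩ := h
  obtain ⟨D, l, L, v, g1⟩ := hN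
  have hw : (0 : ℝ) ≤ w := Nat.cast_nonneg _
  refine ⟨_, _, _, _, _, h1.comb w g1.r, ?_, ?_⟩
  · have h4 := mul_le_mul_of_nonneg_left g1.hC hw
    simp only [pr_comb]
    rw [ev_comb]
    push_cast
    rw [ev_comb]
    linarith
  · have h4 := mul_le_mul_of_nonneg_left g1.hM hw
    have e : (fun m => pr E.G (fun r k => (M m r k + w * L m r k) + z * X m r k)) =
        fun m => pr E.G (fun r k => M m r k + z * X m r k) + w * pr E.G (L m) := by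
      funext m
      simp only [pr, Fin.sum_univ_three]
      push_cast
      ring
    rw [e, ev_comb]
    push_cast
    rw [ev_comb]
    nlinarith

/-- **the group** -/
theorem group_false (hZ : (E.Fᵀ * E.F) * Z = 1) (hG : E.G = E.F * Z) (hom : E.om = 1154 / 169)
    (hok : ∀ v ∈ cs, okV v) (hlam : ∀ k, 0 ≤ lam k) (hQ : E.Fᵀ * E.F = ∑ k ∈ range cs.length, lam k • AtV cs k)
    (hsc : ∃ r, mkHd r = some sc) (henv : ∀ i ∈ env, okI W E cls d lab i)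
    (a₁ : (l₁ : ℝ) ≤ 256 * E.c 0) (b₁ : 256 * E.c 0 ≤ h₁) (a₂ : (l₂ : ℝ) ≤ 256 * E.c 1)
    (b₂ : 256 * E.c 1 ≤ h₂) (a₃ : (l₃ : ℝ) ≤ 256 * E.c 2) (b₃ : 256 * E.c 2 ≤ h₃) {cu z : ℕ}
    (hz : z ≤ 2 ^ 16) {lp lq : List ℕ} {gs : GS}
    (hgs : ∀ x₁ x₂ x₃ K, gs x₁ x₂ x₃ K = true →
      K (lp.map (vG z x₁ x₂ x₃)) (lq.map (vG z x₁ x₂ x₃)) = true)
    {i t j t' : Fin 4} (hi : i = 0 → t = 0) (hj : j = 0 → t' = 0) (hp : (i.val + 4 * t.val) ∈ lp)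
    (hq : (j.val + 4 * t'.val) ∈ lq)
    (hX : E.om * ev (fun m => ((mo 0 m * 256 : ℤ) : ℝ)) (256 * E.c 0) (256 * E.c 1) (256 * E.c 2) ≤
      ev (fun m => pr E.G (wX i t j t' (pt cu) m)) (256 * E.c 0) (256 * E.c 1) (256 * E.c 2)) {w₀ w : ℕ}
    (hs : grpD cs env own sc l₁ h₁ l₂ h₂ l₃ h₃ d₁ d₂ d₃ w₀ cu z w gs = true) : False := by
  unfold grpD at hs
  rw [force_eq, force_eq, force_eq, force_eq] at hs
  obtain ⟨acc, ⟨W', C, k, M, u, hS, hC, hM⟩, hc⟩ := sumD_true (PG E z (wX i t j t' (pt cu))) (pg_start hX)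
    (fun N hN acc w h1 => pg_step (henv _ hN) acc w h1) hs
  obtain ⟨g0, g1, g2, g3, L, g4, g5⟩ := condD_true
    (P := fun x₁ x₂ x₃ ps qs => ps = lp.map (vG z x₁ x₂ x₃) ∧ qs = lq.map (vG z x₁ x₂ x₃)) hsc
    (fun x₁ x₂ x₃ K hK => ⟨_, _, ⟨rfl, rfl⟩, hgs _ _ _ _ hK⟩) (fun h => absurd h (by norm_num)) hc
  obtain ⟨r0, hr0⟩ := hsc
  obtain ⟨u0, u1, u2, ub⟩ := um_ok cu
  have ub' : ∀ i, |pt cu i| ≤ 2 ^ 56 := fun i => (ub i).trans (by norm_num)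
  have key : ∀ x₁ x₂ x₃, (x₁ = l₁ ∨ x₁ = h₁) → (x₂ = l₂ ∨ x₂ = h₂) → (x₃ = l₃ ∨ x₃ = h₃) →
      0 < sigJ sc cs lam ∧ Hit E (sigJ sc cs lam) (evI C x₁ x₂ x₃) (ev k x₁ x₂ x₃)
        (evI (fun m r k => M m r k + z * wX i t j t' (pt cu) m r k) x₁ x₂ x₃) (ev u x₁ x₂ x₃) := by
    intro x₁ x₂ x₃ e1 e2 e3
    obtain ⟨c, hc, hco⟩ := g5 x₁ x₂ x₃ e1 e2 e3
    obtain ⟨r, hr⟩ := hco.hh
    have s1 := end_le e1 a₁ b₁ g1
    have s2 := end_le e2 a₂ b₂ g2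
    have s3 := end_le e3 a₃ b₃ g3
    have hd := data_of hS g0 s1 s2 s3 hco
    obtain ⟨hps, hqs⟩ := hco.gs
    have smp : ∀ g ∈ c.ps, smG g := by
      rw [hps]
      intro g hg
      obtain ⟨v, -, rfl⟩ := List.mem_map.1 hg
      exact vG_small hz s1 s2 s3 v
    have smq : ∀ g ∈ c.qs, smG g := by
      rw [hqs]
      intro g hg
      obtain ⟨v, -, rfl⟩ := List.mem_map.1 hg
      exact vG_small hz s1 s2 s3 v
    obtain ⟨f1, f2⟩ := fmrgJ_sound E.F Z hZ cs hok lam hlam hQ sc r0 hr0 _ _ _ _ _ _ u0 u1 u2 (ub' 0) (ub' 1)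
      (ub' 2) L g4 c hc r hr _ _ _ _ hd smp smq (vG z x₁ x₂ x₃ (i.val + 4 * t.val))
      (vG z x₁ x₂ x₃ (j.val + 4 * t'.val)) (by rw [hps]; exact List.mem_map_of_mem hp)
      (by rw [hqs]; exact List.mem_map_of_mem hq)
    rw [chM_eq _ z x₁ x₂ x₃ s1 s2 s3 i t j t' hi hj (pt cu)] at f2
    have e : evI (fun m r k => M m r k + z * wX i t j t' (pt cu) m r k) (x₁ : ℤ) x₂ x₃ =
        fun r k => evI M x₁ x₂ x₃ r k + z * evI (wX i t j t' (pt cu)) x₁ x₂ x₃ r k := by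
      funext r k
      exact ev_comb _ _ _ _ _ _
    rw [e]
    exact ⟨f1, hit_of hG hom f2⟩
  exact not_hit2 hC hM (key _ _ _ (Or.inl rfl) (Or.inl rfl) (Or.inl rfl)).1 a₁ b₁ a₂ b₂ a₃ b₃
    (fun x₁ x₂ x₃ e1 e2 e3 => (key x₁ x₂ x₃ e1 e2 e3).2)

theorem grpW_key (cu z : ℕ) (K : ℕ → ℕ → List ℕ → Bool) (tb : List (List ℕ))
    (h : @Bool.rec (fun _ => Bool) (nthK tb 4 (fun l => K cu z l) false) false (Nat.beq cu 2184) = true) :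
    Nat.beq cu 2184 = false ∧ ∃ l, nth tb 4 = some l ∧ K cu z l = true := by
  revert h
  generalize Nat.beq cu 2184 = b
  intro h
  cases b with
  | true => exact Bool.noConfusion (show false = true from h)
  | false =>
    have h' : nthK tb 4 (fun l => K cu z l) false = true := h
    rw [nthK_eq] at h'
    cases hn : nth tb 4 with
    | none =>
      rw [hn] at h'
      exact Bool.noConfusion (show false = true from h')
    | some l =>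
      rw [hn] at h'
      exact ⟨rfl, l, rfl, h'⟩

theorem grpV_key (cu e f : ℕ) (b : Bool) (K : ℕ → List ℕ → List ℕ → Bool) (tb : List (List ℕ))
    (h : @Bool.rec (fun _ => Bool) false
      (force cu fun cu => nthK tb e (fun lp => nthK tb f (fun lq => K cu lp lq) false) false) b = true) :
    b = true ∧ ∃ lp lq, nth tb e = some lp ∧ nth tb f = some lq ∧ K cu lp lq = true := by
  cases b with
  | false => exact Bool.noConfusion (show false = true from h)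
  | true =>
    have h' : nthK tb e (fun lp => nthK tb f (fun lq => K cu lp lq) false) false = true := h
    rw [nthK_eq] at h'
    cases hn : nth tb e with
    | none =>
      rw [hn] at h'
      exact Bool.noConfusion (show false = true from h')
    | some lp =>
      rw [hn] at h'
      have h2 : nthK tb f (fun lq => K cu lp lq) false = true := h'
      rw [nthK_eq] at h2
      cases hm : nth tb f with
      | none =>
        rw [hm] at h2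
        exact Bool.noConfusion (show false = true from h2)
      | some lq =>
        rw [hm] at h2
        exact ⟨rfl, lp, lq, rfl, rfl, h2⟩

theorem nth_getD {α : Type} {l : List α} {n : ℕ} {a b : α} (h : nth l n = some a) : l.getD n b = a := by
  obtain ⟨h1, h2⟩ := nth_lt h
  rw [getD_eq h1 b a, ← h2]

theorem grpW_false (H : HS W E cls d c s h lab) (hW : 0 ≤ W) (hZ : (E.Fᵀ * E.F) * Z = 1) (hG : E.G = E.F * Z)
    (hom : E.om = 1154 / 169)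
    (hok : ∀ v ∈ cs, okV v) (hlam : ∀ k, 0 ≤ lam k) (hQ : E.Fᵀ * E.F = ∑ k ∈ range cs.length, lam k • AtV cs k)
    (hsc : ∃ r, mkHd r = some sc) (henv : ∀ i ∈ env, okI W E cls d lab i)
    (a₁ : (l₁ : ℝ) ≤ 256 * E.c 0) (b₁ : 256 * E.c 0 ≤ h₁) (a₂ : (l₂ : ℝ) ≤ 256 * E.c 1)
    (b₂ : 256 * E.c 1 ≤ h₂) (a₃ : (l₃ : ℝ) ≤ 256 * E.c 2) (b₃ : 256 * E.c 2 ≤ h₃) {w₀ w : ℕ}
    (hs : grpW (vt (cls 0) (cls 1) (cls 2)) cs env own sc l₁ h₁ l₂ h₂ l₃ h₃ d₁ d₂ d₃ w₀ w = true) : False := by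
  unfold grpW at hs
  rw [force_eq, force_eq] at hs
  obtain ⟨hb, l, hn, hs3⟩ := grpW_key (Nat.mod w 4096) (Nat.mod (Nat.shiftRight w 12) 8192)
    (fun cu z l => grpD cs env own sc l₁ h₁ l₂ h₂ l₃ h₃ d₁ d₂ d₃ w₀ cu z (Nat.shiftRight w 25)
        (fun x₁ x₂ x₃ k => vts z x₁ x₂ x₃ l fun ps => k ps ps)) (vt (cls 0) (cls 1) (cls 2)) hs
  have hne : Nat.mod w 4096 ≠ 2184 := Nat.ne_of_beq_eq_false hb
  have hcu : Nat.mod w 4096 < 4096 := Nat.mod_lt _ (by norm_num)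
  have hz : Nat.mod (Nat.shiftRight w 12) 8192 ≤ 2 ^ 16 :=
    (Nat.mod_lt _ (by norm_num : 8192 > 0)).le.trans (by norm_num)
  revert hs3 hne hcu hz
  generalize Nat.mod w 4096 = cu
  generalize Nat.mod (Nat.shiftRight w 12) 8192 = z
  intro hs3 hne hcu hz
  obtain ⟨i, t, j, t', p1, p2, p3, p4, p5⟩ := grp_fact H hW (hT_of_cu H hW hcu hne) (by norm_num : 4 < 16)
    (by norm_num : 4 < 16)
  rw [nth_getD hn] at p3 p4
  exact group_false hZ hG hom hok hlam hQ hsc henv a₁ b₁ a₂ b₂ a₃ b₃ hz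
    (fun x₁ x₂ x₃ K hK => by
      have hK' : (vts z x₁ x₂ x₃ l fun ps => K ps ps) = true := hK
      rw [vts_eq] at hK'
      exact hK') p1 p2 p3 p4 p5 hs3

theorem grpV_false (H : HS W E cls d c s h lab) (hW : 0 ≤ W) (hZ : (E.Fᵀ * E.F) * Z = 1) (hG : E.G = E.F * Z)
    (hom : E.om = 1154 / 169)
    (hok : ∀ v ∈ cs, okV v) (hlam : ∀ k, 0 ≤ lam k) (hQ : E.Fᵀ * E.F = ∑ k ∈ range cs.length, lam k • AtV cs k)
    (hsc : ∃ r, mkHd r = some sc) (henv : ∀ i ∈ env, okI W E cls d lab i)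
    (a₁ : (l₁ : ℝ) ≤ 256 * E.c 0) (b₁ : 256 * E.c 0 ≤ h₁) (a₂ : (l₂ : ℝ) ≤ 256 * E.c 1)
    (b₂ : 256 * E.c 1 ≤ h₂) (a₃ : (l₃ : ℝ) ≤ 256 * E.c 2) (b₃ : 256 * E.c 2 ≤ h₃) {w₀ w : ℕ}
    (hs : grpV (vt (cls 0) (cls 1) (cls 2)) cs env own sc l₁ h₁ l₂ h₂ l₃ h₃ d₁ d₂ d₃ w₀ w = true) : False := by
  unfold grpV at hs
  rw [force_eq] at hs
  rcases tg_cases env (Nat.mod w 256) (fun n =>
    @Bool.rec (fun _ => Bool) false
      (force (Nat.shiftRight n 9) fun cu =>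
        nthK (vt (cls 0) (cls 1) (cls 2)) (Nat.mod (Nat.shiftRight n 1) 16) (fun lp =>
          nthK (vt (cls 0) (cls 1) (cls 2)) (Nat.mod (Nat.shiftRight n 5) 16) (fun lq =>
            grpD cs env own sc l₁ h₁ l₂ h₂ l₃ h₃ d₁ d₂ d₃ w₀ cu (Nat.mod (Nat.shiftRight w 8) 8192)
              (Nat.shiftRight w 21)
              (fun x₁ x₂ x₃ k => vts (Nat.mod (Nat.shiftRight w 8) 8192) x₁ x₂ x₃ lp fun ps =>
                vts (Nat.mod (Nat.shiftRight w 8) 8192) x₁ x₂ x₃ lq fun qs => k ps qs))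
            false) false)
      (Nat.beq (Nat.mod n 2) 1)) false with h1 | ⟨n, hmem, h1⟩
  · rw [h1] at hs
    exact Bool.noConfusion (show false = true from hs)
  · rw [h1] at hs
    obtain ⟨hb, lp, lq, hn1, hn2, hs3⟩ := grpV_key (Nat.shiftRight n 9) (Nat.mod (Nat.shiftRight n 1) 16)
      (Nat.mod (Nat.shiftRight n 5) 16) (Nat.beq (Nat.mod n 2) 1)
      (fun cu lp lq => grpD cs env own sc l₁ h₁ l₂ h₂ l₃ h₃ d₁ d₂ d₃ w₀ cu (Nat.mod (Nat.shiftRight w 8) 8192)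
              (Nat.shiftRight w 21)
              (fun x₁ x₂ x₃ k => vts (Nat.mod (Nat.shiftRight w 8) 8192) x₁ x₂ x₃ lp fun ps =>
                vts (Nat.mod (Nat.shiftRight w 8) 8192) x₁ x₂ x₃ lq fun qs => k ps qs))
      (vt (cls 0) (cls 1) (cls 2)) hs
    have hodd : n % 2 = 1 := Nat.eq_of_beq_eq_true hb
    have hT0 := hT_of_tag (henv _ hmem) hodd
    have he := tag_lt n 1
    have hf := tag_lt n 5
    have hz : Nat.mod (Nat.shiftRight w 8) 8192 ≤ 2 ^ 16 :=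
      (Nat.mod_lt _ (by norm_num : 8192 > 0)).le.trans (by norm_num)
    revert hs3 hT0 he hf hz hn1 hn2
    generalize Nat.shiftRight n 9 = cu
    generalize Nat.mod (Nat.shiftRight n 1) 16 = e
    generalize Nat.mod (Nat.shiftRight n 5) 16 = f
    generalize Nat.mod (Nat.shiftRight w 8) 8192 = z
    intro hn1 hn2 hs3 hT0 he hf hz
    obtain ⟨i, t, j, t', p1, p2, p3, p4, p5⟩ := grp_fact H hW hT0 he hf
    rw [nth_getD hn1] at p3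
    rw [nth_getD hn2] at p4
    exact group_false hZ hG hom hok hlam hQ hsc henv a₁ b₁ a₂ b₂ a₃ b₃ hz
      (fun x₁ x₂ x₃ K hK => by
        have hK' : (vts z x₁ x₂ x₃ lp fun ps => vts z x₁ x₂ x₃ lq fun qs => K ps qs) = true := hK
        rw [vts_eq, vts_eq] at hK'
        exact hK') p1 p2 p3 p4 p5 hs3

/-! ### the leaf -/

theorem leaf3_false (H : HS W E cls d c s h lab) (hW : 0 ≤ W) (hZ : (E.Fᵀ * E.F) * Z = 1) (hG : E.G = E.F * Z)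
    (hom : E.om = 1154 / 169)
    (hok : ∀ v ∈ cs, okV v) (hlam : ∀ k, 0 ≤ lam k) (hQ : E.Fᵀ * E.F = ∑ k ∈ range cs.length, lam k • AtV cs k)
    (hsc : ∃ r, mkHd r = some sc) (henv : ∀ i ∈ env, okI W E cls d lab i)
    (a₁ : (l₁ : ℝ) ≤ 256 * E.c 0) (b₁ : 256 * E.c 0 ≤ h₁) (a₂ : (l₂ : ℝ) ≤ 256 * E.c 1)
    (b₂ : 256 * E.c 1 ≤ h₂) (a₃ : (l₃ : ℝ) ≤ 256 * E.c 2) (b₃ : 256 * E.c 2 ≤ h₃) {g w₀ w : ℕ}
    (hs : leaf3 (vt (cls 0) (cls 1) (cls 2)) cs env own sc l₁ h₁ l₂ h₂ l₃ h₃ d₁ d₂ d₃ g w₀ w = true) :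
    False := by
  rcases g with _ | _ | g
  · exact plain_false hZ hG hom hok hlam hQ hsc henv a₁ b₁ a₂ b₂ a₃ b₃ hs
  · exact grpW_false H hW hZ hG hom hok hlam hQ hsc henv a₁ b₁ a₂ b₂ a₃ b₃ hs
  · exact grpV_false H hW hZ hG hom hok hlam hQ hsc henv a₁ b₁ a₂ b₂ a₃ b₃ hs

theorem leaf1_key (o : Option Hd) (K : Hd → Bool)
    (h : @Option.rec Hd (fun _ => Bool) false (fun sc => frcH sc K) o = true) :
    ∃ sc, o = some sc ∧ K sc = true := by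
  cases o with
  | none => exact Bool.noConfusion (show false = true from h)
  | some sc =>
    have h' : frcH sc K = true := h
    rw [frcH_eq] at h'
    exact ⟨sc, rfl, h'⟩

theorem leaf1_false (H : HS W E cls d c s h lab) (hW : 0 ≤ W) (hZ : (E.Fᵀ * E.F) * Z = 1) (hG : E.G = E.F * Z)
    (hom : E.om = 1154 / 169)
    (hok : ∀ v ∈ cs, okV v) (hlam : ∀ k, 0 ≤ lam k) (hQ : E.Fᵀ * E.F = ∑ k ∈ range cs.length, lam k • AtV cs k)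
    (henv : ∀ i ∈ env, okI W E cls d lab i)
    (a₁ : (l₁ : ℝ) ≤ 256 * E.c 0) (b₁ : 256 * E.c 0 ≤ h₁) (a₂ : (l₂ : ℝ) ≤ 256 * E.c 1)
    (b₂ : 256 * E.c 1 ≤ h₂) (a₃ : (l₃ : ℝ) ≤ 256 * E.c 2) (b₃ : 256 * E.c 2 ≤ h₃) {r : ℕ}
    (hs : leaf1 (vt (cls 0) (cls 1) (cls 2)) cs env l₁ h₁ l₂ h₂ l₃ h₃ r = true) : False := by
  obtain ⟨sc, hsc, h1⟩ := leaf1_key (mkHd (Nat.shiftRight r 10)) (fun sc =>
      force (Nat.shiftRight r (Nat.add 146 (Nat.mul 16 (Nat.mod r 16)))) fun w₀ =>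
      force (Nat.mod (Nat.shiftRight r 7) 2) fun d₁ => force (Nat.mod (Nat.shiftRight r 8) 2) fun d₂ =>
      force (Nat.mod (Nat.shiftRight r 9) 2) fun d₃ =>
      leaf2 (vt (cls 0) (cls 1) (cls 2)) cs env (Nat.mod (Nat.shiftRight r 4) 2) sc l₁ h₁ l₂ h₂ l₃ h₃ d₁ d₂ d₃
        (Nat.mod (Nat.shiftRight r 5) 4) w₀) hs
  rw [force_eq, force_eq, force_eq, force_eq] at h1
  revert h1
  generalize Nat.shiftRight r (Nat.add 146 (Nat.mul 16 (Nat.mod r 16))) = w₀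
  generalize Nat.mod (Nat.shiftRight r 7) 2 = d₁
  generalize Nat.mod (Nat.shiftRight r 8) 2 = d₂
  generalize Nat.mod (Nat.shiftRight r 9) 2 = d₃
  generalize Nat.mod (Nat.shiftRight r 4) 2 = own
  generalize Nat.mod (Nat.shiftRight r 5) 4 = g
  intro h1
  unfold leaf2 at h1
  rw [force_eq] at h1
  exact leaf3_false H hW hZ hG hom hok hlam hQ ⟨_, hsc⟩ henv a₁ b₁ a₂ b₂ a₃ b₃ h1

/-- **the leaf is correct** -/
theorem leafD_false (H : HS W E cls d c s h lab) (hW : 0 ≤ W) (hZ : (E.Fᵀ * E.F) * Z = 1) (hG : E.G = E.F * Z)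
    (hom : E.om = 1154 / 169)
    (hok : ∀ v ∈ cs, okV v) (hlam : ∀ k, 0 ≤ lam k) (hQ : E.Fᵀ * E.F = ∑ k ∈ range cs.length, lam k • AtV cs k)
    (henv : ∀ i ∈ env, okI W E cls d lab i) {box : List Ivl} (hbox : InBox E.c box) {r : ℕ}
    (hs : leafD (vt (cls 0) (cls 1) (cls 2)) cs env box r = true) : False := by
  unfold leafD at hs
  rcases box4_cases box (fun l₁ h₁ l₂ h₂ l₃ h₃ _ _ =>
    force (Nat.div l₁ 256) fun l₁ => force (Nat.div l₂ 256) fun l₂ => force (Nat.div l₃ 256) fun l₃ =>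
    force (nup h₁) fun h₁ => force (nup h₂) fun h₂ => force (nup h₃) fun h₃ =>
      leaf1 (vt (cls 0) (cls 1) (cls 2)) cs env l₁ h₁ l₂ h₂ l₃ h₃ r) false with h1 | ⟨x1, x2, x3, x4, n1, n2, n3, n4, h1⟩
  · rw [h1] at hs
    exact Bool.noConfusion (show false = true from hs)
  · rw [h1] at hs
    rw [force_eq, force_eq, force_eq, force_eq, force_eq, force_eq] at hs
    have lo : ∀ (i : ℕ) (x : Ivl), nth box i = some x → ((Nat.div x.lo 256 : ℕ) : ℝ) ≤ 256 * E.c i := by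
      intro i x hx
      have h2 := (hbox i x hx).1
      have h3 := div256 x.lo
      rw [div_le_iff₀ (by norm_num)] at h2
      linarith
    have hi : ∀ (i : ℕ) (x : Ivl), nth box i = some x → 256 * E.c i ≤ (nup x.hi : ℕ) := by
      intro i x hx
      have h2 := (hbox i x hx).2
      have h3 := nup_ge x.hi
      rw [le_div_iff₀ (by norm_num)] at h2
      linarith
    exact leaf1_false H hW hZ hG hom hok hlam hQ henv (lo 0 x1 n1) (hi 0 x1 n1) (lo 1 x2 n2) (hi 1 x2 n2)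
      (lo 2 x3 n3) (hi 2 x3 n3) hs

end

end Pool.Agent.Helper80.KD
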