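import Pool.Agent.Helper80.KD.LeafS
import Pool.Agent.Helper1.TK.Snd0

/-!
# The leaf is correct in every state
-/

set_option autoImplicit false

namespace Pool.Agent.Helper80.KD

open Pool.Agent.Helper82.FL (AtV)

/-- **the leaf** -/
theorem leafOK : Pool.Agent.Helper1.TK.LeafOK := by
  intro E Z cls d c s h L H hZ hG t r ht hr
  obtain ⟨h1, ⟨lam, h2, h3⟩, h4, h5⟩ := ht
  have hom : E.om = 1154 / 169 := by
    rw [H.om]
    norm_num
  exact leafD_false H (by norm_num) hZ hG hom h1 h2 h3 h4 h5 hr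

end Pool.Agent.Helper80.KD
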